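import Pool.Agent.J2D.P

/-!
# [J2D-C1] the odd part of the cubic character

PROOF. Models: JGL/D5.lean (`cc_mul`, `cc_per`, `cc_zw`, `cc_full`, `cc_recip`, `cc_om`, `cc_la`, `D5_cr_prod`, `D5_prod`, `D5_pow`). `So F = F.S.erase (-2)`, `4 Ds = (-2) ^ E(-2) ∏_{p ∈ So} p ^ E p` (`F.h4`, `Finset.mul_prod_erase`), `E(-2) = v2 F + 2` (`F.hE2`). `mn(-2) = -1`, `mo(-2) = -1`, `mn 4 = mo 4 = 1`, so `mn(∏_{So}) = mn Ds + v2`, `mo(∏_{So}) = mo Ds + v2` in `ZMod 3`; `co_om`: `(ω/p)_3 = zw (2 mn p)` (`CUL.sy_om`); `co_la`: `(λ/p)_3 = zw (mo p)` (`CUL.sy_la`).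
`co_recip`: `p` a primary prime, `D = p ^ n c`, `p ∤ c`, `3 ∣ n` (`n = 0` allowed): `4 c = η ω ^ i λ ^ v ∏_{q ∈ S, q ≠ p} q ^ E q` up to the factor `p ^ ..` for `p = -2` (`4 = (-2)²`); for `p ≠ -2`: `co F p = ∏_{q ∈ So, q ≠ p} cr q p ^ E q` (terms with `3 ∣ E q` are `1`; `p ∉ Sr F`), `c2f F p = cr (-2) p ^ v2` (`3 ∣ v2`: `zw k ^ 3 = 1`), `conj (ka ..) = zw (v mo p - i mn p) = cr p (ω ^ i λ ^ v)`, `cr p 4 = cr p (-2) ^ 2 = cr (-2) p ^ 2` (`CUL.cr_symm`).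
`co_two`: `c = η ω ^ i λ ^ v ∏_{q ∈ So} q ^ E q` (cancel `4 (-2) ^ v2`), `co F (-2) = ∏_{q ∈ So} cr q (-2) ^ E q = ∏ cr (-2) q ^ E q` (`CUL.cr_symm`), `conj (ka ..) = cr (-2) (ω ^ i λ ^ v)`.
For `p = -2`: `v2 = n` (exact power, `JGL.D1b2_pow`), `c2f = 1`, `c = ± D / (-2) ^ n`.
-/

set_option autoImplicit false

open NumberField IsDedekindDomain Filter Topology
open scoped Classical ComplexConjugate

namespace J2D

open CM27 JZ
open CU (la eE)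
open CUL (Nl ez DS Cont LV IsRep rp cr mn mo zw GalU)
open JGL (Fac sl)
open Q3 (Adm Dd Prim tt r3)
open Q3L (c2 sg cx fQ Dec)
open J2L

variable {D : Eis}

theorem So_spec (F : Fac D) {p : Eis} (hp : p ∈ So F) : Prime p ∧ Primary p ∧ ¬ p ∣ 2 ∧ ¬ p ∣ la ∧ p ∣ D := by
  obtain ⟨h1, h2⟩ := Finset.mem_erase.1 hp
  obtain ⟨h3, h4⟩ := F.hS p h2
  refine ⟨h3, h4, JGL.d7a_ndvd_two h3 h4 h1, CUL.tq_not_dvd_la h3 h4, ?_⟩
  obtain ⟨c, hc, -⟩ := JGL.fac_pow F h2 h1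
  rw [hc]
  exact (dvd_pow_self p (F.hE p h2)).mul_right c

theorem C1_Sr (F : Fac D) {p : Eis} (hp : p ∈ Sr F) : Prime p ∧ Primary p := by
  have h := So_spec F (Finset.mem_filter.1 hp).1
  exact ⟨h.1, h.2.1⟩

theorem co_mul (F : Fac D) (x y : Eis) : co F (x * y) = co F x * co F y := by
  unfold co
  rw [← Finset.prod_mul_distrib]
  refine Finset.prod_congr rfl fun p hp => ?_
  rw [CUL.cr_mul (C1_Sr F hp).1 (C1_Sr F hp).2, mul_pow]

theorem co_one (F : Fac D) : co F 1 = 1 := by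
  unfold co
  refine Finset.prod_eq_one fun p hp => ?_
  rw [CUL.cr_one (C1_Sr F hp).1 (C1_Sr F hp).2, one_pow]

theorem co_neg (F : Fac D) (x : Eis) : co F (-x) = co F x := by
  unfold co
  refine Finset.prod_congr rfl fun p hp => ?_
  rw [CUL.cr_neg (C1_Sr F hp).1 (C1_Sr F hp).2]

theorem co_per (F : Fac D) {x y : Eis} (h : ∀ p ∈ Sr F, p ∣ x - y) : co F x = co F y := by
  unfold co
  refine Finset.prod_congr rfl fun p hp => ?_
  rw [CUL.cr_congr (C1_Sr F hp).1 (C1_Sr F hp).2 (h p hp)]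

theorem co_zw (F : Fac D) {x : Eis} (h : ∀ p ∈ Sr F, ¬ p ∣ x) : ∃ j : ZMod 3, co F x = zw j := by
  refine ⟨∑ p ∈ Sr F, (F.E p : ZMod 3) * CU.sy x p, ?_⟩
  unfold co
  rw [← JL.b3_prod]
  refine Finset.prod_congr rfl fun p hp => ?_
  rw [JGL.D5_cr_sy (h p hp), CUL.zw_pow]

theorem co_full (F : Fac D) {x : Eis} (h : ∀ p ∈ So F, ¬ p ∣ x) : co F x = ∏ p ∈ So F, cr p x ^ F.E p := by
  unfold co Sr
  refine Finset.prod_subset (Finset.filter_subset _ _) fun p hp hp' => ?_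
  have h3 : 3 ∣ F.E p := by
    by_contra h3
    exact hp' (Finset.mem_filter.2 ⟨hp, h3⟩)
  obtain ⟨k, hk⟩ := h3
  have h4 : ((3 * k : ℕ) : ZMod 3) = 0 := by
    rw [Nat.cast_mul, ZMod.natCast_self, zero_mul]
  rw [JGL.D5_cr_sy (h p hp), CUL.zw_pow, hk, h4, zero_mul, CUL.zw_zero]

/-- `c2f F x = cr (-2) x ^ v2` for odd `x` -/
theorem c2f_odd (F : Fac D) {x : Eis} (h : ¬ (2 : Eis) ∣ x) : c2f F x = cr (-2) x ^ v2 F := by
  unfold c2f
  by_cases h1 : 3 ∣ v2 F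
  · rw [if_pos h1]
    obtain ⟨k, hk⟩ := h1
    have h4 : ((3 * k : ℕ) : ZMod 3) = 0 := by
      rw [Nat.cast_mul, ZMod.natCast_self, zero_mul]
    have h5 : ¬ (-2 : Eis) ∣ x := fun hh => h ((neg_dvd).1 hh)
    rw [JGL.D5_cr_sy h5, CUL.zw_pow, hk, h4, zero_mul, CUL.zw_zero]
  · rw [if_neg h1]

/-- the sums over the odd primes -/
theorem C1_sum (F : Fac D) :
    ∑ p ∈ So F, (F.E p : ZMod 3) * mn p = mn F.Ds + (v2 F : ZMod 3) ∧
    ∑ p ∈ So F, (F.E p : ZMod 3) * mo p = mo F.Ds + (v2 F : ZMod 3) := by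
  have h0 := JGL.D5_prod F.S F.E fun p hp => (F.hS p hp).2
  have h2 : mn (4 : Eis) = 1 := by decide
  have h3 : mo (4 : Eis) = 1 := by decide
  have h5 : Primary (4 : Eis) := by
    unfold Primary
    exact ⟨1, by norm_num⟩
  have h6 : mn (-2 : Eis) = -1 := by decide
  have h7 : mo (-2 : Eis) = -1 := by decide
  have h8 : ((F.E (-2) : ℕ) : ZMod 3) = (v2 F : ZMod 3) + 2 := by
    have : F.E (-2) = v2 F + 2 := by
      unfold v2
      have := F.hE2.1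
      omega
    rw [this, Nat.cast_add, Nat.cast_ofNat]
  have h9 : (3 : ZMod 3) = 0 := rfl
  constructor
  · have h4 := h0.2.1
    rw [← F.h4, CUL.x1_mn_mul h5 F.hDs, h2, ← Finset.add_sum_erase _ _ F.h2, h6, h8] at h4
    change ∑ p ∈ F.S.erase (-2), (F.E p : ZMod 3) * mn p = _
    linear_combination -h4 + h9
  · have h4 := h0.2.2
    rw [← F.h4, CUL.tx1_mo_mul h5 F.hDs, h3, ← Finset.add_sum_erase _ _ F.h2, h7, h8] at h4
    change ∑ p ∈ F.S.erase (-2), (F.E p : ZMod 3) * mo p = _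
    linear_combination -h4 + h9

theorem co_om (F : Fac D) : co F CU.om = zw (-(mn F.Ds + (v2 F : ZMod 3))) := by
  have h0 : IsUnit CU.om := IsUnit.of_pow_eq_one (n := 3) (by decide) (by norm_num)
  have h1 : ∀ p ∈ So F, ¬ p ∣ CU.om := fun p hp h =>
    (So_spec F hp).1.not_isUnit (isUnit_of_dvd_unit h h0)
  have h2 : ∀ p ∈ So F, cr p CU.om ^ F.E p = zw ((F.E p : ZMod 3) * (2 * mn p)) := by
    intro p hp
    rw [JGL.D5_cr_sy (h1 p hp), CUL.sy_om (So_spec F hp).1 (So_spec F hp).2.1, CUL.zw_pow]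
  rw [co_full F h1, Finset.prod_congr rfl h2, JL.b3_prod, ← (C1_sum F).1]
  congr 1
  have h3 : ∑ p ∈ So F, (F.E p : ZMod 3) * (2 * mn p) = 2 * ∑ p ∈ So F, (F.E p : ZMod 3) * mn p := by
    rw [Finset.mul_sum]
    refine Finset.sum_congr rfl fun p _ => ?_
    ring
  rw [h3]
  generalize ∑ p ∈ So F, (F.E p : ZMod 3) * mn p = t
  revert t
  decide

theorem co_la (F : Fac D) : co F la = zw (mo F.Ds + (v2 F : ZMod 3)) := by
  have h1 : ∀ p ∈ So F, ¬ p ∣ la := fun p hp => (So_spec F hp).2.2.2.1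
  have h2 : ∀ p ∈ So F, cr p la ^ F.E p = zw ((F.E p : ZMod 3) * mo p) := by
    intro p hp
    rw [JGL.D5_cr_sy (h1 p hp), CUL.sy_la (So_spec F hp).1 (So_spec F hp).2.1, CUL.zw_pow]
  rw [co_full F h1, Finset.prod_congr rfl h2, JL.b3_prod, (C1_sum F).2]

theorem C1_prime : Prime (-2 : Eis) := Q3.prime_two.neg

theorem C1_primary : Primary (-2 : Eis) := by
  unfold Primary
  exact ⟨-1, by norm_num⟩

theorem crm_om : cr (-2) CU.om = zw 1 := by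
  have h0 : IsUnit CU.om := IsUnit.of_pow_eq_one (n := 3) (by decide) (by norm_num)
  have h1 : ¬ (-2 : Eis) ∣ CU.om := fun h => C1_prime.not_isUnit (isUnit_of_dvd_unit h h0)
  rw [JGL.D5_cr_sy h1, CUL.sy_om C1_prime C1_primary]
  have h2 : 2 * mn (-2 : Eis) = 1 := by decide
  rw [h2]

theorem crm_la : cr (-2) la = zw (-1) := by
  rw [JGL.D5_cr_sy (CUL.tq_not_dvd_la C1_prime C1_primary), CUL.sy_la C1_prime C1_primary]
  have h2 : mo (-2 : Eis) = -1 := by decide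
  rw [h2]

theorem crm_neg (x : Eis) : cr (-2) (-x) = cr (-2) x := CUL.cr_neg C1_prime C1_primary x

end J2D
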