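import Pool.Agent.J2D.C1

/-!
# [J2D-C2] the odd part of the cubic character

PROOF. Models: JGL/D5.lean (`cc_mul`, `cc_per`, `cc_zw`, `cc_full`, `cc_recip`, `cc_om`, `cc_la`, `D5_cr_prod`, `D5_prod`, `D5_pow`). `So F = F.S.erase (-2)`, `4 Ds = (-2) ^ E(-2) ∏_{p ∈ So} p ^ E p` (`F.h4`, `Finset.mul_prod_erase`), `E(-2) = v2 F + 2` (`F.hE2`). `mn(-2) = -1`, `mo(-2) = -1`, `mn 4 = mo 4 = 1`, so `mn(∏_{So}) = mn Ds + v2`, `mo(∏_{So}) = mo Ds + v2` in `ZMod 3`; `co_om`: `(ω/p)_3 = zw (2 mn p)` (`CUL.sy_om`); `co_la`: `(λ/p)_3 = zw (mo p)` (`CUL.sy_la`).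
`co_recip`: `p` a primary prime, `D = p ^ n c`, `p ∤ c`, `3 ∣ n` (`n = 0` allowed): `4 c = η ω ^ i λ ^ v ∏_{q ∈ S, q ≠ p} q ^ E q` up to the factor `p ^ ..` for `p = -2` (`4 = (-2)²`); for `p ≠ -2`: `co F p = ∏_{q ∈ So, q ≠ p} cr q p ^ E q` (terms with `3 ∣ E q` are `1`; `p ∉ Sr F`), `c2f F p = cr (-2) p ^ v2` (`3 ∣ v2`: `zw k ^ 3 = 1`), `conj (ka ..) = zw (v mo p - i mn p) = cr p (ω ^ i λ ^ v)`, `cr p 4 = cr p (-2) ^ 2 = cr (-2) p ^ 2` (`CUL.cr_symm`).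
`co_two`: `c = η ω ^ i λ ^ v ∏_{q ∈ So} q ^ E q` (cancel `4 (-2) ^ v2`), `co F (-2) = ∏_{q ∈ So} cr q (-2) ^ E q = ∏ cr (-2) q ^ E q` (`CUL.cr_symm`), `conj (ka ..) = cr (-2) (ω ^ i λ ^ v)`.
For `p = -2`: `v2 = n` (exact power, `JGL.D1b2_pow`), `c2f = 1`, `c = ± D / (-2) ^ n`.
-/

set_option autoImplicit false

open NumberField IsDedekindDomain Filter Topology
open scoped Classical ComplexConjugate

namespace J2D

open CM27 JZ
open CU (la eE)
open CUL (Nl ez DS Cont LV IsRep rp cr mn mo zw GalU)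
open JGL (Fac sl)
open Q3 (Adm Dd Prim tt r3)
open Q3L (c2 sg cx fQ Dec)
open J2L

variable {D : Eis}

/-! ### auxiliary lemmas -/

theorem C2_four (F : Fac D) : 4 * F.Ds = (-2) ^ (v2 F + 2) * ∏ p ∈ So F, p ^ F.E p := by
  have h : F.E (-2) = v2 F + 2 := by
    have h1 := F.hE2
    unfold v2
    omega
  rw [F.h4, ← h]
  unfold So
  exact (Finset.mul_prod_erase F.S (fun q => q ^ F.E q) F.h2).symm

theorem C2_Ds (F : Fac D) : F.Ds = (-2) ^ v2 F * ∏ p ∈ So F, p ^ F.E p := by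
  have := eis_isDomain
  have h40 : (4 : Eis) ≠ 0 := by decide
  apply mul_left_cancel₀ h40
  rw [C2_four, pow_add]
  ring

/-- the unit and the part at `λ` -/
theorem C2_la (F : Fac D) {p : Eis} (hp : Prime p) (hP : Primary p) :
    conj (JGL.ka (-(F.v : ZMod 3)) F.i p) = cr p (F.η * CU.om ^ F.i * la ^ F.v) := by
  have h1 : ¬ p ∣ CU.om := fun h => hp.not_isUnit (isUnit_of_dvd_unit h CU.om_unit)
  have h2 : ¬ p ∣ la := CUL.tq_not_dvd_la hp hP
  have h3 : cr p F.η = 1 := by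
    rcases F.hη with h | h <;> rw [h]
    · exact CUL.cr_one hp hP
    · rw [CUL.cr_neg hp hP, CUL.cr_one hp hP]
  rw [CUL.cr_mul hp hP, CUL.cr_mul hp hP, CUL.cr_pow hp hP, CUL.cr_pow hp hP, h3, one_mul,
    JGL.D5_cr_sy h1, JGL.D5_cr_sy h2, CUL.sy_om hp hP, CUL.sy_la hp hP, CUL.zw_pow, CUL.zw_pow, ← CUL.zw_add]
  unfold JGL.ka
  rw [CUL.zw_conj]
  congr 1
  generalize mn p = a
  generalize mo p = b
  generalize (F.i : ZMod 3) = c
  generalize (F.v : ZMod 3) = d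
  revert a b c d
  decide

theorem C2_prod (F : Fac D) {p : Eis} (hp : Prime p) (hP : Primary p) (T : Finset Eis) (hT : ∀ q ∈ T, q ∈ F.S) :
    ∏ q ∈ T, cr q p ^ F.E q = cr p (∏ q ∈ T, q ^ F.E q) := by
  rw [JGL.D5_cr_prod hp hP]
  exact Finset.prod_congr rfl fun q hq => by
    rw [CUL.cr_symm (F.hS q (hT q hq)).1 (F.hS q (hT q hq)).2 hp hP]

theorem C2_So (F : Fac D) {q : Eis} (hq : q ∈ So F) : q ∈ F.S := Finset.mem_of_mem_erase hq

theorem C2_full (F : Fac D) {p : Eis} (hp : Prime p) (hP : Primary p) (h : p ∉ So F) :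
    co F p = cr p (∏ q ∈ So F, q ^ F.E q) := by
  rw [← C2_prod F hp hP (So F) fun q hq => C2_So F hq]
  refine co_full F fun q hq => ?_
  refine CUL.not_dvd_of_ne (F.hS q (C2_So F hq)).1 hp (F.hS q (C2_So F hq)).2 hP ?_
  rintro rfl
  exact h hq

/-- the relation to the cubic symbol of `4 D` -/
theorem cr_four (F : Fac D) {p : Eis} (hp : Prime p) (hP : Primary p) (h : p ∉ F.S) :
    cr p (4 * D) = co F p * cr (-2) p ^ (v2 F + 2) * conj (JGL.ka (-(F.v : ZMod 3)) F.i p) := by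
  have h1 : p ∉ So F := fun h' => h (C2_So F h')
  rw [C2_full F hp hP h1, C2_la F hp hP]
  have h2 : 4 * D = F.η * CU.om ^ F.i * la ^ F.v * (4 * F.Ds) := by
    have h3 := F.hD
    linear_combination 4 * h3
  rw [h2, CUL.cr_mul hp hP _ (4 * F.Ds), C2_four, CUL.cr_mul hp hP _ (∏ q ∈ So F, q ^ F.E q), CUL.cr_pow hp hP,
    CUL.cr_symm hp hP JL.b3_two JL.b3_twoP]
  ring

/-- the value at `-2` -/
theorem co_two (F : Fac D) {c : Eis} (hc : D = (-2) ^ v2 F * c) :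
    co F (-2) * conj (JGL.ka (-(F.v : ZMod 3)) F.i (-2)) = cr (-2) c := by
  have := eis_isDomain
  have h1 : (-2 : Eis) ∉ So F := Finset.notMem_erase _ _
  have h2 : c = F.η * CU.om ^ F.i * la ^ F.v * ∏ q ∈ So F, q ^ F.E q := by
    apply mul_left_cancel₀ (pow_ne_zero (v2 F) JL.b3_two.ne_zero)
    rw [← hc]
    have h3 := F.hD
    rw [C2_Ds] at h3
    exact h3.trans (by ring)
  rw [C2_full F JL.b3_two JL.b3_twoP h1, C2_la F JL.b3_two JL.b3_twoP, h2, CUL.cr_mul JL.b3_two JL.b3_twoP _ (∏ q ∈ So F, q ^ F.E q)]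
  ring

/-- the value at a primary prime which is not ramified -/
theorem co_recip (F : Fac D) (h0 : D ≠ 0) {p c : Eis} {n : ℕ} (hp : Prime p) (hP : Primary p) (hc : D = p ^ n * c) (hpc : ¬ p ∣ c)
    (h3 : 3 ∣ n) : co F p * c2f F p * conj (JGL.ka (-(F.v : ZMod 3)) F.i p) = cr p c := by
  have := eis_isDomain
  by_cases hp2 : p = -2
  · subst hp2
    obtain ⟨c', hc', hn'⟩ := JGL.fac_two F
    rw [hc'] at hc
    obtain ⟨h4, h5⟩ := JGL.D1b2_pow hp hn' hpc hc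
    have h6 : v2 F = n := h4
    have h7 : c2f F (-2) = 1 := by
      unfold c2f
      rw [if_pos (by rw [h6]; exact h3)]
    rw [h7, mul_one]
    refine co_two F ?_
    rw [← h5]
    exact hc'
  · have hp2' : ¬ p ∣ 2 := JGL.d7a_ndvd_two hp hP hp2
    have h2p : ¬ (2 : Eis) ∣ p := by
      intro h
      have h8 : (-2 : Eis) ∣ p := (neg_dvd).2 h
      exact CUL.not_dvd_of_ne JL.b3_two hp JL.b3_twoP hP (fun h9 => hp2 h9.symm) h8
    -- the exact power of `p`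
    have hr : ¬ p ∣ ∏ q ∈ (So F).erase p, q ^ F.E q :=
      JGL.d1b1_not_dvd hp hP (fun q hq => F.hS q (C2_So F (Finset.mem_of_mem_erase hq))) (Finset.notMem_erase p _)
    have hr2 : ¬ p ∣ (-2) ^ v2 F * ∏ q ∈ (So F).erase p, q ^ F.E q := by
      intro h
      rcases hp.dvd_or_dvd h with h | h
      · exact hp2' ((dvd_neg).1 (hp.dvd_of_dvd_pow h))
      · exact hr h
    have hr3 : ¬ p ∣ F.η * CU.om ^ F.i * la ^ F.v * ((-2) ^ v2 F * ∏ q ∈ (So F).erase p, q ^ F.E q) :=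
      JGL.d1b1_unit F hp hP hr2
    have hD : ∃ m : ℕ, D = p ^ m * (F.η * CU.om ^ F.i * la ^ F.v * ((-2) ^ v2 F * ∏ q ∈ (So F).erase p, q ^ F.E q)) ∧
        (p ∈ So F → m = F.E p) := by
      by_cases hpS : p ∈ So F
      · refine ⟨F.E p, ?_, fun _ => rfl⟩
        have h4 := Finset.mul_prod_erase (So F) (fun q => q ^ F.E q) hpS
        have h5 := F.hD
        rw [C2_Ds, ← h4] at h5
        exact h5.trans (by ring)
      · refine ⟨0, ?_, fun h => absurd h hpS⟩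
        rw [Finset.erase_eq_of_notMem hpS, pow_zero, one_mul]
        have h5 := F.hD
        rw [C2_Ds] at h5
        exact h5.trans (by ring)
    obtain ⟨m, hm, hmE⟩ := hD
    rw [hm] at hc
    obtain ⟨hmn, hcc⟩ := JGL.D1b2_pow hp hr3 hpc hc
    -- `p` is not in the conductor
    have hpSr : p ∉ Sr F := by
      intro h
      unfold Sr at h
      rw [Finset.mem_filter] at h
      apply h.2
      rw [← hmE h.1, hmn]
      exact h3
    have hsub : Sr F ⊆ (So F).erase p := by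
      intro q hq
      rw [Finset.mem_erase]
      refine ⟨?_, (Finset.mem_filter.1 hq).1⟩
      rintro rfl
      exact hpSr hq
    have e1 : co F p = cr p (∏ q ∈ (So F).erase p, q ^ F.E q) := by
      rw [← C2_prod F hp hP ((So F).erase p) fun q hq => C2_So F (Finset.mem_of_mem_erase hq)]
      unfold co
      refine Finset.prod_subset hsub fun q hq hq' => ?_
      have hqS := Finset.mem_of_mem_erase hq
      have h6 : 3 ∣ F.E q := by
        by_contra h6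
        exact hq' (Finset.mem_filter.2 ⟨hqS, h6⟩)
      obtain ⟨k, hk⟩ := h6
      have h7 : ((3 * k : ℕ) : ZMod 3) = 0 := by
        rw [Nat.cast_mul, ZMod.natCast_self, zero_mul]
      have h8 : ¬ q ∣ p := CUL.not_dvd_of_ne (F.hS q (C2_So F hqS)).1 hp (F.hS q (C2_So F hqS)).2 hP (Finset.ne_of_mem_erase hq)
      rw [JGL.D5_cr_sy h8, CUL.zw_pow, hk, h7, zero_mul, CUL.zw_zero]
    have e2 : c2f F p = cr p ((-2) ^ v2 F) := by
      rw [c2f_odd F h2p, CUL.cr_pow hp hP, CUL.cr_symm hp hP JL.b3_two JL.b3_twoP]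
    rw [e1, e2, C2_la F hp hP, ← hcc, CUL.cr_mul hp hP _ ((-2) ^ v2 F * ∏ q ∈ (So F).erase p, q ^ F.E q),
      CUL.cr_mul hp hP ((-2) ^ v2 F)]
    ring

end J2D
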