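import Pool.Agent.J2L.Defs
import Pool.Agent.JGL.D1a
import Pool.Agent.JGL.D7
import Pool.Agent.Q3.SQ

/-!
# [J2D] the data of `D` for the prime `2`: definitions

`D = η ω ^ i λ ^ v Ds`, `4 Ds = ∏_{p ∈ S} p ^ E(p)` (`F : JGL.Fac D`), `v₂(D) = E(-2) - 2`, `D = m² c ∏_{p ∈ T} p` (`S : Sq D`).
-/

set_option autoImplicit false

open NumberField IsDedekindDomain Filter Topology
open scoped Classical ComplexConjugate

namespace J2D

open CM27 JZ
open CU (la eE)
open CUL (Nl ez DS Cont LV IsRep rp cr mn mo zw GalU)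
open JGL (Fac sl)
open Q3 (Adm Dd Prim tt r3)
open Q3L (c2 sg cx fQ Dec)
open J2L

/-! ## the primary associate and the part at `λ` -/

/-- `x ≡ ± ω ^ m mod 3` -/
def mw (x : Eis) : ZMod 3 := if (3 : ℤ) ∣ x.im then 0 else if (3 : ℤ) ∣ x.re then 1 else 2

/-- `x ω ^ (- m)` -/
def pa (x : Eis) : Eis := if (3 : ℤ) ∣ x.im then x else if (3 : ℤ) ∣ x.re then CU.om ^ 2 * x else CU.om * x

/-- the primary associate of `x` -/
def pb (x : Eis) : Eis := if (pa x).re % 3 = 1 then pa x else -pa x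

/-- `ω ^ (l m + a mo(b) + i mn(b))` for `x = ± ω ^ m b` -/
noncomputable def kz (l a i : ZMod 3) (x : Eis) : ℂ := zw (l * mw x + a * mo (pb x) + i * mn (pb x))

/-! ## the data -/

variable {D : Eis}

/-- the odd primes of `F.S` -/
noncomputable def So (F : Fac D) : Finset Eis := F.S.erase (-2)

/-- the odd primes in the conductor of the cubic character -/
noncomputable def Sr (F : Fac D) : Finset Eis := (So F).filter fun p => ¬ 3 ∣ F.E p

/-- `v₂(D)` -/
def v2 (F : Fac D) : ℕ := F.E (-2) - 2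

/-- `ℚ(ω, ∛D)` is unramified at `λ` -/
def Un (F : Fac D) : Prop := 3 ∣ F.v ∧ F.i = 0 ∧ mn F.Ds = 0

/-- `∏ (x / p)_3 ^ E(p)` over the odd primes in the conductor -/
noncomputable def co (F : Fac D) (x : Eis) : ℂ := ∏ p ∈ Sr F, cr p x ^ F.E p

/-- the part at `λ` -/
noncomputable def kl (F : Fac D) (x : Eis) : ℂ := kz (-mn F.Ds) (-(F.v : ZMod 3)) (F.i : ZMod 3) x

/-- the part at `2` of the cubic character of `D` -/
noncomputable def c2f (F : Fac D) (x : Eis) : ℂ := if 3 ∣ v2 F then 1 else cr (-2) x ^ v2 F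

/-- the part at `λ` of the conductor of the cubic character of `D` -/
noncomputable def gla (F : Fac D) : Eis := if Un F then 1 else if 3 ∣ F.v then (if F.i = 0 then la ^ 2 else la ^ 3) else la ^ 4

/-- the conductor of the cubic character of `D` -/
noncomputable def gC (F : Fac D) : Eis := gla F * (if 3 ∣ v2 F then 1 else 2) * ∏ p ∈ Sr F, p

/-- the cubic character of `D` -/
noncomputable def kpC (F : Fac D) (x : Eis) : ℂ := if IsCoprime x (gC F) then co F x * c2f F x * conj (kl F x) else 0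

/-- the level -/
noncomputable def fL (F : Fac D) : Eis := (if JG.GoodL D then 1 else 9) * ∏ p ∈ So F, p

/-- the quadratic symbol `(x / p)_2` in `ℤ` -/
noncomputable def ci (p x : Eis) : ℤ := if p ∣ x then 0 else if Q3.sy x p = 0 then 1 else -1

/-- `D = m² c ∏_{p ∈ T} p` -/
structure Sq (D : Eis) where
  c : Eis
  T : Finset Eis
  m : Eis
  adm : Adm c T
  hm : m ≠ 0
  hD : D = m ^ 2 * Dd c T

/-- the quadratic character -/
noncomputable def qL (F : Fac D) (S : Sq D) (x : Eis) : ℤ :=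
  if IsCoprime x (fL F) then (if r3 ∈ S.T then 1 else sl x) * ∏ p ∈ S.T.erase r3, ci p x else 0

/-- the cubic character -/
noncomputable def kL (F : Fac D) (x : Eis) : ℂ := if IsCoprime x (fL F) then conj (co F x) * kl F x else 0

/-- `L` is the level of `D` -/
structure IsLv (F : Fac D) (S : Sq D) (L : Lv) : Prop where
  hf : L.f = fL F
  hj : L.j = 1 - (v2 F : ZMod 3)
  hq : ∀ x, L.q x = qL F S x
  hk : ∀ x, L.k x = kL F x

/-- The 2-adic data. -/
structure Zd (F : Fac D) where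
  D₀ : Eis
  ζ : Eis
  δ : Eis
  hD : D = 2 ^ v2 F * D₀
  hD₀ : ¬ (2 : Eis) ∣ D₀
  hζ : ζ ^ 3 = 1
  hδ : (4 : Eis) ∣ D₀ - ζ * (1 + 2 * δ)

/-- The function whose Dirichlet series is the L-function: `conj (ψ(x) / x)`. -/
noncomputable def rho (L : Lv) (v : ℕ) (δ x : Eis) : ℂ :=
  (L.q x : ℂ) * L.k x * (if n2 v δ = 0 then 1 else r2 v δ L.j x)

/-- the sum over the classes modulo `2 ^ n f` -/
noncomputable def V1 (L : Lv) (v : ℕ) (δ : Eis) : ℂ :=
  ∑ x ∈ rp (2 ^ n2 v δ * L.f), rho L v δ x * ez (emb x / emb (2 ^ n2 v δ * L.f))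

end J2D
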