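import Pool.Agent.J2D.S3
import Pool.Agent.JGL.GL2

/-!
# [J2D-H1] the L-function and the value at `1`, rationality

PROOF. `entire`: model JGL/GL2.lean (`gl2_norm`, `gl2_IL`, `gl_entire`): `NAB.LSeries_IL`, `JGL.gl2_tsum`, `CUL.cont_of_periodic` for the periodic function `rho` modulo `M = 2 ^ n2 f`: `DS rho s = 6 LSeries(..) s` for `Re s > 3/2` (`psi_all`; `rho 0 = 0` if `M` is not a unit; the term at `x = 0` is `0` anyway: `gs s 0 = 0`, and `NAB.itm` at the ideal `0` is `0`). `Φ = (continuation of DS rho) / 6`, `Φ 1 = (1/6) M⁻¹ ∑_{x ∈ rp M} rho x E1(x/M)`, `E1 = OmC ez`.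
`V_V1`: `n2 = 0`: `2 ^ 0 * f = f`, the summands agree (`pt`). `n2 ≠ 0`: `CUL.IsRep.crt` (see `JGL.h_gen`): `x = 2 ^ n c + f d`: `rho x = q(2 ^ n) k(2 ^ n) q(c) k(c) r2(f) r2(d)`, `x/M = c/f + d/2 ^ n`; `u = q(2 ^ n) k(2 ^ n) r2(f)`.
`b_mem`: as `JGL.gl_mem` / `JGL.b_mem`: `CUL.fixed_KK`, `CUL.exists_galU`, `CUL.ez_gal`: `σ V1 = conj (rho g) V1` (`rho_mul`, `rho_conj`, `IsRep.sum_mul`, `rho_sigma`); `gal_sqD`, `gal_4D`: `σ s = (q g q2 g) s` (`q_id`, `sl g = 1` because `g` is primary), `σ t = co g cr(-2) g ^ (v2 + 2) conj (ka g) t`, `conj (rho g) = q g q2 g conj (k g) conj (cr (-2) g ^ j.val)`, `conj (k g) = co g conj (ka g)` (`kz_prim`). `u ∈ KK` (`± zw k`).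
-/

set_option autoImplicit false

open NumberField IsDedekindDomain Filter Topology
open scoped Classical ComplexConjugate

namespace J2D

open CM27 JZ
open CU (la eE)
open CUL (Nl ez DS Cont LV IsRep rp cr mn mo zw GalU)
open JGL (Fac sl)
open Q3 (Adm Dd Prim tt r3)
open Q3L (c2 sg cx fQ Dec)
open J2L

variable {D : Eis}

theorem h1_gen (I : Ideal (𝓞 CF.KK)) : ∃ b : Eis, I = Ideal.span {eE b} := JGL.gl2_gen I

theorem h1_norm (F : Fac D) (S : Sq D) (Z : Zd F) (h0 : D ≠ 0) {L : Lv} (hL : IsLv F S L) {p₂ pl : Eis}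
    (h2 : emb p₂ = conj (rho L (v2 F) Z.δ 2) * emb 2) (hl : emb pl = conj (rho L (v2 F) Z.δ la) * emb la)
    (I : Ideal (𝓞 CF.KK)) (hI : I ≠ 0) :
    ‖conj (emb (JG.PsiG D p₂ pl I))‖ ^ 2 ≤ Ideal.absNorm I := by
  obtain ⟨b, rfl⟩ := JGL.gl2_gen I
  have hb : b ≠ 0 := by
    rintro rfl
    apply hI
    rw [map_zero, Ideal.span_singleton_eq_bot.2 rfl]
    rfl
  have h1 := psi_all F S Z h0 hL h2 hl hb
  rw [h1, Complex.norm_conj, norm_mul, mul_pow, CUL.l6_absNorm, CUL.l6_norm]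
  have h2 : ‖conj (rho L (v2 F) Z.δ b)‖ ^ 2 ≤ 1 := by
    rw [Complex.norm_conj]
    exact pow_le_one₀ (norm_nonneg _) (rho_norm L _ _ b)
  calc ‖conj (rho L (v2 F) Z.δ b)‖ ^ 2 * ((b.norm.natAbs : ℕ) : ℝ) ≤ 1 * ((b.norm.natAbs : ℕ) : ℝ) :=
        mul_le_mul_of_nonneg_right h2 (Nat.cast_nonneg _)
    _ = _ := one_mul _

theorem h1_IL (F : Fac D) (S : Sq D) (Z : Zd F) (h0 : D ≠ 0) {L : Lv} (hL : IsLv F S L) {p₂ pl : Eis}
    (h2 : emb p₂ = conj (rho L (v2 F) Z.δ 2) * emb 2) (hl : emb pl = conj (rho L (v2 F) Z.δ la) * emb la)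
    (s : ℂ) (hs : 3 / 2 < s.re) :
    DS (rho L (v2 F) Z.δ) s =
      6 * LSeries (fun n => NAB.IL CF.KK (fun I => conj (emb (JG.PsiG D p₂ pl I))) n) s := by
  rw [NAB.LSeries_IL CF.KK _ (h1_norm F S Z h0 hL h2 hl) s hs, DS]
  refine JGL.gl2_tsum _ _ ?_ ?_ ?_
  · rw [NAB.itm, if_pos rfl]
  · intro x
    by_cases hx : x = 0
    · have h4 : (Ideal.span {eE x} : Ideal (𝓞 CF.KK)) = 0 := by
        rw [hx, map_zero, Ideal.span_singleton_eq_bot.2 rfl]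
        rfl
      rw [NAB.itm, if_pos h4, hx, gs, map_zero, map_zero, zero_mul, mul_zero]
    · have hpos : 0 < ‖emb x‖ := norm_pos_iff.2 (CUL.l2_emb_ne hx)
      have h4 : (Ideal.span {eE x} : Ideal (𝓞 CF.KK)) ≠ 0 := by
        intro h5
        have h6 : eE x = 0 := Ideal.span_singleton_eq_bot.1 h5
        exact hx (eE.injective (by rw [h6, map_zero]))
      have h1 := psi_all F S Z h0 hL h2 hl hx
      rw [NAB.itm, if_neg h4, h1, map_mul, CUL.l6_absNorm, gs, ← CUL.l6_pow hpos, CUL.l6_norm, Complex.conj_conj]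
      push_cast
      ring
  · exact CUL.l2_summable _ (C := 1) (fun a => rho_norm L _ _ a) s hs

theorem entire (F : Fac D) (S : Sq D) (Z : Zd F) (h0 : D ≠ 0) {L : Lv} (hL : IsLv F S L) {p₂ pl : Eis}
    (h2 : emb p₂ = conj (rho L (v2 F) Z.δ 2) * emb 2) (hl : emb pl = conj (rho L (v2 F) Z.δ la) * emb la) :
    ∃ Φ : ℂ → ℂ, Differentiable ℂ Φ ∧ (∀ s : ℂ, 3 / 2 < s.re →
      Φ s = LSeries (fun n => NAB.IL CF.KK (fun I => conj (emb (JG.PsiG D p₂ pl I))) n) s) ∧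
      Φ 1 = OmC / (6 * emb (2 ^ n2 (v2 F) Z.δ * L.f)) * V1 L (v2 F) Z.δ := by
  have := eis_isDomain
  have hf : (2 ^ n2 (v2 F) Z.δ * L.f : Eis) ≠ 0 := mul_ne_zero (pow_ne_zero _ (by decide)) L.hf
  obtain ⟨Φ, h1, h2'⟩ := CUL.cont_of_periodic hf (rho L (v2 F) Z.δ)
    (fun a b hab => rho_per L (v2 F) Z.δ hab) (CUL.rp_spec hf)
  refine ⟨fun s => Φ s / 6, h1.1.div_const 6, ?_, ?_⟩
  · intro s hs
    show Φ s / 6 = _
    rw [h1.2 s hs, h1_IL F S Z h0 hL h2 hl s hs]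
    ring
  · show Φ 1 / 6 = _
    have hOm : OmC ≠ 0 := OmC_ne
    have hE : ∀ z : ℂ, NAB.E1 z = OmC * ez z := by
      intro z
      rw [CUL.ez]
      field_simp
    have h3 : ∑ c ∈ rp (2 ^ n2 (v2 F) Z.δ * L.f), rho L (v2 F) Z.δ c * NAB.E1 (emb c / emb (2 ^ n2 (v2 F) Z.δ * L.f)) =
        OmC * V1 L (v2 F) Z.δ := by
      unfold V1
      rw [Finset.mul_sum]
      refine Finset.sum_congr rfl fun c _ => ?_
      rw [hE]
      ring
    rw [h2', h3]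
    have hfe : emb (2 ^ n2 (v2 F) Z.δ * L.f) ≠ 0 := CUL.l2_emb_ne hf
    field_simp

end J2D
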