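import Pool.Agent.J2D.U3
import Pool.Agent.JGL.D6a
import Pool.Agent.Q3L.G4

/-!
# [J2D-U5] the cubic character of `ℚ(ω, ∛D)`

`kpC F x = co F x * c2f F x * conj (kl F x)` for `x` prime to `gC F = gla F * (1 or 2) * ∏_{p ∈ Sr} p`.

PROOF. `kpC_mul`, `kpC_per`: `co_mul`, `co_per`; `c2f`: `cr (-2)` is multiplicative and depends on `x mod 2`; `kl`: if `Un F` then `kl = 1` (`kz_zero`: `-mn Ds = 0`, `-v = 0`, `i = 0` in `ZMod 3`); otherwise `la ∣ gla F`, so `la ∤ x`; `gla = λ ^ 4`: `kz_per9` (`9 ~ λ ^ 4`); `gla = λ³`: `v = 0` in `ZMod 3`: `kz_perL`; `gla = λ²`: `i = 0` too: `kz_per3`.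
`kpC_unit`: `kpC (-1) = 1`, `kpC ω = zw (-(mn Ds + v2)) · zw v2 · conj (zw (-mn Ds)) = 1` (`co_om`, `crm_om`, `kz_om`), `CUL.unit_cases`.
`kpC_prim`: `p m = gC F`. `p` divides `la`, `2` or some `q ∈ Sr` (up to a unit). (a) `p ~ q ∈ Sr`: `m` is `gC / q` up to a unit; CRT: `u ≡ 1 mod m`, `u mod q` not a cube (`exists_ncube`), `kpC u = cr q u ^ E q ≠ 1` (`3 ∤ E q`). (b) `p ~ 2`: `3 ∤ v2`; `u ≡ 1 mod m`, `u ≡ ω mod 2`: `kpC u = zw v2 ≠ 1`. (c) `p ~ la`, not `Un F`: `m = gla / λ · (..)`: `gla = λ ^ 4` (`3 ∤ v`): `u ≡ 1 + λ³ mod 9` (`mw = 0`, `mo = -1`, `mn = 0`, so `kl u = zw v ≠ 1`) and `u ≡ 1` modulo the rest;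
`gla = λ³` (`i = 1, 2`): `u ≡ 4 mod 9` (`mn = 1`, `kl u = zw i ≠ 1`), `λ² ∣ 3 ∣ u - 1`; `gla = λ²` (`i = 0`, `3 ∣ v`, `mn Ds ≠ 0`): `u ≡ ω mod 9`, `λ ∣ ω - 1`, `kl u = zw (-mn Ds) ≠ 1`; in all cases `co F u = 1`, `c2f F u = 1` because `u ≡ 1` modulo the `q` and `2` (if `3 ∤ v2`).
`kpC_non`: `gC F` is not a unit (if it is: `Un F`, `3 ∣ v2`, `Sr F = ∅`, so `D` is a cube, as in `kL_non`), so it has a prime factor, `kpC_prim`.
`kpC_ram`: `D = p ^ n c`, `p` prime, `p ∤ 3`. `p` is a unit times a primary prime `p'` (`p' = -2` or odd), `D = p' ^ n c'`, `c' = c · unit ^ n`. `n = E p'` resp. `v2` (exact powers; `n = 0` if `p' ∉ S`). `p ∣ gC` iff `3 ∤ n`. If `3 ∣ n`: `kpC p = kpC p' = cr p' c'` (`co_recip`, `kz_prim`), `unit ^ n = ± 1`, and `cr p' c' = 1` iff `c'` is a cube modulo `p'` (`CU`/`CUL`: `cr_eq_one_iff` or `CU.sy_eq_zero_iff`; for `p' = -2`: `(O/2)* = {1,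 ω, ω²}`: `c ≡ y³` iff `c ≡ 1 mod 2`).
`kpC_ramL`: `D = λ ^ n c`: `n = F.v`, `c = η ω ^ i Ds` (exact power). `λ ∣ gC` iff not `Un F`. `λ³ ∣ c - η'` iff `η' = η`, `i = 0`, `mn Ds = 0`. Then `kpC λ = co F λ c2f F λ = zw (mo Ds + v2) zw (-v2)` if `3 ∤ v2` (`co_la`, `crm_la`), `= zw (mo Ds + v2) = zw (mo Ds)` if `3 ∣ v2`; `= 1` iff `mo Ds = 0` iff (with `mn Ds = 0`) `9 ∣ Ds - 1` iff `λ ^ 4 ∣ c - η`.
-/

set_option autoImplicit false

open NumberField IsDedekindDomain Filter Topology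
open scoped Classical ComplexConjugate

namespace J2D

open CM27 JZ
open CU (la eE)
open CUL (Nl ez DS Cont LV IsRep rp cr mn mo zw GalU)
open JGL (Fac sl)
open Q3 (Adm Dd Prim tt r3)
open Q3L (c2 sg cx fQ Dec)
open J2L

variable {D : Eis}

theorem u5_S (F : Fac D) (g : Eis) (h : ∀ p ∈ F.S, ¬ p ∣ g) :
    ∏ p ∈ F.S, cr p g ^ F.E p = co F g * cr (-2) g ^ (v2 F + 2) := by
  have h1 : ∀ p ∈ So F, ¬ p ∣ g := fun p hp => h p (Finset.mem_of_mem_erase hp)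
  have h2 : v2 F + 2 = F.E (-2) := by
    have := F.hE2.1
    unfold v2
    omega
  rw [co_full F h1, h2, mul_comm]
  exact (Finset.mul_prod_erase F.S (fun p => cr p g ^ F.E p) F.h2).symm

/-- the Galois action on the cube roots of `4 D` -/
theorem gal_4D (F : Fac D) (h0 : D ≠ 0) {t : ℂ} (ht : t ^ 3 = emb (4 * D)) : ∃ M₀ : Eis, M₀ ≠ 0 ∧ ∀ σ : ℂ ≃+* ℂ, σ w = w → ∀ M g : Eis,
    M ≠ 0 → M₀ ∣ M → GalU σ M g → σ t = co F g * cr (-2) g ^ (v2 F + 2) * conj (JGL.ka (-(F.v : ZMod 3)) F.i g) * t := by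
  have hdom := CM27.eis_isDomain
  have hDs0 : F.Ds ≠ 0 := by
    rintro h
    apply h0
    rw [F.hD, h, mul_zero]
  have h9 : (9 : Eis) ≠ 0 := by decide
  have h4 : (4 : Eis) ≠ 0 := by decide
  refine ⟨9 * (4 * F.Ds), mul_ne_zero h9 (mul_ne_zero h4 hDs0), ?_⟩
  intro σ hσ M g hM hd h
  obtain ⟨hgP, hgM, -⟩ := id h
  have hM9 : (9 : Eis) ∣ M := (dvd_mul_right _ _).trans hd
  have hMD : 4 * F.Ds ∣ M := (dvd_mul_left _ _).trans hd
  have hSM : ∀ p ∈ F.S, p ∣ M := by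
    intro p hp
    refine Dvd.dvd.trans ?_ hMD
    rw [F.h4]
    exact (dvd_pow_self p (F.hE p hp)).trans (Finset.dvd_prod_of_mem (fun q => q ^ F.E q) hp)
  have hSg : ∀ p ∈ F.S, ¬ p ∣ g := by
    intro p hp h1
    exact (F.hS p hp).1.not_isUnit (hgM.isUnit_of_dvd' h1 (hSM p hp))
  have hex : ∀ p : Eis, ∃ s : ℂ, s ^ 3 = emb p :=
    fun p => IsAlgClosed.exists_pow_nat_eq (emb p) (by norm_num)
  choose s hs using hex
  have hσp : ∀ p ∈ F.S, σ (s p) = cr p g * s p := fun p hp =>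
    CUL.gal_cbrt_prime σ hσ hM h (F.hS p hp).1 (F.hS p hp).2 (hSM p hp) (hs p)
  have hσr : σ (s (CU.om ^ F.i * la ^ F.v)) =
      zw (F.v * mo g + 2 * F.i * mn g) * s (CU.om ^ F.i * la ^ F.v) :=
    JGL.gal_cbrt_la σ hσ hM h hM9 F.v F.i (hs _)
  obtain ⟨t0, ht0⟩ : ∃ t0 : ℂ, t0 = emb F.η * s (CU.om ^ F.i * la ^ F.v) * ∏ p ∈ F.S, s p ^ F.E p := ⟨_, rfl⟩
  have hη3 : emb F.η ^ 3 = emb F.η := by
    rcases F.hη with h1 | h1
    · rw [h1, map_one, one_pow]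
    · rw [h1, map_neg, map_one]
      norm_num
  have ht03 : t0 ^ 3 = emb (4 * D) := by
    have e1 : 4 * D = F.η * (CU.om ^ F.i * la ^ F.v) * ∏ p ∈ F.S, p ^ F.E p := by
      rw [← F.h4]
      calc 4 * D = 4 * (F.η * CU.om ^ F.i * la ^ F.v * F.Ds) := by rw [← F.hD]
        _ = _ := by ring
    have e2 : ∏ p ∈ F.S, (s p ^ F.E p) ^ 3 = ∏ p ∈ F.S, emb p ^ F.E p := by
      refine Finset.prod_congr rfl fun p _ => ?_
      rw [← pow_mul, mul_comm, pow_mul, hs]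
    rw [ht0, e1, mul_pow, mul_pow, hη3, hs, ← Finset.prod_pow, e2]
    simp only [map_mul, map_prod, map_pow]
  have hD0 : emb (4 * D) ≠ 0 := by
    intro h1
    exact mul_ne_zero h4 h0 (emb_injective (by rw [h1, map_zero]))
  have ht0ne : t0 ≠ 0 := by
    intro h1
    rw [h1, zero_pow (by norm_num)] at ht03
    exact hD0 ht03.symm
  have hζ : σ (t / t0) = t / t0 := by
    apply CUL.g3_root _ σ hσ
    have h1 : (t / t0) ^ 3 = 1 := by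
      rw [div_pow, ht, ht03, div_self hD0]
    calc (t / t0) ^ 6 = ((t / t0) ^ 3) ^ 2 := by ring
      _ = 1 := by rw [h1, one_pow]
  have hσt0 : σ t0 = co F g * cr (-2) g ^ (v2 F + 2) * conj (JGL.ka (-(F.v : ZMod 3)) F.i g) * t0 := by
    have h1 : σ (∏ p ∈ F.S, s p ^ F.E p) = (∏ p ∈ F.S, cr p g ^ F.E p) * ∏ p ∈ F.S, s p ^ F.E p := by
      rw [map_prod, ← Finset.prod_mul_distrib]
      refine Finset.prod_congr rfl fun p hp => ?_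
      rw [map_pow, hσp p hp, mul_pow]
    have h2 : conj (JGL.ka (-(F.v : ZMod 3)) F.i g) = zw (F.v * mo g + 2 * F.i * mn g) := by
      unfold JGL.ka
      rw [CUL.zw_conj]
      congr 1
      have h5 : (2 : ZMod 3) = -1 := by decide
      rw [h5]
      ring
    rw [ht0, map_mul, map_mul, CUL.sigma_emb σ hσ, hσr, h1, u5_S F g hSg, h2]
    ring
  have h6 : t = (t / t0) * t0 := (div_mul_cancel₀ t ht0ne).symm
  calc σ t = σ (t / t0) * σ t0 := by rw [← map_mul, ← h6]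
    _ = (t / t0) * (co F g * cr (-2) g ^ (v2 F + 2) * conj (JGL.ka (-(F.v : ZMod 3)) F.i g) * t0) := by rw [hζ, hσt0]
    _ = co F g * cr (-2) g ^ (v2 F + 2) * conj (JGL.ka (-(F.v : ZMod 3)) F.i g) * ((t / t0) * t0) := by ring
    _ = co F g * cr (-2) g ^ (v2 F + 2) * conj (JGL.ka (-(F.v : ZMod 3)) F.i g) * t := by rw [← h6]

/-- the Galois action on `∛D` -/
theorem gal_cD (F : Fac D) (h0 : D ≠ 0) : ∃ M₀ : Eis, M₀ ≠ 0 ∧ ∀ σ : ℂ ≃+* ℂ, σ w = w → ∀ M g : Eis, M ≠ 0 → M₀ ∣ M → GalU σ M g →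
    σ (JT.cD D) = kpC F g * JT.cD D := by
  have hdom := CM27.eis_isDomain
  obtain ⟨s, hs⟩ : ∃ s : ℂ, s ^ 3 = emb (-2) := IsAlgClosed.exists_pow_nat_eq (emb (-2)) (by norm_num)
  have hs0 : s ≠ 0 := by
    intro h1
    rw [h1, zero_pow (by norm_num)] at hs
    exact CUL.l2_emb_ne JL.b3_two.ne_zero hs.symm
  have ht : (JT.cD D * s ^ 2) ^ 3 = emb (4 * D) := by
    rw [mul_pow, JT.cD_cube, ← pow_mul, mul_comm 2 3, pow_mul, hs, ← map_pow, ← map_mul]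
    congr 1
    ring
  obtain ⟨M₁, hM₁, h₁⟩ := gal_4D F h0 ht
  refine ⟨M₁ * gC F * 2, mul_ne_zero (mul_ne_zero hM₁ (gC_ne F)) Q3.prime_two.ne_zero, ?_⟩
  intro σ hσ M g hM hd h
  have hdM₁ : M₁ ∣ M := Dvd.dvd.trans ⟨gC F * 2, by ring⟩ hd
  have hdg : gC F ∣ M := Dvd.dvd.trans ⟨M₁ * 2, by ring⟩ hd
  have hd2 : (2 : Eis) ∣ M := (dvd_mul_left _ _).trans hd
  have e1 := h₁ σ hσ M g hM hdM₁ h
  have e2 : σ s = cr (-2) g * s :=
    CUL.gal_cbrt_prime σ hσ hM h JL.b3_two JL.b3_twoP (by rw [neg_dvd]; exact hd2) hs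
  have hg2 : ¬ (2 : Eis) ∣ g := fun h3 => Q3.prime_two.not_isUnit (h.2.1.isUnit_of_dvd' h3 hd2)
  have hc2 : cr (-2) g ≠ 0 := by
    rcases CUL.cr_cases (-2) g with h3 | h3
    · exact absurd (by rw [← neg_dvd]; exact h3.2) hg2
    · rw [h3.1]
      exact CUL.zw_ne _
  have hkp : kpC F g = co F g * cr (-2) g ^ v2 F * conj (JGL.ka (-(F.v : ZMod 3)) F.i g) := by
    unfold kpC kl
    rw [if_pos (h.2.1.of_isCoprime_of_dvd_right hdg), c2f_odd F hg2, kz_prim _ _ _ h.1]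
  rw [map_mul, map_pow, e2] at e1
  rw [hkp]
  apply mul_right_cancel₀ (mul_ne_zero (pow_ne_zero 2 hc2) (pow_ne_zero 2 hs0))
  rw [pow_add] at e1
  linear_combination e1

/-- the Galois action on the square roots of `D` -/
theorem gal_sqD (S : Sq D) (h0 : D ≠ 0) {s : ℂ} (hs : s ^ 2 = emb D) : ∃ M₀ : Eis, M₀ ≠ 0 ∧ ∀ σ : ℂ ≃+* ℂ, σ w = w → ∀ M g : Eis,
    M ≠ 0 → M₀ ∣ M → GalU σ M g → ∀ z g' : Eis, Q3L.Dec g z g' → σ s = Q3L.fQ S.c S.T g' * s := by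
  have hdom := CM27.eis_isDomain
  have h8 : (8 : Eis) ≠ 0 := by decide
  have hT0 : CUL.pr S.T ≠ 0 := by
    intro h1
    apply h0
    have h2 : Dd S.c S.T = S.c * CUL.pr S.T := rfl
    rw [S.hD, h2, h1, mul_zero, mul_zero]
  refine ⟨8 * CUL.pr S.T, mul_ne_zero h8 hT0, ?_⟩
  intro σ hσ M g hM hd h z g' hdec
  have hm : emb S.m ≠ 0 := CUL.l2_emb_ne S.hm
  have hr : (s / emb S.m) ^ 2 = emb (Dd S.c S.T) := by
    have h3 : emb D = emb S.m ^ 2 * emb (Dd S.c S.T) := by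
      rw [← map_pow, ← map_mul, ← S.hD]
    rw [div_pow, hs, h3]
    field_simp
  have h1 := Q3L.gal_sqrt hσ hM h hdec S.adm hd hr
  rw [map_div₀, CUL.sigma_emb σ hσ] at h1
  have h2 : s = s / emb S.m * emb S.m := (div_mul_cancel₀ s hm).symm
  calc σ s = σ s / emb S.m * emb S.m := (div_mul_cancel₀ _ hm).symm
    _ = fQ S.c S.T g' * (s / emb S.m) * emb S.m := by rw [h1]
    _ = fQ S.c S.T g' * (s / emb S.m * emb S.m) := by ring
    _ = fQ S.c S.T g' * s := by rw [← h2]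

end J2D
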