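import Pool.Agent.J2D.S1
import Pool.Agent.J2D.U5
import Pool.Agent.JGL.GL2
import Pool.Agent.JGL.D4

/-!
# [J2D-H2] the L-function and the value at `1`, rationality

PROOF. `entire`: model JGL/GL2.lean (`gl2_norm`, `gl2_IL`, `gl_entire`): `NAB.LSeries_IL`, `JGL.gl2_tsum`, `CUL.cont_of_periodic` for the periodic function `rho` modulo `M = 2 ^ n2 f`: `DS rho s = 6 LSeries(..) s` for `Re s > 3/2` (`psi_all`; `rho 0 = 0` if `M` is not a unit; the term at `x = 0` is `0` anyway: `gs s 0 = 0`, and `NAB.itm` at the ideal `0` is `0`). `Φ = (continuation of DS rho) / 6`, `Φ 1 = (1/6) M⁻¹ ∑_{x ∈ rp M} rho x E1(x/M)`, `E1 = OmC ez`.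
`V_V1`: `n2 = 0`: `2 ^ 0 * f = f`, the summands agree (`pt`). `n2 ≠ 0`: `CUL.IsRep.crt` (see `JGL.h_gen`): `x = 2 ^ n c + f d`: `rho x = q(2 ^ n) k(2 ^ n) q(c) k(c) r2(f) r2(d)`, `x/M = c/f + d/2 ^ n`; `u = q(2 ^ n) k(2 ^ n) r2(f)`.
`b_mem`: as `JGL.gl_mem` / `JGL.b_mem`: `CUL.fixed_KK`, `CUL.exists_galU`, `CUL.ez_gal`: `σ V1 = conj (rho g) V1` (`rho_mul`, `rho_conj`, `IsRep.sum_mul`, `rho_sigma`); `gal_sqD`, `gal_4D`: `σ s = (q g q2 g) s` (`q_id`, `sl g = 1` because `g` is primary), `σ t = co g cr(-2) g ^ (v2 + 2) conj (ka g) t`, `conj (rho g) = q g q2 g conj (k g) conj (cr (-2) g ^ j.val)`, `conj (k g) = co g conj (ka g)` (`kz_prim`). `u ∈ KK` (`± zw k`).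
-/

set_option autoImplicit false

open NumberField IsDedekindDomain Filter Topology
open scoped Classical ComplexConjugate

namespace J2D

open CM27 JZ
open CU (la eE)
open CUL (Nl ez DS Cont LV IsRep rp cr mn mo zw GalU)
open JGL (Fac sl)
open Q3 (Adm Dd Prim tt r3)
open Q3L (c2 sg cx fQ Dec)
open J2L

variable {D : Eis}

theorem h2_two : ¬ IsUnit (2 : Eis) := Q3.prime_two.not_isUnit

theorem h2_cop {f : Eis} (hf : ¬ (2 : Eis) ∣ f) (n : ℕ) : IsCoprime (2 ^ n : Eis) f := by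
  have := eis_isDomain
  exact IsCoprime.pow_left (JGL.D4a_cop Q3.prime_two hf)

theorem h2_cr (x y : Eis) (h : (2 : Eis) ∣ x - y) : cr (-2) x = cr (-2) y :=
  CUL.cr_congr JL.b3_two JL.b3_twoP (by rw [neg_dvd]; exact h)

theorem h2_r2_mul (v : ℕ) (δ : Eis) (j : ZMod 3) (x y : Eis) : r2 v δ j (x * y) = r2 v δ j x * r2 v δ j y := by
  unfold r2
  rw [q2_mul, CUL.cr_mul JL.b3_two JL.b3_twoP, mul_pow]
  push_cast
  ring

theorem h2_r2_per (v : ℕ) (δ : Eis) (j : ZMod 3) (hn : n2 v δ ≠ 0) {x y : Eis} (h : 2 ^ n2 v δ ∣ x - y) :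
    r2 v δ j x = r2 v δ j y := by
  unfold r2
  rw [q2_per v δ hn h, h2_cr x y ((dvd_pow_self (2 : Eis) hn).trans h)]

theorem h2_zw_mem (k : ZMod 3) : zw k ∈ CF.KK := by
  refine CUL.fixed_KK _ fun σ hσ => ?_
  unfold zw
  rw [map_pow, hσ]

theorem h2_r2_zw (v : ℕ) (δ : Eis) (j : ZMod 3) {x : Eis} (hx : ¬ (2 : Eis) ∣ x) :
    ∃ k : ZMod 3, r2 v δ j x = zw k ∨ r2 v δ j x = -zw k := by
  have h1 : ∃ k : ZMod 3, cr (-2) x = zw k := by
    rcases CUL.cr_cases (-2) x with h | h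
    · exact absurd (by rw [← neg_dvd]; exact h.2) hx
    · exact ⟨_, h.1⟩
  obtain ⟨k, hk⟩ := h1
  refine ⟨(j.val : ZMod 3) * k, ?_⟩
  unfold r2
  rw [hk, CUL.zw_pow]
  rcases q2_pm v δ hx with h | h
  · left
    rw [h, Int.cast_one, one_mul]
  · right
    rw [h, Int.cast_neg, Int.cast_one, neg_one_mul]

theorem V_V1 (L : Lv) (v : ℕ) (δ : Eis) : ∃ u : ℂ, ‖u‖ = 1 ∧ u ∈ CF.KK ∧ V1 L v δ = u * V L v δ := by
  have := eis_isDomain
  by_cases hn : n2 v δ = 0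
  · refine ⟨1, norm_one, one_mem _, ?_⟩
    unfold V1 V rho J2L.pt
    rw [if_pos hn, one_mul, hn, pow_zero, one_mul]
    refine Finset.sum_congr rfl fun x _ => ?_
    rw [if_pos rfl, mul_one]
  · have h2f : ¬ (2 : Eis) ∣ L.f := L.hf2
    have hc : IsCoprime (2 ^ n2 v δ : Eis) L.f := h2_cop h2f _
    have hM0 : (2 ^ n2 v δ : Eis) ≠ 0 := pow_ne_zero _ Q3.prime_two.ne_zero
    have hr : ∀ x, rho L v δ x = (L.q x : ℂ) * L.k x * r2 v δ L.j x := by
      intro x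
      unfold rho
      rw [if_neg hn]
    refine ⟨(L.q (2 ^ n2 v δ) : ℂ) * L.k (2 ^ n2 v δ) * r2 v δ L.j L.f, ?_, ?_, ?_⟩
    · obtain ⟨k, hk⟩ := L.k_cube _ hc
      obtain ⟨l, hl⟩ := h2_r2_zw v δ L.j h2f
      have h3 : ‖r2 v δ L.j L.f‖ = 1 := by
        rcases hl with h | h
        · rw [h, CUL.zw_norm]
        · rw [h, norm_neg, CUL.zw_norm]
      have h4 : ‖((L.q (2 ^ n2 v δ) : ℤ) : ℂ)‖ = 1 := by
        rcases L.q_pm _ hc with h | h
        · rw [h, Int.cast_one, norm_one]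
        · rw [h, Int.cast_neg, Int.cast_one, norm_neg, norm_one]
      rw [norm_mul, norm_mul, h3, h4, hk, CUL.zw_norm]
      norm_num
    · obtain ⟨k, hk⟩ := L.k_cube _ hc
      obtain ⟨l, hl⟩ := h2_r2_zw v δ L.j h2f
      refine mul_mem (mul_mem (intCast_mem _ _) (by rw [hk]; exact h2_zw_mem k)) ?_
      rcases hl with h | h
      · rw [h]; exact h2_zw_mem l
      · rw [h]; exact neg_mem (h2_zw_mem l)
    · have hfe : emb L.f ≠ 0 := CUL.l2_emb_ne L.hf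
      have hMe : emb (2 ^ n2 v δ) ≠ 0 := CUL.l2_emb_ne hM0
      have hM : (L.f * 2 ^ n2 v δ : Eis) ≠ 0 := mul_ne_zero L.hf hM0
      have h1 := IsRep.crt hc.symm (CUL.rp_spec L.hf) (CUL.rp_spec hM0)
        (fun x => rho L v δ x * ez (emb x / emb (L.f * 2 ^ n2 v δ))) (CUL.rp_spec hM) (by
          intro a b hab
          show rho L v δ a * ez (emb a / emb (L.f * 2 ^ n2 v δ)) = rho L v δ b * ez (emb b / emb (L.f * 2 ^ n2 v δ))
          have h2 : rho L v δ a = rho L v δ b := rho_per L v δ (by rw [mul_comm]; exact hab)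
          rw [h2]
          obtain ⟨t, ht⟩ := hab
          have h3 : emb a / emb (L.f * 2 ^ n2 v δ) = emb b / emb (L.f * 2 ^ n2 v δ) + emb t := by
            have h4 : a = b + L.f * 2 ^ n2 v δ * t := by linear_combination ht
            rw [h4, map_add, map_mul emb (L.f * 2 ^ n2 v δ)]
            have h5 : emb (L.f * 2 ^ n2 v δ) ≠ 0 := CUL.l2_emb_ne hM
            field_simp
          rw [h3, CUL.ez_add_emb])
      have h2 : V1 L v δ = ∑ c ∈ rp (L.f * 2 ^ n2 v δ), rho L v δ c * ez (emb c / emb (L.f * 2 ^ n2 v δ)) := by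
        unfold V1
        rw [mul_comm (2 ^ n2 v δ) L.f]
      rw [h2, h1]
      unfold V
      rw [if_neg hn, Finset.mul_sum]
      refine Finset.sum_congr rfl fun c _ => ?_
      have e0 : ∀ d : Eis, rho L v δ (c * 2 ^ n2 v δ + d * L.f) * ez (emb (c * 2 ^ n2 v δ + d * L.f) / emb (L.f * 2 ^ n2 v δ)) =
          ((L.q (2 ^ n2 v δ) : ℂ) * L.k (2 ^ n2 v δ) * r2 v δ L.j L.f) * ((L.q c : ℂ) * L.k c *
            (r2 v δ L.j d * ez (J2L.pt L c + emb d / 2 ^ n2 v δ))) := by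
        intro d
        have e1 : L.q (c * 2 ^ n2 v δ + d * L.f) = L.q c * L.q (2 ^ n2 v δ) := by
          rw [← L.q_mul]
          exact L.q_per _ _ ⟨d, by ring⟩
        have e2 : L.k (c * 2 ^ n2 v δ + d * L.f) = L.k c * L.k (2 ^ n2 v δ) := by
          rw [← L.k_mul]
          exact L.k_per _ _ ⟨d, by ring⟩
        have e3 : r2 v δ L.j (c * 2 ^ n2 v δ + d * L.f) = r2 v δ L.j d * r2 v δ L.j L.f := by
          rw [← h2_r2_mul]
          exact h2_r2_per v δ L.j hn ⟨c, by ring⟩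
        have e4 : emb (c * 2 ^ n2 v δ + d * L.f) / emb (L.f * 2 ^ n2 v δ) = J2L.pt L c + emb d / 2 ^ n2 v δ := by
          have e5 : emb (2 ^ n2 v δ) = 2 ^ n2 v δ := by rw [map_pow, map_ofNat]
          rw [e5] at hMe
          unfold J2L.pt
          rw [map_add, map_mul, map_mul, map_mul, e5]
          field_simp
        rw [hr, e1, e2, e3, e4]
        push_cast
        ring
      rw [Finset.sum_congr rfl fun d _ => e0 d, ← Finset.mul_sum, ← Finset.mul_sum]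

theorem V1_gal (L : Lv) (v : ℕ) (δ : Eis) {σ : ℂ ≃+* ℂ} (hσ : σ w = w) {M g : Eis} (hM : M ≠ 0) (hd : 2 ^ n2 v δ * L.f ∣ M)
    (hg : GalU σ M g) : σ (V1 L v δ) = conj (rho L v δ g) * V1 L v δ := by
  have := eis_isDomain
  have hm0 : (2 ^ n2 v δ * L.f : Eis) ≠ 0 := mul_ne_zero (pow_ne_zero _ Q3.prime_two.ne_zero) L.hf
  have hg' : GalU σ (2 ^ n2 v δ * L.f) g := hg.dvd hM hd
  have hc := hg'.2.1
  have h1 : V1 L v δ = ∑ x ∈ rp (2 ^ n2 v δ * L.f), rho L v δ (g * x) * ez (emb (g * x) / emb (2 ^ n2 v δ * L.f)) := by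
    refine (IsRep.sum_mul (CUL.rp_spec hm0) hc (fun x => rho L v δ x * ez (emb x / emb (2 ^ n2 v δ * L.f))) ?_).symm
    intro a b hab
    show rho L v δ a * ez (emb a / emb (2 ^ n2 v δ * L.f)) = rho L v δ b * ez (emb b / emb (2 ^ n2 v δ * L.f))
    rw [rho_per L v δ hab]
    obtain ⟨t, ht⟩ := hab
    have h3 : emb a / emb (2 ^ n2 v δ * L.f) = emb b / emb (2 ^ n2 v δ * L.f) + emb t := by
      have h4 : a = b + 2 ^ n2 v δ * L.f * t := by linear_combination ht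
      rw [h4, map_add, map_mul emb (2 ^ n2 v δ * L.f)]
      have h5 : emb (2 ^ n2 v δ * L.f) ≠ 0 := CUL.l2_emb_ne hm0
      field_simp
    rw [h3, CUL.ez_add_emb]
  have h2 : σ (V1 L v δ) = ∑ x ∈ rp (2 ^ n2 v δ * L.f), rho L v δ x * ez (emb (g * x) / emb (2 ^ n2 v δ * L.f)) := by
    unfold V1
    rw [map_sum]
    refine Finset.sum_congr rfl fun x _ => ?_
    rw [map_mul, (rho_sigma L v δ x σ hσ).1, CUL.ez_gal σ hσ hm0 hg']
  rw [h2, h1, Finset.mul_sum]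
  refine Finset.sum_congr rfl fun x _ => ?_
  rw [rho_mul]
  linear_combination (-(rho L v δ x * ez (emb (g * x) / emb (2 ^ n2 v δ * L.f)))) * rho_conj L v δ hc

theorem b_mem (F : Fac D) (S : Sq D) (Z : Zd F) (h0 : D ≠ 0) {L : Lv} (hL : IsLv F S L) {s t : ℂ} (hs : s ^ 2 = emb D)
    (ht : t ^ 3 = emb (4 * D)) : V L (v2 F) Z.δ * s / t ∈ CF.KK := by
  have := eis_isDomain
  obtain ⟨u, hu1, hu2, hu⟩ := V_V1 L (v2 F) Z.δ
  have hu0 : u ≠ 0 := by
    rintro rfl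
    rw [norm_zero] at hu1
    exact zero_ne_one hu1
  have key : V1 L (v2 F) Z.δ * s / t ∈ CF.KK := by
    obtain ⟨M₁, hM₁, h₁⟩ := gal_sqD S h0 hs
    obtain ⟨M₂, hM₂, h₂⟩ := gal_4D F h0 ht
    refine CUL.fixed_KK _ fun σ hσ => ?_
    have h20 : (2 : Eis) ≠ 0 := Q3.prime_two.ne_zero
    have hM : M₁ * M₂ * (2 ^ n2 (v2 F) Z.δ * L.f) * (2 * la) ≠ 0 :=
      mul_ne_zero (mul_ne_zero (mul_ne_zero hM₁ hM₂) (mul_ne_zero (pow_ne_zero _ h20) L.hf)) (mul_ne_zero h20 CU.la_prime.ne_zero)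
    obtain ⟨g, hg⟩ := CUL.exists_galU σ hσ _ hM
    have hs' := h₁ σ hσ _ g hM ⟨M₂ * (2 ^ n2 (v2 F) Z.δ * L.f) * (2 * la), by ring⟩ hg
    have ht' := h₂ σ hσ _ g hM ⟨M₁ * (2 ^ n2 (v2 F) Z.δ * L.f) * (2 * la), by ring⟩ hg
    have hV := V1_gal L (v2 F) Z.δ hσ hM ⟨M₁ * M₂ * (2 * la), by ring⟩ hg
    have hgP : Primary g := hg.1
    have hc2 : ¬ (2 : Eis) ∣ g := by
      intro h
      have h1 : IsCoprime g 2 := hg.2.1.of_isCoprime_of_dvd_right ⟨M₁ * M₂ * (2 ^ n2 (v2 F) Z.δ * L.f) * la, by ring⟩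
      exact h2_two (h1.isUnit_of_dvd' h dvd_rfl)
    have hcf : IsCoprime g L.f :=
      hg.2.1.of_isCoprime_of_dvd_right ⟨M₁ * M₂ * 2 ^ n2 (v2 F) Z.δ * (2 * la), by ring⟩
    have hcm : IsCoprime g (2 ^ n2 (v2 F) Z.δ * L.f) :=
      hg.2.1.of_isCoprime_of_dvd_right ⟨M₁ * M₂ * (2 * la), by ring⟩
    obtain ⟨z, g', hdec⟩ := Q3L.exists_dec hc2
    have hs2 := hs' z g' hdec
    have hlg : ¬ la ∣ g := CUL.primary_not_la hgP
    have hcf' : IsCoprime g (fL F) := by rw [← hL.hf]; exact hcf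
    have hq := q_id F S Z h0 hdec hcf' hlg
    rw [JGL.q1_sl_primary hgP, Int.cast_one, one_mul] at hq
    obtain ⟨e, he⟩ : ∃ e : ZMod 3, cr (-2) g = zw e := by
      rcases CUL.cr_cases (-2) g with h | h
      · exact absurd (by rw [← neg_dvd]; exact h.2) hc2
      · exact ⟨_, h.1⟩
    have hj : (L.j : ZMod 3) = 1 - (v2 F : ZMod 3) := hL.hj
    -- the part at 2
    have hrho : rho L (v2 F) Z.δ g = (L.q g : ℂ) * L.k g * (((q2 (v2 F) Z.δ g : ℤ) : ℂ) * zw (L.j * e)) := by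
      unfold rho
      by_cases hn : n2 (v2 F) Z.δ = 0
      · rw [if_pos hn, q2_triv hn hc2]
        have h4 := (n2_zero hn).1
        have h5 : L.j = 0 := by rw [hj, h4]; decide
        rw [h5, zero_mul, CUL.zw_zero, Int.cast_one, one_mul]
      · rw [if_neg hn]
        unfold r2
        rw [he, CUL.zw_pow, ZMod.natCast_val, ZMod.cast_id]
    have hk : L.k g = conj (co F g) * JGL.ka (-(F.v : ZMod 3)) F.i g := by
      rw [hL.hk]
      unfold kL kl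
      rw [if_pos hcf', kz_prim _ _ _ hgP]
    have hqq : ((L.q g : ℤ) : ℂ) * ((L.q g : ℤ) : ℂ) = 1 := by
      rcases L.q_pm g hcf with h | h
      · rw [h]; norm_num
      · rw [h]; norm_num
    have hq22 : ((q2 (v2 F) Z.δ g : ℤ) : ℂ) * ((q2 (v2 F) Z.δ g : ℤ) : ℂ) = 1 := by
      rcases q2_pm (v2 F) Z.δ hc2 with h | h
      · rw [h]; norm_num
      · rw [h]; norm_num
    have hz : zw (-(L.j * e)) = cr (-2) g ^ (v2 F + 2) := by
      rw [he, CUL.zw_pow, hj]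
      congr 1
      push_cast
      generalize (v2 F : ZMod 3) = a
      clear hrho he
      revert a e
      decide
    have hsg : (fQ S.c S.T g' : ℂ) = ((L.q g : ℤ) : ℂ) * ((q2 (v2 F) Z.δ g : ℤ) : ℂ) := by
      rw [← hq, hL.hq]
    have hT0 : co F g * cr (-2) g ^ (v2 F + 2) * conj (JGL.ka (-(F.v : ZMod 3)) F.i g) ≠ 0 := by
      have hk0 : L.k g ≠ 0 := by
        obtain ⟨k, hk1⟩ := L.k_cube g hcf
        rw [hk1]
        exact CUL.zw_ne k
      refine mul_ne_zero (mul_ne_zero ?_ (by rw [← hz]; exact CUL.zw_ne _)) ?_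
      · intro h
        apply hk0
        rw [hk, h, map_zero, zero_mul]
      · intro h
        apply hk0
        have h6 := congrArg conj h
        rw [Complex.conj_conj, map_zero] at h6
        rw [hk, h6, mul_zero]
    have hmain : conj (rho L (v2 F) Z.δ g) * fQ S.c S.T g' =
        co F g * cr (-2) g ^ (v2 F + 2) * conj (JGL.ka (-(F.v : ZMod 3)) F.i g) := by
      rw [hrho, hsg, hk, ← hz]
      rw [map_mul, map_mul, map_mul, map_mul, Complex.conj_conj, CUL.zw_conj, map_intCast (starRingEnd ℂ), map_intCast (starRingEnd ℂ)]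
      linear_combination (co F g * zw (-(L.j * e)) * conj (JGL.ka (-(F.v : ZMod 3)) F.i g)) *
        (hqq + ((L.q g : ℤ) : ℂ) * ((L.q g : ℤ) : ℂ) * hq22)
    rw [map_div₀, map_mul, hV, hs2, ht']
    have h8 : conj (rho L (v2 F) Z.δ g) * V1 L (v2 F) Z.δ * (fQ S.c S.T g' * s) =
        (co F g * cr (-2) g ^ (v2 F + 2) * conj (JGL.ka (-(F.v : ZMod 3)) F.i g)) * (V1 L (v2 F) Z.δ * s) := by
      rw [← hmain]
      ring
    rw [h8, mul_div_mul_left _ _ hT0]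
  have h9 : V L (v2 F) Z.δ * s / t = u⁻¹ * (V1 L (v2 F) Z.δ * s / t) := by
    rw [hu]
    field_simp
  rw [h9]
  exact mul_mem (inv_mem hu2) key

end J2D
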