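import Pool.Agent.J2D.K3

/-!
# [J2D-K] the level

PROOF. `fL F = (1 or 9) ∏_{p ∈ So} p`. `goodL_iff`: `F.v = 3`, `F.i = 0`, `mn Ds = 0` iff `JG.GoodL D` (`D = λ³ (η' + λ³ c')`: exact power of `λ` (`JGL.fac_la`, `JGL.D1b2_pow`), `η ω ^ i Ds ≡ η' mod λ³`; modulo `3`: `i = 0`, `η' = η` (`Ds ≡ 1 mod 3`), `Ds = 1 + 3 (..)`, `λ³ ∣ Ds - 1` iff `mn Ds = 0`). `qL`: `q_zero` by definition; `q_pm`: `sl x = ± 1` if `la ∤ x`; if `r3 ∉ T` then `9 ∣ fL` (otherwise `GoodL`, `v = 3`, and the exponent of `λ` in `D = m² c ∏_T p` would be even, so `r3 ∈ T`), so `la ∤ x`.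
`T.erase r3 ⊆ So` up to associates: an odd prime `p ∈ T`, `p ≠ r3`, divides `D`, so its primary associate is in `So` (`JGL.fac_not`) and `p ∣ fL F`; so `ci p x = ± 1` for `x` coprime to `fL`, `ci` depends only on `x mod p` (`Q3.sy_congr`), multiplicative (`Q3.sy_mul` or `Q3L.c2_mul` and `ci_c2`). `q_om`: `Q3.sy_om`, `sl ω = 1` (`JGL.q1_sl_om`).
`kL`: `k_mul`, `k_per`: `co_mul`, `co_per` (`Sr ⊆ So`, `p ∣ fL`), `kl`: if `9 ∣ fL`: `kz_mul`, `kz_per9`; if `GoodL`: `kl = 1` (`kz_zero`). `k_om`: `co_om`, `kz_om`: `conj (zw (-(mn Ds + v2))) · zw (-mn Ds) = zw v2 = zw (1 - j)`. `k_non`: if `v2 ≢ 0 mod 3`: `k ω = zw v2 ≠ 1`. Otherwise if some `p ∈ Sr F`: CRT: `x ≡ 1` modulo the other primes and modulo `9`, `x` not a cube modulo `p` (`CU`: the cubic symbol is surjective, e.g. from `CUL.sum_cr` or `JL` lemmas), `kL x = conj (cr p x ^ E p) ≠ 1`.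
Otherwise `Sr F = ∅`, `3 ∣ v2`; `kl` is not trivial: if `Un F` then `D = η λ ^ v Ds`, `3 ∣ v`, all exponents divisible by `3`: `D` is a cube, excluded. If `3 ∤ v`: `x ≡ 1 + λ³ mod 9` (`mo = -1`, `mn = 0`); `3 ∣ v`, `i ≠ 0`: `x ≡ 4 mod 9` (`mn = 1`); `mn Ds ≠ 0`, `i = 0`, `3 ∣ v`: `x ≡ ω mod 9`, `≡ 1` modulo the primes. In the last three cases `¬ GoodL` so `9 ∣ fL`.
-/

set_option autoImplicit false

open NumberField IsDedekindDomain Filter Topology
open scoped Classical ComplexConjugate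

namespace J2D

open CM27 JZ
open CU (la eE)
open CUL (Nl ez DS Cont LV IsRep rp cr mn mo zw GalU)
open JGL (Fac sl)
open Q3 (Adm Dd Prim tt r3)
open Q3L (c2 sg cx fQ Dec)
open J2L

variable {D : Eis}

theorem exists_lv (F : Fac D) (S : Sq D) (h0 : D ≠ 0) (hc : ¬ ∃ x : Eis, x ^ 3 = D) : ∃ L : Lv, IsLv F S L := by
  refine ⟨{ f := fL F
            q := qL F S
            k := kL F
            j := 1 - (v2 F : ZMod 3)
            hf := fL_ne F
            hf2 := fL_odd F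
            q_zero := fun x hx => if_neg hx
            q_pm := fun x hx => qL_pm F S h0 hx
            q_mul := qL_mul F S
            q_per := fun x y h => qL_per F S h0 h
            q_om := qL_om F S
            k_zero := fun x hx => if_neg hx
            k_cube := fun x hx => ?_
            k_mul := kL_mul F h0
            k_per := fun x y h => kL_per F h0 h
            k_om := by
              rw [kL_om, sub_sub_cancel]
            k_non := kL_non F h0 hc }, rfl, rfl, fun _ => rfl, fun _ => rfl⟩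
  have hx' : ∀ p ∈ Sr F, ¬ p ∣ x := by
    intro p hp h
    have h1 := (Finset.mem_filter.1 hp).1
    obtain ⟨h2, h3, -⟩ := So_spec F h1
    exact h2.not_isUnit (hx.isUnit_of_dvd' h ((dvd_fL F h2 h3).2 h1))
  obtain ⟨j, hj⟩ := co_zw F hx'
  obtain ⟨k, hk⟩ := kz_zw (-mn F.Ds) (-(F.v : ZMod 3)) (F.i : ZMod 3) x
  refine ⟨-j + k, ?_⟩
  unfold kL kl
  rw [if_pos hx, hj, hk, CUL.zw_conj, ← CUL.zw_add]

end J2D
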