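import Pool.Agent.J2D.P

/-!
# [J2D-Q1] the quadratic characters

PROOF. `zd_exists`: `D₀` odd, so `D₀ ≡ ζ mod 2` for a cube root of unity `ζ` (`1, ω, ω²`); `D₀ = ζ (1 + 2 δ)` with `δ = (ζ² D₀ - 1) / 2`. `D = 2 ^ v2 D₀`: `JGL.fac_two`: `D = (-2) ^ v2 c`.
`q2_mul`, `q2_per`: `x = ± ω ^ k g` (`Q3L.exists_dec`, `Dec`), explicit: `x1 x ≡ 1 mod 2`, `x1 (x y) = x1 x x1 y`, `y1 (x y) ≡ y1 x + y1 y mod 2`, `s8` is multiplicative (norms modulo `8`), `sT` additive; `q2` depends only on `x mod 2 ^ n2`: `v` even, `δ` even: `q2 = 1` for all odd `x` (`n2 ≤ 1`); `v` even: `y1 x mod 2` depends on `x mod 4`; `v` odd: `x mod 8`. All by coordinates (`decide`-free: `omega` on residues, or a finite check on residues modulo `8`).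
`q2_id`: for `x = z g` (`Dec x z g`: `z` a unit, `g` with `g.re % 4 = 1`, `g.im % 2 = 0`), `D = m² c ∏_T p`. `sg (cx c g + (∑_T tt) tt g) · sg ((∑_T tt) e)`, `e = 0` for `z = ω ^ k`, `e = 1` for `z = - ω ^ k`, equals `q2 v δ x`. `v` is odd iff `c = ± 2` (parity: `Dd c T = c · odd`). `∏_T p ≡ 1` or `r3 mod 4` according to `∑_T tt = 0, 1` (`Q3L.prim_cases`, `Q3.tt_mul`, `Q3L.prim_prod`), odd squares are `≡ ω ^ k mod 4` (`JGL.q5_odd_sq`), so `1 + 2 δ ≡ ± 1` or `± r3 mod 4` (`+` for `c = 1, 2`): `δ ≡ [c < 0] + (∑ tt) ω mod 2`.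
`y1 x ≡ e + tt g ω mod 2`, `Tr(y δ) = e ∑tt + tt g [c < 0] + tt g ∑ tt`, `cx 1 = 0`, `cx (-1) g = tt g`, `cx 2 g = tt g + et g`, `cx (-2) g = et g`, `s8 g = sg (tt g + et g)` (`Q3L.tt_norm`, `Q3L.et_norm`).
`q_id`: `fQ c T g = sg (cx c g) ∏_T (sg (tt p tt g) c2 p g)`; `c2 p x = c2 p z c2 p g`, `c2 p z = sg (tt p e)`; `c2 r3 x = sl x` (`JGL.q1_c2_r3`), `sl x ^ 2 = 1`.
-/

set_option autoImplicit false

open NumberField IsDedekindDomain Filter Topology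
open scoped Classical ComplexConjugate

namespace J2D

open CM27 JZ
open CU (la eE)
open CUL (Nl ez DS Cont LV IsRep rp cr mn mo zw GalU)
open JGL (Fac sl)
open Q3 (Adm Dd Prim tt r3)
open Q3L (c2 sg cx fQ Dec)
open J2L

variable {D : Eis}

/-! ### auxiliary lemmas -/

theorem Q1_half (a : ℤ) (h : a % 2 = 1) : a = 1 + (a / 2 + a / 2) := by omega

theorem Q1_half' (a : ℤ) (h : a % 2 = 0) : a = a / 2 + a / 2 := by omega

/-- the three cube roots of unity -/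
def Q1_k3 (k : Eis) : Prop := k = 1 ∨ k = CU.om ∨ k = CU.om ^ 2

theorem Q1_k3_mul {k k' : Eis} (h : Q1_k3 k) (h' : Q1_k3 k') : Q1_k3 (k * k') := by
  rcases h with rfl | rfl | rfl <;> rcases h' with rfl | rfl | rfl <;> unfold Q1_k3 <;> decide

theorem Q1_dvd_sub_one (x : Eis) : (2 : Eis) ∣ x - 1 ↔ x.re % 2 = 1 ∧ x.im % 2 = 0 := by
  rw [Q3L.two_dvd_iff, QuadraticAlgebra.re_sub, QuadraticAlgebra.im_sub, QuadraticAlgebra.re_one, QuadraticAlgebra.im_one]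
  omega

theorem Q1_dvd_sub_om (x : Eis) : (2 : Eis) ∣ x - CU.om ↔ x.re % 2 = 0 ∧ x.im % 2 = 1 := by
  have h1 : CU.om.re = 0 := rfl
  have h2 : CU.om.im = 1 := rfl
  rw [Q3L.two_dvd_iff, QuadraticAlgebra.re_sub, QuadraticAlgebra.im_sub, h1, h2]
  omega

theorem Q1_om_re (x : Eis) : (CU.om * x).re = -x.im := by
  have h1 : CU.om.re = 0 := rfl
  have h2 : CU.om.im = 1 := rfl
  rw [QuadraticAlgebra.re_mul, h1, h2]
  ring

theorem Q1_om_im (x : Eis) : (CU.om * x).im = x.re - x.im := by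
  have h1 : CU.om.re = 0 := rfl
  have h2 : CU.om.im = 1 := rfl
  rw [QuadraticAlgebra.im_mul, h1, h2]
  ring

theorem Q1_om2_re (x : Eis) : (CU.om ^ 2 * x).re = x.im - x.re := by
  have h : CU.om ^ 2 * x = CU.om * (CU.om * x) := by ring
  rw [h, Q1_om_re, Q1_om_im]
  ring

theorem Q1_om2_im (x : Eis) : (CU.om ^ 2 * x).im = -x.re := by
  have h : CU.om ^ 2 * x = CU.om * (CU.om * x) := by ring
  rw [h, Q1_om_im, Q1_om_re, Q1_om_im]
  ring

/-- `x1` is the associate which is `1` modulo `2` -/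
theorem Q1_x1 {x k : Eis} (hk : Q1_k3 k) (h : (2 : Eis) ∣ k * x - 1) : x1 x = k * x := by
  rw [Q1_dvd_sub_one] at h
  unfold x1
  rcases hk with rfl | rfl | rfl
  · rw [one_mul] at h ⊢
    rw [if_pos ((Q1_dvd_sub_one x).2 h)]
  · rw [Q1_om_re, Q1_om_im] at h
    rw [if_neg (fun h1 => ?_), if_neg (fun h1 => ?_)]
    · rw [Q1_dvd_sub_om] at h1
      omega
    · rw [Q1_dvd_sub_one] at h1
      omega
  · rw [Q1_om2_re, Q1_om2_im] at h
    rw [if_neg (fun h1 => ?_), if_pos ((Q1_dvd_sub_om x).2 (by omega))]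
    rw [Q1_dvd_sub_one] at h1
    omega

theorem Q1_exists {x : Eis} (h : ¬ (2 : Eis) ∣ x) : ∃ k, Q1_k3 k ∧ (2 : Eis) ∣ k * x - 1 := by
  rw [Q3L.two_dvd_iff] at h
  by_cases h1 : x.re % 2 = 1
  · by_cases h2 : x.im % 2 = 1
    · refine ⟨CU.om, Or.inr (Or.inl rfl), ?_⟩
      rw [Q1_dvd_sub_one, Q1_om_re, Q1_om_im]
      omega
    · refine ⟨1, Or.inl rfl, ?_⟩
      rw [one_mul, Q1_dvd_sub_one]
      omega
  · refine ⟨CU.om ^ 2, Or.inr (Or.inr rfl), ?_⟩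
    rw [Q1_dvd_sub_one, Q1_om2_re, Q1_om2_im]
    omega

theorem Q1_y1 {x : Eis} (h : (2 : Eis) ∣ x1 x - 1) : x1 x = 1 + (y1 x + y1 x) := by
  rw [Q1_dvd_sub_one] at h
  ext
  · rw [QuadraticAlgebra.re_add, QuadraticAlgebra.re_add, QuadraticAlgebra.re_one]
    change (x1 x).re = 1 + ((x1 x).re / 2 + (x1 x).re / 2)
    omega
  · rw [QuadraticAlgebra.im_add, QuadraticAlgebra.im_add, QuadraticAlgebra.im_one]
    change (x1 x).im = 0 + ((x1 x).im / 2 + (x1 x).im / 2)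
    omega

theorem Q1_spec {x : Eis} (h : ¬ (2 : Eis) ∣ x) : ∃ k, Q1_k3 k ∧ (2 : Eis) ∣ k * x - 1 ∧ x1 x = k * x ∧
    x1 x = 1 + (y1 x + y1 x) := by
  obtain ⟨k, hk, hd⟩ := Q1_exists h
  have h1 := Q1_x1 hk hd
  refine ⟨k, hk, hd, h1, Q1_y1 ?_⟩
  rw [h1]; exact hd

theorem Q1_norm (x : Eis) : x.norm = x.re ^ 2 - x.re * x.im + x.im ^ 2 := by
  rw [QuadraticAlgebra.norm_def]
  ring

theorem Q1_ndvd_mul {x y : Eis} (hx : ¬ (2 : Eis) ∣ x) (hy : ¬ (2 : Eis) ∣ y) : ¬ (2 : Eis) ∣ x * y := by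
  intro h
  have h1 := Q3L.k1_norm_odd hx
  have h2 := Q3L.k1_norm_odd hy
  obtain ⟨z, hz⟩ := h
  have h3 : (x * y).norm = x.norm * y.norm := map_mul _ _ _
  have h4 : (x * y).norm = (2 : Eis).norm * z.norm := by rw [hz]; exact map_mul _ _ _
  have h5 : (2 : Eis).norm = 4 := by decide
  rw [h5] at h4
  have h6 : (x.norm * y.norm) % 2 = 1 := by
    rw [Int.mul_emod, h1, h2]
    rfl
  rw [← h3, h4] at h6
  omega

theorem Q1_s8_pm (x : Eis) : s8 x = 1 ∨ s8 x = -1 := by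
  unfold s8
  split_ifs
  · exact Or.inl rfl
  · exact Or.inr rfl

theorem Q1_sT_pm (x : Eis) : sT x = 1 ∨ sT x = -1 := by
  unfold sT
  split_ifs
  · exact Or.inl rfl
  · exact Or.inr rfl

theorem Q1_s8_mul {x y : Eis} (hx : ¬ (2 : Eis) ∣ x) (hy : ¬ (2 : Eis) ∣ y) : s8 (x * y) = s8 x * s8 y := by
  have h1 := Q3L.k1_norm_odd hx
  have h2 := Q3L.k1_norm_odd hy
  have h3 : (x * y).norm = x.norm * y.norm := map_mul _ _ _
  have h4 : (x * y).norm % 8 = ((x.norm % 8) * (y.norm % 8)) % 8 := by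
    rw [h3, Int.mul_emod]
  unfold s8
  rw [h4]
  have e1 : x.norm % 8 = 1 ∨ x.norm % 8 = 3 ∨ x.norm % 8 = 5 ∨ x.norm % 8 = 7 := by omega
  have e2 : y.norm % 8 = 1 ∨ y.norm % 8 = 3 ∨ y.norm % 8 = 5 ∨ y.norm % 8 = 7 := by omega
  rcases e1 with e1 | e1 | e1 | e1 <;> rcases e2 with e2 | e2 | e2 | e2 <;> rw [e1, e2] <;> decide

theorem Q1_sT_add {z z' t : Eis} : sT (z + z' + (t + t)) = sT z * sT z' := by
  unfold sT
  rw [QuadraticAlgebra.im_add, QuadraticAlgebra.im_add, QuadraticAlgebra.im_add]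
  by_cases h1 : (2 : ℤ) ∣ z.im
  · by_cases h2 : (2 : ℤ) ∣ z'.im
    · rw [if_pos (by omega), if_pos h1, if_pos h2]; rfl
    · rw [if_neg (by omega), if_pos h1, if_neg h2]; rfl
  · by_cases h2 : (2 : ℤ) ∣ z'.im
    · rw [if_neg (by omega), if_neg h1, if_pos h2]; rfl
    · rw [if_pos (by omega), if_neg h1, if_neg h2]; rfl

theorem Q1_sT_zero : sT 0 = 1 := by decide

theorem Q1_sT_two (t : Eis) : sT (t + t) = 1 := by
  unfold sT
  rw [QuadraticAlgebra.im_add, if_pos (by omega)]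

theorem Q1_add_self_inj {a b : Eis} (h : a + a = b + b) : a = b := by
  have h1 := congrArg QuadraticAlgebra.re h
  have h2 := congrArg QuadraticAlgebra.im h
  rw [QuadraticAlgebra.re_add, QuadraticAlgebra.re_add] at h1
  rw [QuadraticAlgebra.im_add, QuadraticAlgebra.im_add] at h2
  ext
  · omega
  · omega

theorem zd_exists (F : Fac D) : Nonempty (Zd F) := by
  obtain ⟨c, hc, hc2⟩ := JGL.fac_two F
  have h2 : ¬ (2 : Eis) ∣ (-1) ^ (v2 F) * c := by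
    intro h
    have h3 : (2 : Eis) ∣ c := by
      have h4 : c = (-1) ^ (v2 F) * ((-1) ^ (v2 F) * c) := by
        rw [← mul_assoc, ← mul_pow]
        norm_num
      rw [h4]
      exact h.mul_left _
    exact hc2 ((neg_dvd).2 h3)
  obtain ⟨k, hk, hd, h3, h4⟩ := Q1_spec h2
  refine ⟨⟨(-1) ^ (v2 F) * c, k ^ 2, y1 ((-1) ^ (v2 F) * c), ?_, h2, ?_, ?_⟩⟩
  · rw [← mul_assoc, ← mul_pow]
    have h5 : (2 : Eis) * -1 = -2 := by norm_num
    rw [h5]
    exact hc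
  · rcases hk with rfl | rfl | rfl <;> decide
  · have h5 : (1 : Eis) + 2 * y1 ((-1) ^ (v2 F) * c) = k * ((-1) ^ (v2 F) * c) := by
      rw [← h3, h4]; ring
    have h6 : k ^ 3 = 1 := by rcases hk with rfl | rfl | rfl <;> decide
    have h7 : (-1) ^ (v2 F) * c - k ^ 2 * (1 + 2 * y1 ((-1) ^ (v2 F) * c)) = 0 := by
      rw [h5]
      linear_combination (-((-1) ^ (v2 F) * c)) * h6
    rw [h7]
    exact dvd_zero _

theorem exists_sq (h0 : D ≠ 0) : Nonempty (Sq D) := by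
  obtain ⟨c, T, m, hA, hm, h⟩ := Q3.sq_eis D h0
  exact ⟨⟨c, T, m, hA, hm, h⟩⟩

theorem Q1_s8_pow_pm (v : ℕ) (x : Eis) : s8 x ^ v = 1 ∨ s8 x ^ v = -1 := by
  rcases Q1_s8_pm x with h | h
  · left; rw [h, one_pow]
  · rw [h]; exact neg_one_pow_eq_or ℤ v

theorem Q1_s8_pow_even {v : ℕ} (hv : v % 2 = 0) (x : Eis) : s8 x ^ v = 1 := by
  rcases Q1_s8_pm x with h | h
  · rw [h, one_pow]
  · rw [h]
    exact Even.neg_one_pow (Nat.even_iff.2 hv)

theorem q2_pm (v : ℕ) (δ : Eis) {x : Eis} (h : ¬ (2 : Eis) ∣ x) : q2 v δ x = 1 ∨ q2 v δ x = -1 := by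
  unfold q2
  rw [if_neg h]
  rcases Q1_s8_pow_pm v x with h1 | h1 <;> rcases Q1_sT_pm (y1 x * δ) with h2 | h2 <;> rw [h1, h2] <;> decide

theorem q2_even (v : ℕ) (δ : Eis) {x : Eis} (h : (2 : Eis) ∣ x) : q2 v δ x = 0 := if_pos h

theorem q2_mul (v : ℕ) (δ x y : Eis) : q2 v δ (x * y) = q2 v δ x * q2 v δ y := by
  by_cases hx : (2 : Eis) ∣ x
  · rw [q2_even v δ hx, q2_even v δ (hx.mul_right y), zero_mul]
  by_cases hy : (2 : Eis) ∣ y
  · rw [q2_even v δ hy, q2_even v δ (hy.mul_left x), mul_zero]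
  unfold q2
  rw [if_neg hx, if_neg hy, if_neg (Q1_ndvd_mul hx hy), Q1_s8_mul hx hy]
  obtain ⟨k, hk, hd, h3, h4⟩ := Q1_spec hx
  obtain ⟨k', hk', hd', h3', h4'⟩ := Q1_spec hy
  have h5 : (2 : Eis) ∣ k * k' * (x * y) - 1 := by
    obtain ⟨a, ha⟩ := hd
    obtain ⟨b, hb⟩ := hd'
    exact ⟨a * (k' * y) + b, by linear_combination (k' * y) * ha + hb⟩
  have h6 := Q1_x1 (Q1_k3_mul hk hk') h5
  have h7 : (2 : Eis) ∣ x1 (x * y) - 1 := by rw [h6]; exact h5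
  have h8 := Q1_y1 h7
  have h9 : y1 (x * y) = y1 x + y1 y + (y1 x * y1 y + y1 x * y1 y) := by
    apply Q1_add_self_inj
    have h10 : x1 (x * y) = x1 x * x1 y := by rw [h6, h3, h3']; ring
    rw [h8, h4, h4'] at h10
    linear_combination h10
  have h11 : y1 (x * y) * δ = y1 x * δ + y1 y * δ + (y1 x * y1 y * δ + y1 x * y1 y * δ) := by
    rw [h9]; ring
  rw [h11, Q1_sT_add, mul_pow]
  ring

theorem q2_per (v : ℕ) (δ : Eis) {x y : Eis} (hn : n2 v δ ≠ 0) (h : 2 ^ n2 v δ ∣ x - y) : q2 v δ x = q2 v δ y := by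
  have h2 : (2 : Eis) ∣ x - y := (dvd_pow_self 2 hn).trans h
  by_cases hx : (2 : Eis) ∣ x
  · have hy : (2 : Eis) ∣ y := by
      have h3 : y = x - (x - y) := by ring
      rw [h3]; exact dvd_sub hx h2
    rw [q2_even v δ hx, q2_even v δ hy]
  have hy : ¬ (2 : Eis) ∣ y := by
    intro hy
    apply hx
    have h3 : x = (x - y) + y := by ring
    rw [h3]; exact dvd_add h2 hy
  obtain ⟨k, hk, hd, h3, h4⟩ := Q1_spec hx
  have hd' : (2 : Eis) ∣ k * y - 1 := by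
    have h5 : k * y - 1 = (k * x - 1) - k * (x - y) := by ring
    rw [h5]; exact dvd_sub hd (h2.mul_left k)
  have h3' := Q1_x1 hk hd'
  have h4' := Q1_y1 (x := y) (by rw [h3']; exact hd')
  -- the difference
  obtain ⟨m, hm⟩ : ∃ m, n2 v δ = m + 1 := ⟨n2 v δ - 1, by omega⟩
  obtain ⟨t, ht⟩ : ∃ t : Eis, y1 x = y1 y + 2 ^ m * t := by
    obtain ⟨u, hu⟩ := h
    rw [hm, pow_succ] at hu
    refine ⟨k * u, ?_⟩
    apply Q1_add_self_inj
    have h6 : x1 x - x1 y = k * (x - y) := by rw [h3, h3']; ring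
    rw [h4, h4', hu] at h6
    linear_combination h6
  unfold q2
  rw [if_neg hx, if_neg hy]
  unfold n2 at hm hn h
  by_cases hv : v % 2 = 1
  · rw [if_pos hv] at hm h
    have hm2 : m = 2 := by omega
    have e1 : sT (y1 x * δ) = sT (y1 y * δ) := by
      have h7 : y1 x * δ = y1 y * δ + 0 + (2 * t * δ + 2 * t * δ) := by
        rw [ht, hm2]; ring
      rw [h7, Q1_sT_add, Q1_sT_zero, mul_one]
    have e2 : s8 x = s8 y := by
      obtain ⟨u, hu⟩ := h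
      have h8 : x = y + 8 * u := by linear_combination hu
      have h9 : x.re = y.re + 8 * u.re := by
        rw [h8, QuadraticAlgebra.re_add, QuadraticAlgebra.re_mul]
        have a1 : (8 : Eis).re = 8 := by decide
        have a2 : (8 : Eis).im = 0 := by decide
        rw [a1, a2]; ring
      have h10 : x.im = y.im + 8 * u.im := by
        rw [h8, QuadraticAlgebra.im_add, QuadraticAlgebra.im_mul]
        have a1 : (8 : Eis).re = 8 := by decide
        have a2 : (8 : Eis).im = 0 := by decide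
        rw [a1, a2]; ring
      have h11 : x.norm % 8 = y.norm % 8 := by
        rw [Q1_norm, Q1_norm, h9, h10]
        have h12 : (y.re + 8 * u.re) ^ 2 - (y.re + 8 * u.re) * (y.im + 8 * u.im) + (y.im + 8 * u.im) ^ 2 =
            y.re ^ 2 - y.re * y.im + y.im ^ 2 + 8 * (2 * y.re * u.re + 8 * u.re ^ 2 - y.re * u.im - u.re * y.im -
              8 * u.re * u.im + 2 * y.im * u.im + 8 * u.im ^ 2) := by ring
        rw [h12]
        omega
      unfold s8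
      rw [h11]
    rw [e1, e2]
  · rw [if_neg hv] at hm hn h
    have hv0 : v % 2 = 0 := by omega
    rw [Q1_s8_pow_even hv0, Q1_s8_pow_even hv0]
    by_cases hδ : (2 : Eis) ∣ δ
    · obtain ⟨d, hd2⟩ := hδ
      have h13 : ∀ z : Eis, sT (z * δ) = 1 := by
        intro z
        have h14 : z * δ = z * d + z * d := by rw [hd2]; ring
        rw [h14, Q1_sT_two]
      rw [h13, h13]
    · rw [if_neg hδ] at hm
      have hm1 : m = 1 := by omega
      have h7 : y1 x * δ = y1 y * δ + 0 + (t * δ + t * δ) := by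
        rw [ht, hm1]; ring
      rw [h7, Q1_sT_add, Q1_sT_zero, mul_one]

theorem q2_om (v : ℕ) (δ : Eis) : q2 v δ CU.om = 1 := by
  unfold q2
  have h1 : ¬ (2 : Eis) ∣ CU.om := by
    rw [Q3L.two_dvd_iff]
    decide
  have h2 : s8 CU.om = 1 := by decide
  have h3 : x1 CU.om = CU.om ^ 2 * CU.om := Q1_x1 (Or.inr (Or.inr rfl)) (by
    rw [Q1_dvd_sub_one]
    decide)
  have h4 : y1 CU.om = 0 := by
    unfold y1
    rw [h3]
    decide
  rw [if_neg h1, h2, one_pow, h4, zero_mul, Q1_sT_zero]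
  rfl

/-- `n2 = 0`: the character at `2` is trivial -/
theorem q2_triv {v : ℕ} {δ : Eis} (h : n2 v δ = 0) {x : Eis} (hx : ¬ (2 : Eis) ∣ x) : q2 v δ x = 1 := by
  unfold n2 at h
  by_cases hv : v % 2 = 1
  · rw [if_pos hv] at h
    omega
  · rw [if_neg hv] at h
    by_cases hδ : (2 : Eis) ∣ δ
    · obtain ⟨d, hd2⟩ := hδ
      have h14 : y1 x * δ = y1 x * d + y1 x * d := by rw [hd2]; ring
      unfold q2
      rw [if_neg hx, Q1_s8_pow_even (by omega), h14, Q1_sT_two]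
      rfl
    · rw [if_neg hδ] at h
      omega

theorem ci_c2 (p x : Eis) : ((ci p x : ℤ) : ℂ) = c2 p x := by
  unfold ci c2
  by_cases h : p ∣ x
  · rw [if_pos h, if_pos h, Int.cast_zero]
  · rw [if_neg h, if_neg h]
    unfold sg
    by_cases h1 : Q3.sy x p = 0
    · rw [if_pos h1, if_pos h1, Int.cast_one]
    · rw [if_neg h1, if_neg h1, Int.cast_neg, Int.cast_one]

end J2D
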