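import Pool.Agent.J2D.C1
import Pool.Agent.J2D.Q1

/-!
# [J2D-K1] the level

PROOF. `fL F = (1 or 9) ∏_{p ∈ So} p`. `goodL_iff`: `F.v = 3`, `F.i = 0`, `mn Ds = 0` iff `JG.GoodL D` (`D = λ³ (η' + λ³ c')`: exact power of `λ` (`JGL.fac_la`, `JGL.D1b2_pow`), `η ω ^ i Ds ≡ η' mod λ³`; modulo `3`: `i = 0`, `η' = η` (`Ds ≡ 1 mod 3`), `Ds = 1 + 3 (..)`, `λ³ ∣ Ds - 1` iff `mn Ds = 0`). `qL`: `q_zero` by definition; `q_pm`: `sl x = ± 1` if `la ∤ x`; if `r3 ∉ T` then `9 ∣ fL` (otherwise `GoodL`, `v = 3`, and the exponent of `λ` in `D = m² c ∏_T p` would be even, so `r3 ∈ T`), so `la ∤ x`.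
`T.erase r3 ⊆ So` up to associates: an odd prime `p ∈ T`, `p ≠ r3`, divides `D`, so its primary associate is in `So` (`JGL.fac_not`) and `p ∣ fL F`; so `ci p x = ± 1` for `x` coprime to `fL`, `ci` depends only on `x mod p` (`Q3.sy_congr`), multiplicative (`Q3.sy_mul` or `Q3L.c2_mul` and `ci_c2`). `q_om`: `Q3.sy_om`, `sl ω = 1` (`JGL.q1_sl_om`).
`kL`: `k_mul`, `k_per`: `co_mul`, `co_per` (`Sr ⊆ So`, `p ∣ fL`), `kl`: if `9 ∣ fL`: `kz_mul`, `kz_per9`; if `GoodL`: `kl = 1` (`kz_zero`). `k_om`: `co_om`, `kz_om`: `conj (zw (-(mn Ds + v2))) · zw (-mn Ds) = zw v2 = zw (1 - j)`. `k_non`: if `v2 ≢ 0 mod 3`: `k ω = zw v2 ≠ 1`. Otherwise if some `p ∈ Sr F`: CRT: `x ≡ 1` modulo the other primes and modulo `9`, `x` not a cube modulo `p` (`CU`: the cubic symbol is surjective, e.g. from `CUL.sum_cr` or `JL` lemmas), `kL x = conj (cr p x ^ E p) ≠ 1`.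
Otherwise `Sr F = ∅`, `3 ∣ v2`; `kl` is not trivial: if `Un F` then `D = η λ ^ v Ds`, `3 ∣ v`, all exponents divisible by `3`: `D` is a cube, excluded. If `3 ∤ v`: `x ≡ 1 + λ³ mod 9` (`mo = -1`, `mn = 0`); `3 ∣ v`, `i ≠ 0`: `x ≡ 4 mod 9` (`mn = 1`); `mn Ds ≠ 0`, `i = 0`, `3 ∣ v`: `x ≡ ω mod 9`, `≡ 1` modulo the primes. In the last three cases `¬ GoodL` so `9 ∣ fL`.
-/

set_option autoImplicit false

open NumberField IsDedekindDomain Filter Topology
open scoped Classical ComplexConjugate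

namespace J2D

open CM27 JZ
open CU (la eE)
open CUL (Nl ez DS Cont LV IsRep rp cr mn mo zw GalU)
open JGL (Fac sl)
open Q3 (Adm Dd Prim tt r3)
open Q3L (c2 sg cx fQ Dec)
open J2L

variable {D : Eis}

theorem k1_mn_iff {b : Eis} (hb : Primary b) : mn b = 0 ↔ la ^ 3 ∣ b - 1 := by
  constructor
  · intro h
    obtain ⟨h1, h2⟩ := (primary_iff b).1 hb
    unfold mn at h
    rw [ZMod.intCast_zmod_eq_zero_iff_dvd] at h
    obtain ⟨k, hk⟩ : ∃ k, b.re = 1 + 3 * k := ⟨b.re / 3, by omega⟩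
    obtain ⟨l, hl⟩ : ∃ l, b.im = 3 * l := ⟨b.im / 3, by omega⟩
    obtain ⟨n, hn⟩ : ∃ n, k + l = 3 * n := by
      refine ⟨(k + l) / 3, ?_⟩
      push_cast at h
      omega
    rw [CUL.x1_la_cube]
    refine ⟨⟨n - l, 2 * n - l⟩, ?_⟩
    ext
    · simp only [QuadraticAlgebra.re_sub, QuadraticAlgebra.re_mul, QuadraticAlgebra.re_one]
      rw [hk]
      linear_combination 3 * hn
    · simp only [QuadraticAlgebra.im_sub, QuadraticAlgebra.im_mul, QuadraticAlgebra.im_one]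
      rw [hl]
      ring
  · intro h
    have h1 : la ^ 3 ∣ 1 - b := by
      rw [← neg_sub]
      exact (dvd_neg).2 h
    rw [← CUL.x1_mn_congr CUL.primary_one h1]
    decide

theorem k1_unit {η η' : Eis} (hη : η = 1 ∨ η = -1) (hη' : η' = 1 ∨ η' = -1) {i : ℕ} (hi : i < 3)
    (h : (3 : Eis) ∣ η * CU.om ^ i - η') : i = 0 ∧ η = η' := by
  obtain ⟨c, hc⟩ := h
  have e1 := congrArg QuadraticAlgebra.re hc
  have e2 := congrArg QuadraticAlgebra.im hc
  have h3 : (3 : Eis) = ⟨3, 0⟩ := by decide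
  have o1 : CU.om ^ 1 = (⟨0, 1⟩ : Eis) := by decide
  have o2 : CU.om ^ 2 = (⟨-1, -1⟩ : Eis) := by decide
  have o0 : CU.om ^ 0 = (⟨1, 0⟩ : Eis) := by decide
  have n1 : (-1 : Eis) = ⟨-1, 0⟩ := by decide
  have p1 : (1 : Eis) = ⟨1, 0⟩ := by decide
  rw [h3] at e1 e2
  interval_cases i
  · refine ⟨rfl, ?_⟩
    rw [o0] at e1 e2
    rcases hη with rfl | rfl <;> rcases hη' with rfl | rfl
    · rfl
    · exfalso
      rw [n1, p1] at e1
      simp only [QuadraticAlgebra.re_sub, QuadraticAlgebra.re_mul] at e1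
      omega
    · exfalso
      rw [n1, p1] at e1
      simp only [QuadraticAlgebra.re_sub, QuadraticAlgebra.re_mul] at e1
      omega
    · rfl
  · exfalso
    rw [o1] at e1 e2
    rcases hη with rfl | rfl <;> rcases hη' with rfl | rfl
    · rw [p1] at e1
      simp only [QuadraticAlgebra.re_sub, QuadraticAlgebra.re_mul] at e1
      omega
    · rw [n1, p1] at e1
      simp only [QuadraticAlgebra.re_sub, QuadraticAlgebra.re_mul] at e1
      omega
    · rw [n1, p1] at e1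
      simp only [QuadraticAlgebra.re_sub, QuadraticAlgebra.re_mul] at e1
      omega
    · rw [n1] at e1
      simp only [QuadraticAlgebra.re_sub, QuadraticAlgebra.re_mul] at e1
      omega
  · exfalso
    rw [o2] at e1 e2
    rcases hη with rfl | rfl <;> rcases hη' with rfl | rfl
    · rw [p1] at e2
      simp only [QuadraticAlgebra.im_sub, QuadraticAlgebra.im_mul] at e2
      omega
    · rw [n1, p1] at e2
      simp only [QuadraticAlgebra.im_sub, QuadraticAlgebra.im_mul] at e2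
      omega
    · rw [n1, p1] at e2
      simp only [QuadraticAlgebra.im_sub, QuadraticAlgebra.im_mul] at e2
      omega
    · rw [n1] at e2
      simp only [QuadraticAlgebra.im_sub, QuadraticAlgebra.im_mul] at e2
      omega

theorem k1_not_la {η c : Eis} (hη : η = 1 ∨ η = -1) (h : la ∣ c - η) : ¬ la ∣ c := by
  intro h1
  have h2 : la ∣ η := by
    have h3 : η = c - (c - η) := by ring
    rw [h3]
    exact dvd_sub h1 h
  have h3 : IsUnit η := by
    rcases hη with rfl | rfl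
    · exact isUnit_one
    · exact isUnit_one.neg
  exact CUL.la_prime.not_isUnit (isUnit_of_dvd_unit h2 h3)

theorem k1_exact (F : Fac D) {η' c' : Eis} (hη' : η' = 1 ∨ η' = -1) {n : ℕ} (hD' : D = la ^ n * (η' + la ^ 3 * c')) :
    F.v = n ∧ F.η * CU.om ^ F.i * F.Ds = η' + la ^ 3 * c' := by
  have h1 : D = la ^ F.v * (F.η * CU.om ^ F.i * F.Ds) := F.hD.trans (by ring)
  obtain ⟨c, hc, hc1⟩ := JGL.fac_la F
  have := CM27.eis_isDomain
  have h2 : F.η * CU.om ^ F.i * F.Ds = c := by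
    apply mul_left_cancel₀ (pow_ne_zero F.v CUL.la_prime.ne_zero)
    exact h1.symm.trans hc
  have h3 : ¬ la ∣ c := k1_not_la F.hη hc1
  have h4 : ¬ la ∣ η' + la ^ 3 * c' := by
    apply k1_not_la hη'
    rw [add_sub_cancel_left]
    exact (dvd_pow_self la (by norm_num)).mul_right _
  rw [h2]
  exact JGL.D1b2_pow CUL.la_prime h3 h4 (hc.symm.trans hD')

theorem goodL_iff (F : Fac D) (h0 : D ≠ 0) : JG.GoodL D ↔ F.v = 3 ∧ F.i = 0 ∧ mn F.Ds = 0 := by
  constructor
  · rintro ⟨η', c', hη', hD'⟩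
    obtain ⟨hv, he⟩ := k1_exact F hη' hD'
    have h1 : (3 : Eis) ∣ F.η * CU.om ^ F.i - η' := by
      have h2 : F.η * CU.om ^ F.i - η' = la ^ 3 * c' - F.η * CU.om ^ F.i * (F.Ds - 1) := by
        linear_combination he
      rw [h2]
      exact dvd_sub (CUL.x1_three_dvd.mul_right _) (Dvd.dvd.mul_left F.hDs _)
    obtain ⟨hi, hη⟩ := k1_unit F.hη hη' F.hi h1
    refine ⟨hv, hi, ?_⟩
    rw [k1_mn_iff F.hDs]
    rw [hi, hη, pow_zero, mul_one] at he
    have h3 : η' * η' = 1 := by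
      rcases hη' with rfl | rfl
      · ring
      · ring
    refine ⟨η' * c', ?_⟩
    linear_combination η' * he + (1 - F.Ds) * h3
  · rintro ⟨hv, hi, hm⟩
    obtain ⟨c, hc⟩ := (k1_mn_iff F.hDs).1 hm
    refine ⟨F.η, F.η * c, F.hη, ?_⟩
    have h2 := F.hD
    rw [hv, hi] at h2
    refine h2.trans ?_
    linear_combination F.η * la ^ 3 * hc

theorem goodL_un (F : Fac D) (h0 : D ≠ 0) (h : JG.GoodL D) : Un F := by
  obtain ⟨h1, h2, h3⟩ := (goodL_iff F h0).1 h
  exact ⟨⟨1, by rw [h1]⟩, h2, h3⟩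

theorem k1_two_not (F : Fac D) {p : Eis} (hp : p ∈ So F) : ¬ (2 : Eis) ∣ p := by
  have := CM27.eis_isDomain
  intro h
  obtain ⟨h1, -, h3, -⟩ := So_spec F hp
  exact h3 ((Q3.prime_two.dvd_prime_iff_associated h1).1 h).symm.dvd

theorem fL_ne (F : Fac D) : fL F ≠ 0 := by
  have := CM27.eis_isDomain
  unfold fL
  refine mul_ne_zero ?_ (Finset.prod_ne_zero_iff.2 fun p hp => (So_spec F hp).1.ne_zero)
  split_ifs
  · exact one_ne_zero
  · decide

theorem fL_odd (F : Fac D) : ¬ (2 : Eis) ∣ fL F := by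
  have := CM27.eis_isDomain
  unfold fL
  intro h
  rcases Q3.prime_two.dvd_or_dvd h with h | h
  · have h1 : (2 : Eis) ∣ 9 := by
      split_ifs at h
      · exact h.trans (one_dvd 9)
      · exact h
    have h2 : (2 : Eis) ∣ 1 := by
      have h3 : (1 : Eis) = 9 - 2 * 4 := by norm_num
      rw [h3]
      exact dvd_sub h1 (dvd_mul_right _ _)
    exact Q3.prime_two.not_isUnit (isUnit_of_dvd_one h2)
  · obtain ⟨q, hq, h2⟩ := (Q3.prime_two.dvd_finsetProd_iff _).1 h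
    exact k1_two_not F hq h2

/-- the odd primes in the level -/
theorem dvd_fL (F : Fac D) {p : Eis} (hp : Prime p) (hP : Primary p) : p ∣ fL F ↔ p ∈ So F := by
  have := CM27.eis_isDomain
  constructor
  · intro h
    unfold fL at h
    rcases hp.dvd_or_dvd h with h | h
    · exfalso
      have h1 : p ∣ 9 := by
        split_ifs at h
        · exact h.trans (one_dvd 9)
        · exact h
      have h2 : p ∣ la ^ 4 := by
        have h3 : la ^ 4 = 9 * CU.om ^ 2 := by decide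
        rw [h3]
        exact h1.mul_right _
      have h3 := hp.dvd_of_dvd_pow h2
      exact hp.not_isUnit ((CUL.cop_la hP).isUnit_of_dvd' dvd_rfl h3)
    · obtain ⟨q, hq, h2⟩ := (hp.dvd_finsetProd_iff _).1 h
      obtain ⟨h3, h4, -⟩ := So_spec F hq
      rw [CUL.primary_assoc hP h4 ((hp.dvd_prime_iff_associated h3).1 h2)]
      exact hq
  · intro h
    unfold fL
    exact (Finset.dvd_prod_of_mem (fun p => p) h).mul_left _

theorem la_fL (F : Fac D) : la ∣ fL F ↔ ¬ JG.GoodL D := by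
  have := CM27.eis_isDomain
  have hn : ¬ la ∣ ∏ p ∈ So F, p := by
    intro h
    obtain ⟨q, hq, h2⟩ := (CUL.la_prime.dvd_finsetProd_iff _).1 h
    exact CUL.primary_not_la (So_spec F hq).2.1 h2
  constructor
  · intro h hg
    unfold fL at h
    rw [if_pos hg, one_mul] at h
    exact hn h
  · intro hg
    unfold fL
    rw [if_neg hg]
    have h1 : la ∣ 9 := ⟨la ^ 3 * CU.om, by decide⟩
    exact h1.mul_right _

theorem k1_la_r3 : Associated la r3 := by
  refine ⟨CU.om_unit.unit, ?_⟩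
  rw [IsUnit.unit_spec]
  decide

theorem k1_T_la (S : Sq D) {p : Eis} (hp : p ∈ S.T.erase r3) : ¬ la ∣ p := by
  have := CM27.eis_isDomain
  intro h
  obtain ⟨h1, h2⟩ := Finset.mem_erase.1 hp
  obtain ⟨h3, h4⟩ := S.adm.1 p h2
  have h5 := (CUL.la_prime.dvd_prime_iff_associated h3).1 h
  exact h1 (Q3.prim_unique h4 Q3.prim_r3 (h5.symm.trans k1_la_r3))

theorem r3_of_good (F : Fac D) (S : Sq D) (h0 : D ≠ 0) (h : JG.GoodL D) : r3 ∈ S.T := by
  have := CM27.eis_isDomain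
  have hpid : IsPrincipalIdealRing Eis := eis_pid
  by_contra hr
  obtain ⟨η, c, hη, hD⟩ := h
  obtain ⟨m', hm, hm'⟩ := (FiniteMultiplicity.of_not_isUnit CUL.la_prime.not_isUnit S.hm).exists_eq_pow_mul_and_not_dvd
  obtain ⟨k, hk⟩ : ∃ k, k = multiplicity la S.m := ⟨_, rfl⟩
  rw [← hk] at hm
  have h1 : ¬ la ∣ ∏ p ∈ S.T, p := by
    intro h1
    obtain ⟨q, hq, h2⟩ := (CUL.la_prime.dvd_finsetProd_iff _).1 h1
    exact k1_T_la S (Finset.mem_erase.2 ⟨fun h3 => hr (h3 ▸ hq), hq⟩) h2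
  have h2 : ¬ la ∣ S.c := by
    intro h2
    rw [CUL.la_dvd_iff] at h2
    rcases S.adm.2 with h3 | h3 | h3 | h3 <;> rw [h3] at h2 <;> revert h2 <;> decide
  have h3 : ¬ la ∣ m' ^ 2 * Dd S.c S.T := by
    intro h3
    rcases CUL.la_prime.dvd_or_dvd h3 with h3 | h3
    · exact hm' (CUL.la_prime.dvd_of_dvd_pow h3)
    · unfold Dd at h3
      rcases CUL.la_prime.dvd_or_dvd h3 with h3 | h3
      · exact h2 h3
      · exact h1 h3
  have h4 : ¬ la ∣ η + la ^ 3 * c := by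
    apply k1_not_la hη
    rw [add_sub_cancel_left]
    exact (dvd_pow_self la (by norm_num)).mul_right _
  have h5 : la ^ 3 * (η + la ^ 3 * c) = la ^ (2 * k) * (m' ^ 2 * Dd S.c S.T) := by
    refine hD.symm.trans (S.hD.trans ?_)
    rw [hm]
    ring
  have h6 := (JGL.D1b2_pow CUL.la_prime h4 h3 h5).1
  omega

/-- the primes of `T` -/
theorem T_dvd (F : Fac D) (S : Sq D) (h0 : D ≠ 0) {p : Eis} (hp : p ∈ S.T.erase r3) : p ∣ fL F := by
  have := CM27.eis_isDomain
  obtain ⟨u, hu, hP⟩ := CU.exists_primary (k1_T_la S hp)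
  obtain ⟨h1, h2⟩ := Finset.mem_erase.1 hp
  obtain ⟨h3, h4⟩ := S.adm.1 p h2
  obtain ⟨u', hu'⟩ := hu.exists_right_inv
  have h5 : Associated p (u * p) := by
    rw [mul_comm]
    exact (associated_mul_unit_right p u hu)
  have h6 : Prime (u * p) := h5.prime h3
  have hpD : u * p ∣ D := by
    refine h5.symm.dvd.trans ?_
    rw [S.hD]
    unfold Dd
    exact ((Finset.dvd_prod_of_mem (fun p => p) h2).mul_left _).mul_left _
  have h7 : u * p ∈ F.S := by
    by_contra h7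
    exact JGL.fac_not F h6 hP h7 hpD
  have h8 : u * p ∈ So F := by
    refine Finset.mem_erase.2 ⟨?_, h7⟩
    intro h8
    have h9 : p ∣ -2 := by
      rw [← h8]
      exact dvd_mul_left _ _
    exact Q3.not_dvd_two h3 h4 ((dvd_neg).1 h9)
  exact h5.dvd.trans ((dvd_fL F h6 hP).2 h8)

end J2D
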