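import Pool.Agent.J2D.K1

/-!
# [J2D-K2] the level

PROOF. `fL F = (1 or 9) ∏_{p ∈ So} p`. `goodL_iff`: `F.v = 3`, `F.i = 0`, `mn Ds = 0` iff `JG.GoodL D` (`D = λ³ (η' + λ³ c')`: exact power of `λ` (`JGL.fac_la`, `JGL.D1b2_pow`), `η ω ^ i Ds ≡ η' mod λ³`; modulo `3`: `i = 0`, `η' = η` (`Ds ≡ 1 mod 3`), `Ds = 1 + 3 (..)`, `λ³ ∣ Ds - 1` iff `mn Ds = 0`). `qL`: `q_zero` by definition; `q_pm`: `sl x = ± 1` if `la ∤ x`; if `r3 ∉ T` then `9 ∣ fL` (otherwise `GoodL`, `v = 3`, and the exponent of `λ` in `D = m² c ∏_T p` would be even, so `r3 ∈ T`), so `la ∤ x`.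
`T.erase r3 ⊆ So` up to associates: an odd prime `p ∈ T`, `p ≠ r3`, divides `D`, so its primary associate is in `So` (`JGL.fac_not`) and `p ∣ fL F`; so `ci p x = ± 1` for `x` coprime to `fL`, `ci` depends only on `x mod p` (`Q3.sy_congr`), multiplicative (`Q3.sy_mul` or `Q3L.c2_mul` and `ci_c2`). `q_om`: `Q3.sy_om`, `sl ω = 1` (`JGL.q1_sl_om`).
`kL`: `k_mul`, `k_per`: `co_mul`, `co_per` (`Sr ⊆ So`, `p ∣ fL`), `kl`: if `9 ∣ fL`: `kz_mul`, `kz_per9`; if `GoodL`: `kl = 1` (`kz_zero`). `k_om`: `co_om`, `kz_om`: `conj (zw (-(mn Ds + v2))) · zw (-mn Ds) = zw v2 = zw (1 - j)`. `k_non`: if `v2 ≢ 0 mod 3`: `k ω = zw v2 ≠ 1`. Otherwise if some `p ∈ Sr F`: CRT: `x ≡ 1` modulo the other primes and modulo `9`, `x` not a cube modulo `p` (`CU`: the cubic symbol is surjective, e.g. from `CUL.sum_cr` or `JL` lemmas), `kL x = conj (cr p x ^ E p) ≠ 1`.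
Otherwise `Sr F = ∅`, `3 ∣ v2`; `kl` is not trivial: if `Un F` then `D = η λ ^ v Ds`, `3 ∣ v`, all exponents divisible by `3`: `D` is a cube, excluded. If `3 ∤ v`: `x ≡ 1 + λ³ mod 9` (`mo = -1`, `mn = 0`); `3 ∣ v`, `i ≠ 0`: `x ≡ 4 mod 9` (`mn = 1`); `mn Ds ≠ 0`, `i = 0`, `3 ∣ v`: `x ≡ ω mod 9`, `≡ 1` modulo the primes. In the last three cases `¬ GoodL` so `9 ∣ fL`.
-/

set_option autoImplicit false

open NumberField IsDedekindDomain Filter Topology
open scoped Classical ComplexConjugate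

namespace J2D

open CM27 JZ
open CU (la eE)
open CUL (Nl ez DS Cont LV IsRep rp cr mn mo zw GalU)
open JGL (Fac sl)
open Q3 (Adm Dd Prim tt r3)
open Q3L (c2 sg cx fQ Dec)
open J2L

variable {D : Eis}

theorem k2_ci_mul {p : Eis} (hp : Prime p) (x y : Eis) : ci p (x * y) = ci p x * ci p y := by
  unfold ci
  by_cases h1 : p ∣ x
  · rw [if_pos h1, if_pos (h1.mul_right y), zero_mul]
  by_cases h2 : p ∣ y
  · rw [if_pos h2, if_pos (h2.mul_left x), mul_zero]
  have h3 : ¬ p ∣ x * y := fun h => (hp.dvd_or_dvd h).elim h1 h2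
  rw [if_neg h1, if_neg h2, if_neg h3, Q3.sy_mul hp h1 h2]
  rcases Q3.sy_cases x p with hx | hx <;> rcases Q3.sy_cases y p with hy | hy <;> rw [hx, hy] <;> decide

theorem k2_ci_congr {p x y : Eis} (h : p ∣ x - y) : ci p x = ci p y := by
  unfold ci
  have h1 : p ∣ x ↔ p ∣ y := by
    constructor
    · intro h2
      have h3 : y = x - (x - y) := by ring
      rw [h3]
      exact dvd_sub h2 h
    · intro h2
      have h3 : x = (x - y) + y := by ring
      rw [h3]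
      exact dvd_add h h2
  rw [Q3.sy_congr h]
  by_cases h2 : p ∣ x
  · rw [if_pos h2, if_pos (h1.1 h2)]
  · rw [if_neg h2, if_neg (fun h3 => h2 (h1.2 h3))]

theorem k2_ci_pm {p x : Eis} (h : ¬ p ∣ x) : ci p x = 1 ∨ ci p x = -1 := by
  unfold ci
  rw [if_neg h]
  split_ifs
  · exact Or.inl rfl
  · exact Or.inr rfl

theorem k2_ci_om {p : Eis} (hp : Prime p) : ci p CU.om = 1 := by
  have h1 : ¬ p ∣ CU.om := fun h => hp.not_isUnit (isUnit_of_dvd_unit h CU.om_unit)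
  have h2 : Q3.sy CU.om p = 0 := Q3.sy_om p
  unfold ci
  rw [if_neg h1, if_pos h2]

theorem k2_sl_congr {x y : Eis} (h : la ∣ x - y) : sl x = sl y := by
  rw [JGL.q1_sl, JGL.q1_sl]
  rw [CUL.la_dvd_iff, QuadraticAlgebra.re_sub, QuadraticAlgebra.im_sub] at h
  have h1 : (x.re + x.im) % 3 = (y.re + y.im) % 3 := by omega
  rw [h1]

theorem k2_cop_congr {f x y : Eis} (h : f ∣ x - y) : IsCoprime x f ↔ IsCoprime y f := by
  obtain ⟨c, hc⟩ := h
  have h1 : x = y + f * c := by rw [← hc]; ring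
  rw [h1]
  exact IsCoprime.add_mul_left_left_iff

theorem k2_cop_dvd {f x p : Eis} (hp : Prime p) (h : IsCoprime x f) (hpf : p ∣ f) : ¬ p ∣ x :=
  fun h1 => hp.not_isUnit (h.isUnit_of_dvd' h1 hpf)

theorem k2_nine (F : Fac D) (h : ¬ JG.GoodL D) : (9 : Eis) ∣ fL F := by
  unfold fL
  rw [if_neg h]
  exact dvd_mul_right _ _

theorem k2_kl_good (F : Fac D) (h0 : D ≠ 0) (h : JG.GoodL D) (x : Eis) : kl F x = 1 := by
  obtain ⟨h1, h2, h3⟩ := (goodL_iff F h0).1 h
  unfold kl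
  rw [h1, h2, h3]
  have h4 : -((3 : ℕ) : ZMod 3) = 0 := by decide
  have h5 : ((0 : ℕ) : ZMod 3) = 0 := by decide
  rw [h4, h5, neg_zero]
  exact kz_zero x

theorem qL_mul (F : Fac D) (S : Sq D) (x y : Eis) : qL F S (x * y) = qL F S x * qL F S y := by
  unfold qL
  by_cases hx : IsCoprime x (fL F)
  · by_cases hy : IsCoprime y (fL F)
    · rw [if_pos hx, if_pos hy, if_pos (hx.mul_left hy)]
      have h1 : ∏ p ∈ S.T.erase r3, ci p (x * y) = (∏ p ∈ S.T.erase r3, ci p x) * ∏ p ∈ S.T.erase r3, ci p y := by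
        rw [← Finset.prod_mul_distrib]
        exact Finset.prod_congr rfl fun p hp => k2_ci_mul (S.adm.1 p (Finset.mem_of_mem_erase hp)).1 x y
      rw [h1, JGL.q1_sl_mul]
      split_ifs
      · ring
      · ring
    · rw [if_neg hy, if_neg (fun h => hy (IsCoprime.of_mul_left_right h)), mul_zero]
  · rw [if_neg hx, if_neg (fun h => hx (IsCoprime.of_mul_left_left h)), zero_mul]

theorem qL_per (F : Fac D) (S : Sq D) (h0 : D ≠ 0) {x y : Eis} (h : fL F ∣ x - y) : qL F S x = qL F S y := by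
  unfold qL
  have h1 := k2_cop_congr h
  by_cases hx : IsCoprime x (fL F)
  · rw [if_pos hx, if_pos (h1.1 hx)]
    have h2 : ∏ p ∈ S.T.erase r3, ci p x = ∏ p ∈ S.T.erase r3, ci p y :=
      Finset.prod_congr rfl fun p hp => k2_ci_congr ((T_dvd F S h0 hp).trans h)
    rw [h2]
    by_cases h3 : r3 ∈ S.T
    · rw [if_pos h3, if_pos h3]
    · rw [if_neg h3, if_neg h3, k2_sl_congr (((la_fL F).2 (fun h4 => h3 (r3_of_good F S h0 h4))).trans h)]
  · rw [if_neg hx, if_neg (fun h2 => hx (h1.2 h2))]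

theorem k2_pm_prod {ι : Type*} (s : Finset ι) (f : ι → ℤ) (h : ∀ i ∈ s, f i = 1 ∨ f i = -1) :
    ∏ i ∈ s, f i = 1 ∨ ∏ i ∈ s, f i = -1 := by
  induction s using Finset.induction_on with
  | empty => exact Or.inl Finset.prod_empty
  | insert a s ha ih =>
    rw [Finset.prod_insert ha]
    rcases h a (Finset.mem_insert_self a s) with h1 | h1 <;>
      rcases ih (fun i hi => h i (Finset.mem_insert_of_mem hi)) with h2 | h2 <;> rw [h1, h2] <;> decide

theorem qL_pm (F : Fac D) (S : Sq D) (h0 : D ≠ 0) {x : Eis} (h : IsCoprime x (fL F)) : qL F S x = 1 ∨ qL F S x = -1 := by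
  unfold qL
  rw [if_pos h]
  have h1 := k2_pm_prod (S.T.erase r3) (fun p => ci p x) fun p hp =>
    k2_ci_pm (k2_cop_dvd (S.adm.1 p (Finset.mem_of_mem_erase hp)).1 h (T_dvd F S h0 hp))
  by_cases h3 : r3 ∈ S.T
  · rw [if_pos h3, one_mul]
    exact h1
  · rw [if_neg h3]
    have h4 := JGL.q1_sl_pm (k2_cop_dvd CUL.la_prime h ((la_fL F).2 (fun h4 => h3 (r3_of_good F S h0 h4))))
    rcases h1 with h1 | h1 <;> rcases h4 with h4 | h4 <;> rw [h1, h4] <;> decide

theorem k2_om_cop (f : Eis) : IsCoprime CU.om f := by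
  refine ⟨CU.om ^ 2, 0, ?_⟩
  rw [zero_mul, add_zero]
  decide

theorem qL_om (F : Fac D) (S : Sq D) : qL F S CU.om = 1 := by
  unfold qL
  rw [if_pos (k2_om_cop _), JGL.q1_sl_om, ite_self, one_mul]
  exact Finset.prod_eq_one fun p hp => k2_ci_om (S.adm.1 p (Finset.mem_of_mem_erase hp)).1

theorem kL_mul (F : Fac D) (h0 : D ≠ 0) (x y : Eis) : kL F (x * y) = kL F x * kL F y := by
  unfold kL
  by_cases hx : IsCoprime x (fL F)
  · by_cases hy : IsCoprime y (fL F)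
    · rw [if_pos hx, if_pos hy, if_pos (hx.mul_left hy), co_mul, map_mul]
      have h1 : kl F (x * y) = kl F x * kl F y := by
        by_cases hg : JG.GoodL D
        · rw [k2_kl_good F h0 hg, k2_kl_good F h0 hg, k2_kl_good F h0 hg, one_mul]
        · have h2 := (la_fL F).2 hg
          exact kz_mul _ _ _ (k2_cop_dvd CUL.la_prime hx h2) (k2_cop_dvd CUL.la_prime hy h2)
      rw [h1]
      ring
    · rw [if_neg hy, if_neg (fun h => hy (IsCoprime.of_mul_left_right h)), mul_zero]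
  · rw [if_neg hx, if_neg (fun h => hx (IsCoprime.of_mul_left_left h)), zero_mul]

theorem kL_per (F : Fac D) (h0 : D ≠ 0) {x y : Eis} (h : fL F ∣ x - y) : kL F x = kL F y := by
  unfold kL
  have h1 := k2_cop_congr h
  by_cases hx : IsCoprime x (fL F)
  · rw [if_pos hx, if_pos (h1.1 hx)]
    have h2 : co F x = co F y := by
      apply co_per
      intro p hp
      have h3 : p ∈ So F := (Finset.mem_filter.1 hp).1
      obtain ⟨h4, h5, -⟩ := So_spec F h3
      exact ((dvd_fL F h4 h5).2 h3).trans h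
    rw [h2]
    have h3 : kl F x = kl F y := by
      by_cases hg : JG.GoodL D
      · rw [k2_kl_good F h0 hg, k2_kl_good F h0 hg]
      · exact kz_per9 _ _ _ (k2_cop_dvd CUL.la_prime hx ((la_fL F).2 hg)) ((k2_nine F hg).trans h)
    rw [h3]
  · rw [if_neg hx, if_neg (fun h2 => hx (h1.2 h2))]

theorem kL_om (F : Fac D) : kL F CU.om = zw (v2 F : ZMod 3) := by
  unfold kL
  rw [if_pos (k2_om_cop _), co_om]
  unfold kl
  rw [kz_om, CUL.zw_conj, ← CUL.zw_add]
  congr 1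
  ring

end J2D
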