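import Pool.Agent.J2D.C1

/-!
# [J2D-U2] the cubic character of `ℚ(ω, ∛D)`

`kpC F x = co F x * c2f F x * conj (kl F x)` for `x` prime to `gC F = gla F * (1 or 2) * ∏_{p ∈ Sr} p`.

PROOF. `kpC_mul`, `kpC_per`: `co_mul`, `co_per`; `c2f`: `cr (-2)` is multiplicative and depends on `x mod 2`; `kl`: if `Un F` then `kl = 1` (`kz_zero`: `-mn Ds = 0`, `-v = 0`, `i = 0` in `ZMod 3`); otherwise `la ∣ gla F`, so `la ∤ x`; `gla = λ ^ 4`: `kz_per9` (`9 ~ λ ^ 4`); `gla = λ³`: `v = 0` in `ZMod 3`: `kz_perL`; `gla = λ²`: `i = 0` too: `kz_per3`.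
`kpC_unit`: `kpC (-1) = 1`, `kpC ω = zw (-(mn Ds + v2)) · zw v2 · conj (zw (-mn Ds)) = 1` (`co_om`, `crm_om`, `kz_om`), `CUL.unit_cases`.
`kpC_prim`: `p m = gC F`. `p` divides `la`, `2` or some `q ∈ Sr` (up to a unit). (a) `p ~ q ∈ Sr`: `m` is `gC / q` up to a unit; CRT: `u ≡ 1 mod m`, `u mod q` not a cube (`exists_ncube`), `kpC u = cr q u ^ E q ≠ 1` (`3 ∤ E q`). (b) `p ~ 2`: `3 ∤ v2`; `u ≡ 1 mod m`, `u ≡ ω mod 2`: `kpC u = zw v2 ≠ 1`. (c) `p ~ la`, not `Un F`: `m = gla / λ · (..)`: `gla = λ ^ 4` (`3 ∤ v`): `u ≡ 1 + λ³ mod 9` (`mw = 0`, `mo = -1`, `mn = 0`, so `kl u = zw v ≠ 1`) and `u ≡ 1` modulo the rest;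
`gla = λ³` (`i = 1, 2`): `u ≡ 4 mod 9` (`mn = 1`, `kl u = zw i ≠ 1`), `λ² ∣ 3 ∣ u - 1`; `gla = λ²` (`i = 0`, `3 ∣ v`, `mn Ds ≠ 0`): `u ≡ ω mod 9`, `λ ∣ ω - 1`, `kl u = zw (-mn Ds) ≠ 1`; in all cases `co F u = 1`, `c2f F u = 1` because `u ≡ 1` modulo the `q` and `2` (if `3 ∤ v2`).
`kpC_non`: `gC F` is not a unit (if it is: `Un F`, `3 ∣ v2`, `Sr F = ∅`, so `D` is a cube, as in `kL_non`), so it has a prime factor, `kpC_prim`.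
`kpC_ram`: `D = p ^ n c`, `p` prime, `p ∤ 3`. `p` is a unit times a primary prime `p'` (`p' = -2` or odd), `D = p' ^ n c'`, `c' = c · unit ^ n`. `n = E p'` resp. `v2` (exact powers; `n = 0` if `p' ∉ S`). `p ∣ gC` iff `3 ∤ n`. If `3 ∣ n`: `kpC p = kpC p' = cr p' c'` (`co_recip`, `kz_prim`), `unit ^ n = ± 1`, and `cr p' c' = 1` iff `c'` is a cube modulo `p'` (`CU`/`CUL`: `cr_eq_one_iff` or `CU.sy_eq_zero_iff`; for `p' = -2`: `(O/2)* = {1, ω, ω²}`: `c ≡ y³` iff `c ≡ 1 mod 2`).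
`kpC_ramL`: `D = λ ^ n c`: `n = F.v`, `c = η ω ^ i Ds` (exact power). `λ ∣ gC` iff not `Un F`. `λ³ ∣ c - η'` iff `η' = η`, `i = 0`, `mn Ds = 0`. Then `kpC λ = co F λ c2f F λ = zw (mo Ds + v2) zw (-v2)` if `3 ∤ v2` (`co_la`, `crm_la`), `= zw (mo Ds + v2) = zw (mo Ds)` if `3 ∣ v2`; `= 1` iff `mo Ds = 0` iff (with `mn Ds = 0`) `9 ∣ Ds - 1` iff `λ ^ 4 ∣ c - η`.
-/

set_option autoImplicit false

open NumberField IsDedekindDomain Filter Topology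
open scoped Classical ComplexConjugate

namespace J2D

open CM27 JZ
open CU (la eE)
open CUL (Nl ez DS Cont LV IsRep rp cr mn mo zw GalU)
open JGL (Fac sl)
open Q3 (Adm Dd Prim tt r3)
open Q3L (c2 sg cx fQ Dec)
open J2L

variable {D : Eis}

theorem exists_ncube {p : Eis} (hp : Prime p) (hP : Primary p) : ∃ u : Eis, ¬ p ∣ u ∧ cr p u = zw 1 := by
  obtain ⟨u, hu, h⟩ := CUL.sy_exists hp hP
  exact ⟨u, hu, by rw [cr, if_neg hu, h]⟩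

end J2D
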