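import Pool.Agent.J2D.K2
import Pool.Agent.J2D.U2

/-!
# [J2D-K3] the level

PROOF. `fL F = (1 or 9) ∏_{p ∈ So} p`. `goodL_iff`: `F.v = 3`, `F.i = 0`, `mn Ds = 0` iff `JG.GoodL D` (`D = λ³ (η' + λ³ c')`: exact power of `λ` (`JGL.fac_la`, `JGL.D1b2_pow`), `η ω ^ i Ds ≡ η' mod λ³`; modulo `3`: `i = 0`, `η' = η` (`Ds ≡ 1 mod 3`), `Ds = 1 + 3 (..)`, `λ³ ∣ Ds - 1` iff `mn Ds = 0`). `qL`: `q_zero` by definition; `q_pm`: `sl x = ± 1` if `la ∤ x`; if `r3 ∉ T` then `9 ∣ fL` (otherwise `GoodL`, `v = 3`, and the exponent of `λ` in `D = m² c ∏_T p` would be even, so `r3 ∈ T`), so `la ∤ x`.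
`T.erase r3 ⊆ So` up to associates: an odd prime `p ∈ T`, `p ≠ r3`, divides `D`, so its primary associate is in `So` (`JGL.fac_not`) and `p ∣ fL F`; so `ci p x = ± 1` for `x` coprime to `fL`, `ci` depends only on `x mod p` (`Q3.sy_congr`), multiplicative (`Q3.sy_mul` or `Q3L.c2_mul` and `ci_c2`). `q_om`: `Q3.sy_om`, `sl ω = 1` (`JGL.q1_sl_om`).
`kL`: `k_mul`, `k_per`: `co_mul`, `co_per` (`Sr ⊆ So`, `p ∣ fL`), `kl`: if `9 ∣ fL`: `kz_mul`, `kz_per9`; if `GoodL`: `kl = 1` (`kz_zero`). `k_om`: `co_om`, `kz_om`: `conj (zw (-(mn Ds + v2))) · zw (-mn Ds) = zw v2 = zw (1 - j)`. `k_non`: if `v2 ≢ 0 mod 3`: `k ω = zw v2 ≠ 1`. Otherwise if some `p ∈ Sr F`: CRT: `x ≡ 1` modulo the other primes and modulo `9`, `x` not a cube modulo `p` (`CU`: the cubic symbol is surjective, e.g. from `CUL.sum_cr` or `JL` lemmas), `kL x = conj (cr p x ^ E p) ≠ 1`.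
Otherwise `Sr F = ∅`, `3 ∣ v2`; `kl` is not trivial: if `Un F` then `D = η λ ^ v Ds`, `3 ∣ v`, all exponents divisible by `3`: `D` is a cube, excluded. If `3 ∤ v`: `x ≡ 1 + λ³ mod 9` (`mo = -1`, `mn = 0`); `3 ∣ v`, `i ≠ 0`: `x ≡ 4 mod 9` (`mn = 1`); `mn Ds ≠ 0`, `i = 0`, `3 ∣ v`: `x ≡ ω mod 9`, `≡ 1` modulo the primes. In the last three cases `¬ GoodL` so `9 ∣ fL`.
-/

set_option autoImplicit false

open NumberField IsDedekindDomain Filter Topology
open scoped Classical ComplexConjugate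

namespace J2D

open CM27 JZ
open CU (la eE)
open CUL (Nl ez DS Cont LV IsRep rp cr mn mo zw GalU)
open JGL (Fac sl)
open Q3 (Adm Dd Prim tt r3)
open Q3L (c2 sg cx fQ Dec)
open J2L

variable {D : Eis}

theorem k3_crt {A B : Eis} (h : IsCoprime A B) (a b : Eis) : ∃ x : Eis, A ∣ x - a ∧ B ∣ x - b := by
  obtain ⟨u, v, h1⟩ := h
  refine ⟨b * (u * A) + a * (v * B), ⟨(b - a) * u, ?_⟩, ⟨(a - b) * v, ?_⟩⟩
  · linear_combination a * h1
  · linear_combination b * h1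

theorem k3_la9 : la ∣ (9 : Eis) := by
  rw [CUL.la_dvd_iff]
  decide

theorem k3_nine : (9 : Eis) = la ^ 4 * CU.om := by decide

theorem k3_cop9 {x : Eis} (h : ¬ la ∣ x) : IsCoprime x 9 := by
  have hdom := CM27.eis_isDomain
  have hpid := CM27.eis_pid
  rw [k3_nine]
  refine IsCoprime.mul_right ?_ ?_
  · exact (((CUL.la_prime.irreducible.coprime_iff_not_dvd).2 h).symm).pow_right
  · obtain ⟨v, hv⟩ := CU.om_unit.exists_left_inv
    exact ⟨0, v, by rw [hv, zero_mul, zero_add]⟩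

theorem k3_cop (F : Fac D) {x : Eis} (h1 : ¬ la ∣ x) (h2 : ∀ p ∈ So F, ¬ p ∣ x) : IsCoprime x (fL F) := by
  have hdom := CM27.eis_isDomain
  have hpid := CM27.eis_pid
  unfold fL
  refine IsCoprime.mul_right ?_ (IsCoprime.prod_right fun p hp => ?_)
  · split_ifs
    · exact isCoprime_one_right
    · exact k3_cop9 h1
  · exact ((So_spec F hp).1.irreducible.coprime_iff_not_dvd.2 (h2 p hp)).symm

theorem k3_nla {x y : Eis} (h : 9 ∣ x - y) (hy : ¬ la ∣ y) : ¬ la ∣ x := by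
  intro h1
  apply hy
  have h2 : la ∣ x - y := k3_la9.trans h
  exact (dvd_sub_right h1).1 h2

/-- a target value modulo `9` -/
theorem k3_tgt (F : Fac D) (hS : Sr F = ∅) {y : Eis} (hy : ¬ la ∣ y) (hne : kl F y ≠ 1) : ∃ x, IsCoprime x (fL F) ∧ kL F x ≠ 1 := by
  have hdom := CM27.eis_isDomain
  have hpid := CM27.eis_pid
  have hc : IsCoprime (9 : Eis) (∏ p ∈ So F, p) := by
    refine IsCoprime.prod_right fun p hp => ?_
    obtain ⟨h1, h2, -, h3, -⟩ := So_spec F hp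
    refine (k3_cop9 fun h4 => ?_).symm
    exact CUL.la_prime.not_isUnit ((CUL.cop_la h2).symm.isUnit_of_dvd' dvd_rfl h4)
  obtain ⟨x, h1, h2⟩ := k3_crt hc y 1
  have hx := k3_nla h1 hy
  have hcop : IsCoprime x (fL F) := by
    refine k3_cop F hx fun p hp h3 => ?_
    have h4 : p ∣ x - 1 := (Finset.dvd_prod_of_mem _ hp).trans h2
    exact (So_spec F hp).1.not_isUnit (isUnit_of_dvd_one ((dvd_sub_right h3).1 h4))
  refine ⟨x, hcop, ?_⟩
  have h3 : co F x = 1 := by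
    unfold co
    rw [hS, Finset.prod_empty]
  have h4 : kl F x = kl F y := kz_per9 _ _ _ hx h1
  unfold kL
  rw [if_pos hcop, h3, h4, map_one, one_mul]
  exact hne

/-- a ramified prime -/
theorem k3_ram (F : Fac D) {p : Eis} (hp : p ∈ Sr F) : ∃ x, IsCoprime x (fL F) ∧ kL F x ≠ 1 := by
  have hdom := CM27.eis_isDomain
  have hpid := CM27.eis_pid
  obtain ⟨hpo, hE⟩ := Finset.mem_filter.1 hp
  obtain ⟨g1, g2, g3, g4, -⟩ := So_spec F hpo
  obtain ⟨u, hu, hcu⟩ := exists_ncube g1 g2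
  have hlp : ¬ la ∣ p := fun h4 => CUL.la_prime.not_isUnit ((CUL.cop_la g2).symm.isUnit_of_dvd' dvd_rfl h4)
  have hc : IsCoprime p (9 * ∏ q ∈ (So F).erase p, q) := by
    refine IsCoprime.mul_right (k3_cop9 hlp) (IsCoprime.prod_right fun q hq => ?_)
    obtain ⟨hne, hq'⟩ := Finset.mem_erase.1 hq
    obtain ⟨k1, k2, -⟩ := So_spec F hq'
    refine (g1.irreducible.coprime_iff_not_dvd).2 fun h => hne ?_
    exact (CUL.primary_assoc g2 k2 (g1.associated_of_dvd k1 h)).symm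
  obtain ⟨x, h1, h2⟩ := k3_crt hc u 1
  have h9 : 9 ∣ x - 1 := (dvd_mul_right _ _).trans h2
  have hq1 : ∀ q ∈ So F, q ≠ p → q ∣ x - 1 := fun q hq hne =>
    ((Finset.dvd_prod_of_mem _ (Finset.mem_erase.2 ⟨hne, hq⟩)).trans (dvd_mul_left _ _)).trans h2
  have hla1 : ¬ la ∣ (1 : Eis) := fun h => CUL.la_prime.not_isUnit (isUnit_of_dvd_one h)
  have hx := k3_nla h9 hla1
  have hcop : IsCoprime x (fL F) := by
    refine k3_cop F hx fun q hq h3 => ?_
    by_cases hqp : q = p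
    · rw [hqp] at h3
      exact hu ((dvd_sub_right h3).1 h1)
    · exact (So_spec F hq).1.not_isUnit (isUnit_of_dvd_one ((dvd_sub_right h3).1 (hq1 q hq hqp)))
  refine ⟨x, hcop, ?_⟩
  have h3 : co F x = zw (F.E p : ZMod 3) := by
    unfold co
    rw [Finset.prod_eq_single_of_mem p hp]
    · rw [CUL.cr_congr g1 g2 h1, hcu, CUL.zw_pow, mul_one]
    · intro q hq hne
      have hq' := (Finset.mem_filter.1 hq).1
      obtain ⟨k1, k2, -⟩ := So_spec F hq'
      rw [CUL.cr_congr k1 k2 (hq1 q hq' hne), CUL.cr_one k1 k2, one_pow]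
  have h4 : kl F x = 1 := by
    have h5 : kl F x = kl F 1 := kz_per9 _ _ _ hx h9
    rw [h5]
    exact kz_one _ _ _
  unfold kL
  rw [if_pos hcop, h3, h4, mul_one, CUL.zw_conj]
  intro h5
  have h6 := CUL.zw_inj (h5.trans CUL.zw_zero.symm)
  rw [neg_eq_zero] at h6
  exact hE ((ZMod.natCast_eq_zero_iff _ _).1 h6)

/-- the cube -/
theorem k3_cube (F : Fac D) (hS : Sr F = ∅) (hv : 3 ∣ v2 F) (hU : Un F) : ∃ x : Eis, x ^ 3 = D := by
  have hdom := CM27.eis_isDomain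
  obtain ⟨⟨k, hk⟩, hi, -⟩ := hU
  obtain ⟨m, hm⟩ := hv
  have hE : ∀ p ∈ So F, 3 ∣ F.E p := by
    intro p hp
    by_contra h
    have h1 : p ∈ Sr F := Finset.mem_filter.2 ⟨hp, h⟩
    rw [hS] at h1
    exact absurd h1 (Finset.notMem_empty p)
  have h2 := F.hE2
  have hE2 : F.E (-2) = 3 * m + 2 := by
    unfold v2 at hm
    omega
  have h3 : (∏ p ∈ So F, p ^ F.E p : Eis) = (∏ p ∈ So F, p ^ (F.E p / 3)) ^ 3 := by
    rw [← Finset.prod_pow]
    refine Finset.prod_congr rfl fun p hp => ?_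
    rw [← pow_mul, Nat.div_mul_cancel (hE p hp)]
  have h4 : 4 * F.Ds = (-2) ^ (3 * m + 2) * (∏ p ∈ So F, p ^ (F.E p / 3)) ^ 3 := by
    rw [← h3, ← hE2, F.h4]
    exact (Finset.mul_prod_erase F.S (fun p => p ^ F.E p) F.h2).symm
  have h5 : F.Ds = ((-2) ^ m * ∏ p ∈ So F, p ^ (F.E p / 3)) ^ 3 := by
    have h6 : (4 : Eis) ≠ 0 := by decide
    apply mul_left_cancel₀ h6
    rw [h4, mul_pow, pow_add, ← pow_mul (-2 : Eis) m 3, mul_comm m 3]
    ring
  have h7 : F.η ^ 3 = F.η := by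
    rcases F.hη with h | h
    · rw [h, one_pow]
    · rw [h]
      ring
  refine ⟨F.η * la ^ k * ((-2) ^ m * ∏ p ∈ So F, p ^ (F.E p / 3)), ?_⟩
  rw [mul_pow, mul_pow, ← h5, h7, ← pow_mul, mul_comm k 3, ← hk]
  have h8 := F.hD
  rw [hi, pow_zero, mul_one] at h8
  exact h8.symm

theorem kL_non (F : Fac D) (h0 : D ≠ 0) (hc : ¬ ∃ x : Eis, x ^ 3 = D) : ∃ x, IsCoprime x (fL F) ∧ kL F x ≠ 1 := by
  have hdom := CM27.eis_isDomain
  by_cases hv : ((v2 F : ℕ) : ZMod 3) = 0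
  swap
  · refine ⟨CU.om, ?_, ?_⟩
    · obtain ⟨v, hv'⟩ := CU.om_unit.exists_left_inv
      exact ⟨v, 0, by rw [hv', zero_mul, add_zero]⟩
    · rw [kL_om]
      intro h
      exact hv (CUL.zw_inj (h.trans CUL.zw_zero.symm))
  by_cases hS : Sr F = ∅
  swap
  · obtain ⟨p, hp⟩ := Finset.nonempty_iff_ne_empty.2 hS
    exact k3_ram F hp
  have hU : ¬ Un F := fun h => hc (k3_cube F hS ((ZMod.natCast_eq_zero_iff _ _).1 hv) h)
  have hprim : ∀ y : Eis, Primary y → kl F y = zw (-(F.v : ZMod 3) * mo y + (F.i : ZMod 3) * mn y) := by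
    intro y hy
    unfold kl
    rw [kz_prim _ _ _ hy]
    rfl
  by_cases h3 : 3 ∣ F.v
  · have hv0 : ((F.v : ℕ) : ZMod 3) = 0 := (ZMod.natCast_eq_zero_iff _ _).2 h3
    by_cases hi : F.i = 0
    · have hm : mn F.Ds ≠ 0 := fun h => hU ⟨h3, hi, h⟩
      refine k3_tgt F hS (y := CU.om) ?_ ?_
      · intro h
        exact CUL.la_prime.not_isUnit (isUnit_of_dvd_unit h CU.om_unit)
      · unfold kl
        rw [kz_om]
        intro h
        have h1 := CUL.zw_inj (h.trans CUL.zw_zero.symm)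
        rw [neg_eq_zero] at h1
        exact hm h1
    · have hy : Primary (4 : Eis) := ⟨1, by decide⟩
      refine k3_tgt F hS (y := 4) ?_ ?_
      · rw [CUL.la_dvd_iff]
        decide
      · rw [hprim 4 hy, hv0, neg_zero, zero_mul, zero_add]
        have h1 : mn (4 : Eis) = 1 := by decide
        rw [h1, mul_one]
        intro h
        have h2 := CUL.zw_inj (h.trans CUL.zw_zero.symm)
        have h4 := (ZMod.natCast_eq_zero_iff _ _).1 h2
        have h5 := F.hi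
        omega
  · have hy : Primary (1 + la ^ 3) := ⟨-(CU.om * la), by decide⟩
    refine k3_tgt F hS (y := 1 + la ^ 3) ?_ ?_
    · rw [CUL.la_dvd_iff]
      decide
    · rw [hprim _ hy]
      have h1 : mn (1 + la ^ 3) = 0 := by decide
      have h2 : mo (1 + la ^ 3) = -1 := by decide
      rw [h1, h2, mul_zero, add_zero, neg_mul, mul_neg, mul_one, neg_neg]
      intro h
      exact h3 ((ZMod.natCast_eq_zero_iff _ _).1 (CUL.zw_inj (h.trans CUL.zw_zero.symm)))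

end J2D
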