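import Pool.Agent.J2D.Defs

/-!
# [J2D-P] the primary associate and the part at `λ`

PROOF. All by coordinates modulo `3` and `9`. `la ∣ x` iff `3 ∣ x.re + x.im` (`CUL.la_dvd_iff`); `Primary b` iff `3 ∣ b.re - 1`, `3 ∣ b.im` (`JL`: `primary_iff`). `pb_spec`: `x` prime to `λ` is congruent to one of `± 1, ± ω, ± ω²` modulo `3`; three cases of `mw`, two of the sign. `pb_unique`: `x = s ω ^ m b` modulo `3` gives `mw x = m` (`m mod 3`; `CU.om ^ 3 = 1`), `pa x = s b` up to nothing, `(s b).re % 3 = 1` iff `s = 1`. `kz_mul`: decompose both factors, `pb_unique`, `CUL.zw_add`, `CUL.x1_mn_mul`, `CUL.tx1_mo_mul`.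
`kz_per9`: `x ≡ y mod 9` gives the same `mw`, `pa x ≡ pa y mod 9`, `pb x ≡ pb y mod 9`; `CUL.tx1_mo_congr`, `CUL.x1_mn_congr` (modulo `λ³`, which divides `9`). `kz_perL`, `kz_per3`: the same modulo `λ³` resp. `3` (`3 ∣ λ³`).
-/

set_option autoImplicit false

open NumberField IsDedekindDomain Filter Topology
open scoped Classical ComplexConjugate

namespace J2D

open CM27 JZ
open CU (la eE)
open CUL (Nl ez DS Cont LV IsRep rp cr mn mo zw GalU)
open JGL (Fac sl)
open Q3 (Adm Dd Prim tt r3)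
open Q3L (c2 sg cx fQ Dec)
open J2L

variable {D : Eis}

theorem P_om_re (x : Eis) : (CU.om * x).re = -x.im := by
  simp only [CU.om, QuadraticAlgebra.re_mul]
  ring

theorem P_om_im (x : Eis) : (CU.om * x).im = x.re - x.im := by
  simp only [CU.om, QuadraticAlgebra.im_mul]
  ring

theorem P_om2_re (x : Eis) : (CU.om ^ 2 * x).re = x.im - x.re := by
  rw [pow_two, mul_assoc, P_om_re, P_om_im]
  ring

theorem P_om2_im (x : Eis) : (CU.om ^ 2 * x).im = -x.re := by
  rw [pow_two, mul_assoc, P_om_im, P_om_re, P_om_im]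
  ring

theorem P_om3 : CU.om ^ 3 = (1 : Eis) := by decide

theorem P_mw_om (x : Eis) : CU.om ^ (mw x).val * pa x = x := by
  unfold mw pa
  by_cases h1 : (3 : ℤ) ∣ x.im
  · rw [if_pos h1, if_pos h1]
    change CU.om ^ 0 * x = x
    rw [pow_zero, one_mul]
  · rw [if_neg h1, if_neg h1]
    by_cases h2 : (3 : ℤ) ∣ x.re
    · rw [if_pos h2, if_pos h2]
      change CU.om ^ 1 * (CU.om ^ 2 * x) = x
      linear_combination x * P_om3
    · rw [if_neg h2, if_neg h2]
      change CU.om ^ 2 * (CU.om * x) = x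
      linear_combination x * P_om3

/-- coordinates of `pa x` modulo `3` -/
theorem P_pa {x : Eis} (h : ¬ la ∣ x) : (3 : ℤ) ∣ (pa x).im ∧ (3 : ℤ) ∣ (pa x).re - (x.re + x.im) := by
  rw [CUL.la_dvd_iff] at h
  unfold pa
  by_cases h1 : (3 : ℤ) ∣ x.im
  · rw [if_pos h1]
    exact ⟨h1, by omega⟩
  · rw [if_neg h1]
    by_cases h2 : (3 : ℤ) ∣ x.re
    · rw [if_pos h2, P_om2_re, P_om2_im]
      exact ⟨by omega, by omega⟩
    · rw [if_neg h2, P_om_re, P_om_im]
      have c1 : x.re % 3 = 1 ∨ x.re % 3 = 2 := by omega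
      have c2 : x.im % 3 = 1 ∨ x.im % 3 = 2 := by omega
      rcases c1 with c1 | c1 <;> rcases c2 with c2 | c2 <;> exact ⟨by omega, by omega⟩

theorem P_sl {x : Eis} (h : ¬ la ∣ x) : sl x = if (x.re + x.im) % 3 = 1 then 1 else -1 := by
  rw [CUL.la_dvd_iff] at h
  have e1 : (x - 1).re = x.re - 1 := by rw [QuadraticAlgebra.re_sub, QuadraticAlgebra.re_one]
  have e2 : (x - 1).im = x.im := by rw [QuadraticAlgebra.im_sub, QuadraticAlgebra.im_one, sub_zero]
  have e3 : (x + 1).re = x.re + 1 := by rw [QuadraticAlgebra.re_add, QuadraticAlgebra.re_one]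
  have e4 : (x + 1).im = x.im := by rw [QuadraticAlgebra.im_add, QuadraticAlgebra.im_one, add_zero]
  unfold sl
  by_cases h1 : (x.re + x.im) % 3 = 1
  · have h2 : la ∣ x - 1 := by
      rw [CUL.la_dvd_iff, e1, e2]
      omega
    rw [if_pos h2, if_pos h1]
  · have h2 : ¬ la ∣ x - 1 := by
      rw [CUL.la_dvd_iff, e1, e2]
      omega
    have h3 : la ∣ x + 1 := by
      rw [CUL.la_dvd_iff, e3, e4]
      omega
    rw [if_neg h2, if_pos h3, if_neg h1]

theorem pb_spec {x : Eis} (h : ¬ la ∣ x) : Primary (pb x) ∧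
    ∃ s : ℤ, (s = 1 ∨ s = -1) ∧ s = sl x ∧ x = (s : Eis) * CU.om ^ (mw x).val * pb x := by
  obtain ⟨h1, h2⟩ := P_pa h
  have h3 := P_sl h
  have h4 := P_mw_om x
  rw [CUL.la_dvd_iff] at h
  unfold pb
  by_cases h5 : (pa x).re % 3 = 1
  · rw [if_pos h5]
    have h6 : (x.re + x.im) % 3 = 1 := by omega
    rw [if_pos h6] at h3
    refine ⟨(primary_iff _).2 ⟨by omega, by omega⟩, 1, Or.inl rfl, h3.symm, ?_⟩
    rw [Int.cast_one, one_mul, h4]
  · rw [if_neg h5]
    have h6 : ¬ (x.re + x.im) % 3 = 1 := by omega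
    rw [if_neg h6] at h3
    refine ⟨(primary_iff _).2 ⟨?_, ?_⟩, -1, Or.inr rfl, h3.symm, ?_⟩
    · rw [QuadraticAlgebra.re_neg]
      omega
    · rw [QuadraticAlgebra.im_neg]
      omega
    · rw [Int.cast_neg, Int.cast_one]
      linear_combination -h4

theorem P_pow (m : ℕ) : CU.om ^ m = (CU.om ^ (m : ZMod 3).val : Eis) := by
  rw [ZMod.val_natCast]
  conv_lhs => rw [← Nat.div_add_mod m 3, pow_add, pow_mul, P_om3, one_pow, one_mul]

theorem P_zmod : ∀ k : ZMod 3, k = 0 ∨ k = 1 ∨ k = 2 := by decide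

theorem pb_unique {x b : Eis} {s : ℤ} {m : ℕ} (hs : s = 1 ∨ s = -1) (hb : Primary b)
    (h : x = (s : Eis) * CU.om ^ m * b) : mw x = (m : ZMod 3) ∧ pb x = b ∧ sl x = s ∧ ¬ la ∣ x := by
  rw [P_pow m] at h
  generalize (m : ZMod 3) = k at h
  obtain ⟨b1, b2⟩ := (primary_iff b).1 hb
  have key : mw x = k ∧ (x.re + x.im) % 3 = (if s = 1 then 1 else 2) ∧ pa x = (s : Eis) * b := by
    have hsb : ∀ y : Eis, ((s : Eis) * y).re = s * y.re ∧ ((s : Eis) * y).im = s * y.im := by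
      intro y
      rcases hs with rfl | rfl
      · rw [Int.cast_one, one_mul, one_mul, one_mul]
        exact ⟨rfl, rfl⟩
      · rw [Int.cast_neg, Int.cast_one, neg_one_mul, neg_one_mul, neg_one_mul]
        exact ⟨rfl, rfl⟩
    have hk : k = 0 ∨ k = 1 ∨ k = 2 := P_zmod k
    rcases hk with rfl | rfl | rfl
    · have e : x = (s : Eis) * b := by
        rw [h]
        change (s : Eis) * CU.om ^ 0 * b = _
        rw [pow_zero, mul_one]
      have e1 := (hsb b).1
      have e2 := (hsb b).2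
      rw [← e] at e1 e2
      unfold mw pa
      rcases hs with rfl | rfl
      · have c1 : (3 : ℤ) ∣ x.im := by omega
        rw [if_pos c1, if_pos c1, if_pos rfl]
        exact ⟨rfl, by omega, e⟩
      · have c1 : (3 : ℤ) ∣ x.im := by omega
        rw [if_pos c1, if_pos c1, if_neg (by norm_num)]
        exact ⟨rfl, by omega, e⟩
    · have e : x = (s : Eis) * (CU.om * b) := by
        rw [h]
        change (s : Eis) * CU.om ^ 1 * b = _
        rw [pow_one, mul_assoc]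
      have e1 := (hsb (CU.om * b)).1
      have e2 := (hsb (CU.om * b)).2
      rw [← e, P_om_re] at e1
      rw [← e, P_om_im] at e2
      have e3 : CU.om ^ 2 * x = (s : Eis) * b := by
        rw [e]
        linear_combination (s : Eis) * b * P_om3
      unfold mw pa
      rcases hs with rfl | rfl
      · have c1 : ¬ (3 : ℤ) ∣ x.im := by omega
        have c2 : (3 : ℤ) ∣ x.re := by omega
        rw [if_neg c1, if_neg c1, if_pos c2, if_pos c2, if_pos rfl]
        exact ⟨rfl, by omega, e3⟩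
      · have c1 : ¬ (3 : ℤ) ∣ x.im := by omega
        have c2 : (3 : ℤ) ∣ x.re := by omega
        rw [if_neg c1, if_neg c1, if_pos c2, if_pos c2, if_neg (by norm_num)]
        exact ⟨rfl, by omega, e3⟩
    · have e : x = (s : Eis) * (CU.om ^ 2 * b) := by
        rw [h]
        change (s : Eis) * CU.om ^ 2 * b = _
        rw [mul_assoc]
      have e1 := (hsb (CU.om ^ 2 * b)).1
      have e2 := (hsb (CU.om ^ 2 * b)).2
      rw [← e, P_om2_re] at e1
      rw [← e, P_om2_im] at e2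
      have e3 : CU.om * x = (s : Eis) * b := by
        rw [e]
        linear_combination (s : Eis) * b * P_om3
      unfold mw pa
      rcases hs with rfl | rfl
      · have c1 : ¬ (3 : ℤ) ∣ x.im := by omega
        have c2 : ¬ (3 : ℤ) ∣ x.re := by omega
        rw [if_neg c1, if_neg c1, if_neg c2, if_neg c2, if_pos rfl]
        exact ⟨rfl, by omega, e3⟩
      · have c1 : ¬ (3 : ℤ) ∣ x.im := by omega
        have c2 : ¬ (3 : ℤ) ∣ x.re := by omega
        rw [if_neg c1, if_neg c1, if_neg c2, if_neg c2, if_neg (by norm_num)]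
        exact ⟨rfl, by omega, e3⟩
  obtain ⟨k1, k2, k3⟩ := key
  have hla : ¬ la ∣ x := by
    rw [CUL.la_dvd_iff]
    split_ifs at k2 <;> omega
  refine ⟨k1, ?_, ?_, hla⟩
  · unfold pb
    rw [k3]
    rcases hs with rfl | rfl
    · rw [Int.cast_one, one_mul, if_pos (by omega)]
    · rw [Int.cast_neg, Int.cast_one, neg_one_mul, if_neg (by rw [QuadraticAlgebra.re_neg]; omega), neg_neg]
  · rw [P_sl hla]
    rcases hs with rfl | rfl
    · rw [if_pos rfl] at k2
      rw [if_pos k2]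
    · rw [if_neg (by norm_num)] at k2
      rw [if_neg (by omega)]

theorem kz_mul (l a i : ZMod 3) {x y : Eis} (hx : ¬ la ∣ x) (hy : ¬ la ∣ y) :
    kz l a i (x * y) = kz l a i x * kz l a i y := by
  obtain ⟨px, s, hs, -, ex⟩ := pb_spec hx
  obtain ⟨py, t, ht, -, ey⟩ := pb_spec hy
  have hst : s * t = 1 ∨ s * t = -1 := by
    rcases hs with rfl | rfl <;> rcases ht with rfl | rfl <;> norm_num
  have e : x * y = ((s * t : ℤ) : Eis) * CU.om ^ ((mw x).val + (mw y).val) * (pb x * pb y) := by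
    conv_lhs => rw [ex, ey]
    rw [Int.cast_mul, pow_add]
    ring
  obtain ⟨h1, h2, -, -⟩ := pb_unique hst (CUL.primary_mul px py) e
  unfold kz
  rw [h1, h2, CUL.x1_mn_mul px py, CUL.tx1_mo_mul px py, ← CUL.zw_add, Nat.cast_add, ZMod.natCast_zmod_val,
    ZMod.natCast_zmod_val]
  congr 1
  ring

theorem kz_prim (l a i : ZMod 3) {b : Eis} (hb : Primary b) : kz l a i b = JGL.ka a i b := by
  obtain ⟨h1, h2, -, -⟩ := pb_unique (x := b) (s := 1) (m := 0) (Or.inl rfl) hb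
    (by rw [Int.cast_one, pow_zero, one_mul, one_mul])
  unfold kz JGL.ka
  rw [h1, h2, Nat.cast_zero, mul_zero, zero_add]

theorem kz_one (l a i : ZMod 3) : kz l a i 1 = 1 := by
  rw [kz_prim l a i CUL.primary_one]
  unfold JGL.ka
  have h1 : mo (1 : Eis) = 0 := by decide
  have h2 : mn (1 : Eis) = 0 := by decide
  rw [h1, h2, mul_zero, mul_zero, add_zero, CUL.zw_zero]

theorem kz_om (l a i : ZMod 3) : kz l a i CU.om = zw l := by
  obtain ⟨h1, h2, -, -⟩ := pb_unique (x := CU.om) (s := 1) (m := 1) (Or.inl rfl) CUL.primary_one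
    (by rw [Int.cast_one, pow_one, one_mul, mul_one])
  unfold kz
  have h3 : mo (1 : Eis) = 0 := by decide
  have h4 : mn (1 : Eis) = 0 := by decide
  rw [h1, h2, h3, h4, mul_zero, mul_zero, add_zero, add_zero, Nat.cast_one, mul_one]

theorem kz_neg (l a i : ZMod 3) {x : Eis} (hx : ¬ la ∣ x) : kz l a i (-x) = kz l a i x := by
  obtain ⟨px, s, hs, -, ex⟩ := pb_spec hx
  have hst : -s = 1 ∨ -s = -1 := by
    rcases hs with rfl | rfl <;> norm_num
  have e : -x = ((-s : ℤ) : Eis) * CU.om ^ (mw x).val * pb x := by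
    conv_lhs => rw [ex]
    rw [Int.cast_neg]
    ring
  obtain ⟨h1, h2, -, -⟩ := pb_unique hst px e
  unfold kz
  rw [h1, h2, ZMod.natCast_zmod_val]

theorem kz_zero (x : Eis) : kz 0 0 0 x = 1 := by
  unfold kz
  rw [zero_mul, zero_mul, zero_mul, add_zero, add_zero, CUL.zw_zero]

theorem kz_zw (l a i : ZMod 3) (x : Eis) : ∃ k : ZMod 3, kz l a i x = zw k := ⟨_, rfl⟩

/-- congruence modulo a multiple `g` of `3` -/
theorem P_congr {g x y : Eis} (hg : (3 : Eis) ∣ g) (hx : ¬ la ∣ x) (h : g ∣ x - y) :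
    mw x = mw y ∧ g ∣ pb x - pb y := by
  obtain ⟨c, hc⟩ := hg.trans h
  have e0 : (3 : Eis) = ⟨3, 0⟩ := by decide
  rw [e0] at hc
  have e1 := congrArg QuadraticAlgebra.re hc
  have e2 := congrArg QuadraticAlgebra.im hc
  simp only [QuadraticAlgebra.re_sub, QuadraticAlgebra.im_sub, QuadraticAlgebra.re_mul,
    QuadraticAlgebra.im_mul] at e1 e2
  have d1 : (3 : ℤ) ∣ x.re - y.re := ⟨c.re, by linarith⟩
  have d2 : (3 : ℤ) ∣ x.im - y.im := ⟨c.im, by linarith⟩
  have i1 : (3 : ℤ) ∣ x.im ↔ (3 : ℤ) ∣ y.im := by omega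
  have i2 : (3 : ℤ) ∣ x.re ↔ (3 : ℤ) ∣ y.re := by omega
  have hm : mw x = mw y := by
    unfold mw
    by_cases h1 : (3 : ℤ) ∣ x.im
    · rw [if_pos h1, if_pos (i1.1 h1)]
    · rw [if_neg h1, if_neg (fun hh => h1 (i1.2 hh))]
      by_cases h2 : (3 : ℤ) ∣ x.re
      · rw [if_pos h2, if_pos (i2.1 h2)]
      · rw [if_neg h2, if_neg (fun hh => h2 (i2.2 hh))]
  have hpa : g ∣ pa x - pa y := by
    unfold pa
    by_cases h1 : (3 : ℤ) ∣ x.im
    · rw [if_pos h1, if_pos (i1.1 h1)]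
      exact h
    · rw [if_neg h1, if_neg (fun hh => h1 (i1.2 hh))]
      by_cases h2 : (3 : ℤ) ∣ x.re
      · rw [if_pos h2, if_pos (i2.1 h2), ← mul_sub]
        exact h.mul_left _
      · rw [if_neg h2, if_neg (fun hh => h2 (i2.2 hh)), ← mul_sub]
        exact h.mul_left _
  have hy : ¬ la ∣ y := by
    rw [CUL.la_dvd_iff] at hx ⊢
    omega
  have p1 := P_pa hx
  have p2 := P_pa hy
  refine ⟨hm, ?_⟩
  unfold pb
  by_cases h5 : (pa x).re % 3 = 1
  · rw [if_pos h5, if_pos (by omega)]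
    exact hpa
  · rw [if_neg h5, if_neg (by omega)]
    have e : -pa x - -pa y = -(pa x - pa y) := by ring
    rw [e, dvd_neg]
    exact hpa

theorem kz_per9 (l a i : ZMod 3) {x y : Eis} (hx : ¬ la ∣ x) (h : 9 ∣ x - y) : kz l a i x = kz l a i y := by
  obtain ⟨h1, h2⟩ := P_congr ⟨3, by norm_num⟩ hx h
  have hp := (pb_spec hx).1
  unfold kz
  rw [h1, CUL.tx1_mo_congr hp h2, CUL.x1_mn_congr hp (CUL.tx1_la_nine.trans h2)]

theorem kz_perL (l i : ZMod 3) {x y : Eis} (hx : ¬ la ∣ x) (h : la ^ 3 ∣ x - y) : kz l 0 i x = kz l 0 i y := by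
  obtain ⟨h1, h2⟩ := P_congr CUL.x1_three_dvd hx h
  have hp := (pb_spec hx).1
  unfold kz
  rw [h1, CUL.x1_mn_congr hp h2, zero_mul, zero_mul]

theorem kz_per3 (l : ZMod 3) {x y : Eis} (hx : ¬ la ∣ x) (h : la ^ 2 ∣ x - y) : kz l 0 0 x = kz l 0 0 y := by
  have e : (3 : Eis) ∣ la ^ 2 := ⟨-CU.om, CUL.x1_la_sq⟩
  obtain ⟨h1, h2⟩ := P_congr e hx h
  unfold kz
  rw [h1, zero_mul, zero_mul, zero_mul, zero_mul]

end J2D
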