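import Pool.Agent.J2D.Q1
import Pool.Agent.JGL.D1b
import Pool.Agent.JGL.Q5

/-!
# [J2D-Q2] the quadratic characters

PROOF. `zd_exists`: `D₀` odd, so `D₀ ≡ ζ mod 2` for a cube root of unity `ζ` (`1, ω, ω²`); `D₀ = ζ (1 + 2 δ)` with `δ = (ζ² D₀ - 1) / 2`. `D = 2 ^ v2 D₀`: `JGL.fac_two`: `D = (-2) ^ v2 c`.
`q2_mul`, `q2_per`: `x = ± ω ^ k g` (`Q3L.exists_dec`, `Dec`), explicit: `x1 x ≡ 1 mod 2`, `x1 (x y) = x1 x x1 y`, `y1 (x y) ≡ y1 x + y1 y mod 2`, `s8` is multiplicative (norms modulo `8`), `sT` additive; `q2` depends only on `x mod 2 ^ n2`: `v` even, `δ` even: `q2 = 1` for all odd `x` (`n2 ≤ 1`); `v` even: `y1 x mod 2` depends on `x mod 4`; `v` odd: `x mod 8`. All by coordinates (`decide`-free: `omega` on residues, or a finite check on residues modulo `8`).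
`q2_id`: for `x = z g` (`Dec x z g`: `z` a unit, `g` with `g.re % 4 = 1`, `g.im % 2 = 0`), `D = m² c ∏_T p`. `sg (cx c g + (∑_T tt) tt g) · sg ((∑_T tt) e)`, `e = 0` for `z = ω ^ k`, `e = 1` for `z = - ω ^ k`, equals `q2 v δ x`. `v` is odd iff `c = ± 2` (parity: `Dd c T = c · odd`). `∏_T p ≡ 1` or `r3 mod 4` according to `∑_T tt = 0, 1` (`Q3L.prim_cases`, `Q3.tt_mul`, `Q3L.prim_prod`), odd squares are `≡ ω ^ k mod 4` (`JGL.q5_odd_sq`), so `1 + 2 δ ≡ ± 1` or `± r3 mod 4` (`+` for `c = 1, 2`): `δ ≡ [c < 0] + (∑ tt) ω mod 2`.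
`y1 x ≡ e + tt g ω mod 2`, `Tr(y δ) = e ∑tt + tt g [c < 0] + tt g ∑ tt`, `cx 1 = 0`, `cx (-1) g = tt g`, `cx 2 g = tt g + et g`, `cx (-2) g = et g`, `s8 g = sg (tt g + et g)` (`Q3L.tt_norm`, `Q3L.et_norm`).
`q_id`: `fQ c T g = sg (cx c g) ∏_T (sg (tt p tt g) c2 p g)`; `c2 p x = c2 p z c2 p g`, `c2 p z = sg (tt p e)`; `c2 r3 x = sl x` (`JGL.q1_c2_r3`), `sl x ^ 2 = 1`.
-/

set_option autoImplicit false

open NumberField IsDedekindDomain Filter Topology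
open scoped Classical ComplexConjugate

namespace J2D

open CM27 JZ
open CU (la eE)
open CUL (Nl ez DS Cont LV IsRep rp cr mn mo zw GalU)
open JGL (Fac sl)
open Q3 (Adm Dd Prim tt r3)
open Q3L (c2 sg cx fQ Dec)
open J2L

variable {D : Eis}

/-! ## auxiliary lemmas -/

theorem Q2a_two : Prime (2 : Eis) := Q3.prime_two

theorem Q2a_key (F : Fac D) (S : Sq D) {D₀ : Eis} (hD : D = 2 ^ v2 F * D₀) (h2 : ¬ (2 : Eis) ∣ D₀) :
    ∃ (m c' : Eis) (k i : ℕ), ¬ (2 : Eis) ∣ m ∧ D₀ = m ^ 2 * (c' * ∏ p ∈ S.T, p) ∧ v2 F = 2 * k + i ∧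
      ((S.c = 1 ∧ c' = 1 ∧ i = 0) ∨ (S.c = -1 ∧ c' = -1 ∧ i = 0) ∨ (S.c = 2 ∧ c' = 1 ∧ i = 1) ∨
        (S.c = -2 ∧ c' = -1 ∧ i = 1)) := by
  have hdom : IsDomain Eis := eis_isDomain
  have hpid : IsPrincipalIdealRing Eis := eis_pid
  obtain ⟨m', hm, hm'⟩ := (FiniteMultiplicity.of_not_isUnit Q2a_two.not_isUnit S.hm).exists_eq_pow_mul_and_not_dvd
  obtain ⟨k, hk⟩ : ∃ k, k = multiplicity (2 : Eis) S.m := ⟨_, rfl⟩
  rw [← hk] at hm
  have hP : ¬ (2 : Eis) ∣ ∏ p ∈ S.T, p :=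
    (Q3L.prim_prod S.T (fun p => p) fun p hp => (S.adm.1 p hp).2).not_two_dvd
  obtain ⟨c', i, hc, hcu, hci⟩ : ∃ (c' : Eis) (i : ℕ), S.c = 2 ^ i * c' ∧ IsUnit c' ∧
      ((S.c = 1 ∧ c' = 1 ∧ i = 0) ∨ (S.c = -1 ∧ c' = -1 ∧ i = 0) ∨ (S.c = 2 ∧ c' = 1 ∧ i = 1) ∨
        (S.c = -2 ∧ c' = -1 ∧ i = 1)) := by
    rcases S.adm.2 with h | h | h | h
    · exact ⟨1, 0, by rw [h]; norm_num, isUnit_one, Or.inl ⟨h, rfl, rfl⟩⟩
    · exact ⟨-1, 0, by rw [h]; norm_num, isUnit_one.neg, Or.inr (Or.inl ⟨h, rfl, rfl⟩)⟩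
    · exact ⟨1, 1, by rw [h]; norm_num, isUnit_one, Or.inr (Or.inr (Or.inl ⟨h, rfl, rfl⟩))⟩
    · exact ⟨-1, 1, by rw [h]; norm_num, isUnit_one.neg, Or.inr (Or.inr (Or.inr ⟨h, rfl, rfl⟩))⟩
  have hx : ¬ (2 : Eis) ∣ m' ^ 2 * (c' * ∏ p ∈ S.T, p) := by
    intro h
    rcases Q2a_two.dvd_or_dvd h with h | h
    · exact hm' (Q2a_two.dvd_of_dvd_pow h)
    · rcases Q2a_two.dvd_or_dvd h with h | h
      · exact Q2a_two.not_isUnit (isUnit_of_dvd_unit h hcu)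
      · exact hP h
  have h3 : (2 : Eis) ^ v2 F * D₀ = 2 ^ (2 * k + i) * (m' ^ 2 * (c' * ∏ p ∈ S.T, p)) := by
    rw [← hD]
    have h4 := S.hD
    rw [hm] at h4
    unfold Dd at h4
    rw [hc] at h4
    rw [pow_add, pow_mul']
    exact h4.trans (by ring)
  obtain ⟨h5, h6⟩ := JGL.D1b2_pow Q2a_two h2 hx h3
  exact ⟨m', c', k, i, hm', h6, h5, hci⟩

theorem Q2a_D0 (F : Fac D) : ∃ D₀ : Eis, D = 2 ^ v2 F * D₀ ∧ ¬ (2 : Eis) ∣ D₀ := by
  obtain ⟨c, h1, h2⟩ := JGL.fac_two F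
  refine ⟨(-1) ^ (F.E (-2) - 2) * c, ?_, ?_⟩
  · unfold v2
    rw [← mul_assoc, ← mul_pow]
    have h3 : (2 : Eis) * -1 = -2 := by norm_num
    rw [h3]
    exact h1
  · intro h
    rcases Q2a_two.dvd_or_dvd h with h | h
    · exact Q2a_two.not_isUnit (isUnit_of_dvd_unit h (isUnit_one.neg.pow _))
    · exact h2 ((neg_dvd).2 h)

theorem Q2a_x1 {u : Eis} (h : (2 : Eis) ∣ u - 1) (j : ℕ) : x1 (CU.om ^ j * u) = u := by
  obtain ⟨r, hr⟩ := h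
  have hu : u = 1 + 2 * r := by linear_combination hr
  have e3 : CU.om ^ 3 = 1 := CU.om_cube
  have hj : CU.om ^ j = CU.om ^ (j % 3) := by
    conv_lhs => rw [← Nat.div_add_mod j 3, pow_add, pow_mul, e3, one_pow, one_mul]
  rw [hj]
  have hlt : j % 3 < 3 := Nat.mod_lt _ (by norm_num)
  have n1 : ¬ (2 : Eis) ∣ CU.om - 1 := by
    rw [Q3L.two_dvd_iff]
    decide
  have n2 : ¬ (2 : Eis) ∣ CU.om ^ 2 - 1 := by
    rw [Q3L.two_dvd_iff]
    decide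
  have n3 : ¬ (2 : Eis) ∣ CU.om ^ 2 - CU.om := by
    rw [Q3L.two_dvd_iff]
    decide
  generalize j % 3 = i at hlt
  have hi : i = 0 ∨ i = 1 ∨ i = 2 := by omega
  unfold x1
  rcases hi with rfl | rfl | rfl
  · rw [pow_zero, one_mul, if_pos ⟨r, hr⟩]
  · rw [if_neg, if_pos]
    · linear_combination u * e3
    · exact ⟨CU.om * r, by rw [hu]; ring⟩
    · intro h1
      apply n1
      have h2 := dvd_sub h1 (Dvd.intro (CU.om * r) rfl : (2 : Eis) ∣ 2 * (CU.om * r))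
      have h3 : CU.om ^ 1 * u - 1 - 2 * (CU.om * r) = CU.om - 1 := by rw [hu]; ring
      rwa [h3] at h2
  · rw [if_neg, if_neg]
    · linear_combination u * e3
    · intro h1
      apply n3
      have h2 := dvd_sub h1 (Dvd.intro (CU.om ^ 2 * r) rfl : (2 : Eis) ∣ 2 * (CU.om ^ 2 * r))
      have h3 : CU.om ^ 2 * u - CU.om - 2 * (CU.om ^ 2 * r) = CU.om ^ 2 - CU.om := by rw [hu]; ring
      rwa [h3] at h2
    · intro h1
      apply n2
      have h2 := dvd_sub h1 (Dvd.intro (CU.om ^ 2 * r) rfl : (2 : Eis) ∣ 2 * (CU.om ^ 2 * r))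
      have h3 : CU.om ^ 2 * u - 1 - 2 * (CU.om ^ 2 * r) = CU.om ^ 2 - 1 := by rw [hu]; ring
      rwa [h3] at h2

theorem Q2a_norm_om (j : ℕ) (u : Eis) : (CU.om ^ j * u).norm = u.norm := by
  have h1 : (CU.om).norm = 1 := by decide
  rw [map_mul, map_pow, h1, one_pow, one_mul]

theorem Q2a_sT (z : Eis) : ((sT z : ℤ) : ℂ) = sg ((z.im : ℤ) : ZMod 2) := by
  unfold sT sg
  by_cases h : (2 : ℤ) ∣ z.im
  · rw [if_pos h, if_pos ((ZMod.intCast_zmod_eq_zero_iff_dvd z.im 2).2 h), Int.cast_one]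
  · rw [if_neg h, if_neg (fun h1 => h ((ZMod.intCast_zmod_eq_zero_iff_dvd z.im 2).1 h1))]
    norm_num

theorem Q2a_s8 {g : Eis} (hg : Prim g) : (((if g.norm % 8 = 1 ∨ g.norm % 8 = 7 then 1 else -1 : ℤ)) : ℂ) =
    sg (tt g + Q3L.et g) := by
  rw [← Q3L.tt_norm hg, ← Q3L.et_norm hg, ← Int.cast_add]
  have h1 := Q3L.k1_norm_odd hg.not_two_dvd
  have h2 : ((g.norm - 1) / 2 + g.norm / 4) % 2 = 0 ↔ (g.norm % 8 = 1 ∨ g.norm % 8 = 7) := by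
    generalize g.norm = n at h1 ⊢
    have h8 : n % 8 = 1 ∨ n % 8 = 3 ∨ n % 8 = 5 ∨ n % 8 = 7 := by omega
    rcases h8 with h8 | h8 | h8 | h8 <;> omega
  have h3 : (2 : ℤ) ∣ ((g.norm - 1) / 2 + g.norm / 4) ↔ (g.norm % 8 = 1 ∨ g.norm % 8 = 7) := by
    rw [← h2]
    exact Int.dvd_iff_emod_eq_zero
  unfold sg
  by_cases h : g.norm % 8 = 1 ∨ g.norm % 8 = 7
  · rw [if_pos h, if_pos ((ZMod.intCast_zmod_eq_zero_iff_dvd _ 2).2 (h3.2 h)), Int.cast_one]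
  · rw [if_neg h, if_neg (fun h4 => h (h3.1 ((ZMod.intCast_zmod_eq_zero_iff_dvd _ 2).1 h4)))]
    norm_num

/-- the unit: `z = ω ^ j` or `- ω ^ j`, with the exponent `e` of the sign -/
theorem Q2a_dec {x z g : Eis} (h : Dec x z g) {e : ZMod 2}
    (he : (e = 0 ∧ ∃ k : ℕ, z = CU.om ^ k) ∨ (e = 1 ∧ ∃ k : ℕ, z = -CU.om ^ k)) :
    (2 : Eis) ∣ (if e = 0 then g else -g) - 1 ∧ ∃ j : ℕ, x = CU.om ^ j * (if e = 0 then g else -g) := by
  have h1 : (2 : ℤ) ∣ g.re - 1 ∧ (2 : ℤ) ∣ g.im := by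
    have h2 := h.2.2.1
    have h3 := h.2.2.2
    omega
  rcases he with ⟨rfl, k, rfl⟩ | ⟨rfl, k, rfl⟩
  · rw [if_pos rfl]
    refine ⟨?_, k, h.1⟩
    rw [Q3L.two_dvd_iff, QuadraticAlgebra.re_sub, QuadraticAlgebra.im_sub, QuadraticAlgebra.re_one,
      QuadraticAlgebra.im_one]
    omega
  · rw [if_neg (by decide)]
    refine ⟨?_, k, ?_⟩
    · rw [Q3L.two_dvd_iff, QuadraticAlgebra.re_sub, QuadraticAlgebra.im_sub, QuadraticAlgebra.re_one,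
        QuadraticAlgebra.im_one, QuadraticAlgebra.re_neg, QuadraticAlgebra.im_neg]
      omega
    · rw [h.1]
      ring

theorem Q2a_odd {x z g : Eis} (h : Dec x z g) : ¬ (2 : Eis) ∣ x := by
  intro h1
  rw [h.1] at h1
  rcases Q2a_two.dvd_or_dvd h1 with h1 | h1
  · exact Q2a_two.not_isUnit (isUnit_of_dvd_unit h1 h.2.1)
  · exact h.2.2.not_two_dvd h1

/-- `y1 x` modulo `2` -/
theorem Q2a_y1 {x z g : Eis} (h : Dec x z g) {e : ZMod 2}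
    (he : (e = 0 ∧ ∃ k : ℕ, z = CU.om ^ k) ∨ (e = 1 ∧ ∃ k : ℕ, z = -CU.om ^ k)) :
    (((y1 x).re : ℤ) : ZMod 2) = e ∧ (((y1 x).im : ℤ) : ZMod 2) = tt g := by
  obtain ⟨h1, j, hj⟩ := Q2a_dec h he
  have h2 : x1 x = if e = 0 then g else -g := by
    rw [hj]
    exact Q2a_x1 h1 j
  have g1 := h.2.2.1
  have g2 := h.2.2.2
  have ht : tt g = (((g.im / 2 : ℤ)) : ZMod 2) := by
    unfold Q3.tt
    by_cases h3 : g.im % 4 = 0
    · rw [if_pos h3]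
      symm
      rw [ZMod.intCast_zmod_eq_zero_iff_dvd]
      push_cast
      omega
    · rw [if_neg h3]
      have h4 : ((1 : ℤ) : ZMod 2) = ((g.im / 2 : ℤ) : ZMod 2) := by
        rw [ZMod.intCast_eq_intCast_iff_dvd_sub]
        push_cast
        omega
      rw [← h4, Int.cast_one]
  unfold y1
  rw [h2, ht]
  have he2 : e = 0 ∨ e = 1 := by
    rcases he with ⟨h3, -⟩ | ⟨h3, -⟩
    · exact Or.inl h3
    · exact Or.inr h3
  rcases he2 with rfl | rfl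
  · rw [if_pos rfl]
    refine ⟨?_, rfl⟩
    show (((g.re / 2 : ℤ)) : ZMod 2) = 0
    rw [ZMod.intCast_zmod_eq_zero_iff_dvd]
    push_cast
    omega
  · rw [if_neg (by decide)]
    constructor
    · have h5 : (((-g.re) / 2 : ℤ) : ZMod 2) = ((1 : ℤ) : ZMod 2) := by
        rw [ZMod.intCast_eq_intCast_iff_dvd_sub]
        push_cast
        omega
      rw [Int.cast_one] at h5
      exact h5
    · have h5 : (((-g.im) / 2 : ℤ) : ZMod 2) = ((g.im / 2 : ℤ) : ZMod 2) := by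
        rw [ZMod.intCast_eq_intCast_iff_dvd_sub]
        push_cast
        omega
      exact h5

theorem Q2a_norm {x z g : Eis} (h : Dec x z g) {e : ZMod 2}
    (he : (e = 0 ∧ ∃ k : ℕ, z = CU.om ^ k) ∨ (e = 1 ∧ ∃ k : ℕ, z = -CU.om ^ k)) : x.norm = g.norm := by
  obtain ⟨h1, j, hj⟩ := Q2a_dec h he
  rw [hj, Q2a_norm_om]
  split_ifs
  · rfl
  · have h2 : (-1 : Eis).norm = 1 := by decide
    have h3 : -g = (-1) * g := by ring
    rw [h3, map_mul, h2, one_mul]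

/-- `z'` a cube root of unity, congruent to `1` modulo `2` -/
theorem Q2a_root {z : Eis} (h : z ^ 3 = 1) : z = 1 ∨ z = CU.om ∨ z = CU.om ^ 2 := by
  have hdom : IsDomain Eis := eis_isDomain
  have h1 : (z - 1) * ((z - CU.om) * (z - CU.om ^ 2)) = 0 := by
    have h2 : (1 : Eis) + CU.om + CU.om ^ 2 = 0 := by decide
    have h3 : CU.om ^ 3 = 1 := CU.om_cube
    linear_combination h + (-z ^ 2 + z * CU.om) * h2 - h3
  rcases mul_eq_zero.1 h1 with h2 | h2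
  · exact Or.inl (sub_eq_zero.1 h2)
  · rcases mul_eq_zero.1 h2 with h3 | h3
    · exact Or.inr (Or.inl (sub_eq_zero.1 h3))
    · exact Or.inr (Or.inr (sub_eq_zero.1 h3))

theorem Q2a_root_ne {z y : Eis} (hz : z = 1 ∨ z = CU.om ∨ z = CU.om ^ 2) (hy : y = 1 ∨ y = CU.om ∨ y = CU.om ^ 2)
    (h : (2 : Eis) ∣ z - y) : z = y := by
  rw [Q3L.two_dvd_iff] at h
  rcases hz with rfl | rfl | rfl <;> rcases hy with rfl | rfl | rfl <;> revert h <;> decide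

theorem Q2a_mod (z : ZMod 2) : z = 0 ∨ z = 1 := by
  revert z
  decide

/-- `∏_{p ∈ T} p` modulo `4` -/
theorem Q2a_prod {T : Finset Eis} (hT : ∀ p ∈ T, Prime p ∧ Prim p) :
    (4 : Eis) ∣ (∏ p ∈ T, p) - (1 + 2 * (if (∑ p ∈ T, tt p) = 0 then 0 else CU.om)) := by
  have hP : Prim (∏ p ∈ T, p) := Q3L.prim_prod T (fun p => p) fun p hp => (hT p hp).2
  have ht : tt (∏ p ∈ T, p) = ∑ p ∈ T, tt p := by
    clear hP
    induction T using Finset.induction_on with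
    | empty => rw [Finset.prod_empty, Finset.sum_empty, Q3L.tt_one]
    | insert a s ha ih =>
      have h1 : ∀ p ∈ s, Prime p ∧ Prim p := fun p hp => hT p (Finset.mem_insert_of_mem hp)
      rw [Finset.prod_insert ha, Finset.sum_insert ha,
        Q3.tt_mul (hT a (Finset.mem_insert_self a s)).2 (Q3L.prim_prod s (fun p => p) fun p hp => (h1 p hp).2), ih h1]
  rcases Q3L.prim_cases hP with ⟨h1, m, hm⟩ | ⟨h1, m, hm⟩
  · rw [if_pos (by rw [← ht]; exact h1), hm]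
    exact ⟨m, by ring⟩
  · rw [if_neg (by rw [← ht, h1]; decide), hm]
    refine ⟨m, ?_⟩
    have h2 : r3 = 1 + 2 * CU.om := by decide
    rw [h2]
    ring

/-- `δ` modulo `2` -/
theorem Q2a_delta (F : Fac D) (S : Sq D) (Z : Zd F) : ∃ n : ZMod 2,
    ((Z.δ.re : ℤ) : ZMod 2) = n ∧ ((Z.δ.im : ℤ) : ZMod 2) = ∑ p ∈ S.T, tt p ∧
    ∀ g : Eis, cx S.c g = (v2 F : ZMod 2) * (tt g + Q3L.et g) + tt g * n := by
  obtain ⟨m, c', k, i, hm, h1, h2, h3⟩ := Q2a_key F S Z.hD Z.hD₀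
  obtain ⟨y, hy, hmy⟩ := JGL.q5_odd_sq hm
  have hy' : y = 1 ∨ y = CU.om ∨ y = CU.om ^ 2 := by
    rcases hy with h | h | h
    · exact Or.inl h
    · exact Or.inr (Or.inr h)
    · exact Or.inr (Or.inl h)
  obtain ⟨t, ht⟩ : ∃ t : Eis, t = if (∑ p ∈ S.T, tt p) = 0 then 0 else CU.om := ⟨_, rfl⟩
  have h4 := Q2a_prod S.adm.1
  rw [← ht] at h4
  have hc : c' = 1 ∨ c' = -1 := by
    rcases h3 with h | h | h | h
    · exact Or.inl h.2.1
    · exact Or.inr h.2.1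
    · exact Or.inl h.2.1
    · exact Or.inr h.2.1
  have h5 : (4 : Eis) ∣ Z.ζ * (1 + 2 * Z.δ) - y * (c' * (1 + 2 * t)) := by
    obtain ⟨a, ha⟩ := Z.hδ
    obtain ⟨b, hb⟩ := hmy
    obtain ⟨d, hd⟩ := h4
    rw [h1] at ha
    refine ⟨-a + b * (c' * ∏ p ∈ S.T, p) + y * c' * d, ?_⟩
    linear_combination -ha + (c' * ∏ p ∈ S.T, p) * hb + y * c' * hd
  have h6 : Z.ζ = y := by
    apply Q2a_root_ne (Q2a_root Z.hζ) hy'
    obtain ⟨a, ha⟩ := h5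
    rcases hc with hc | hc <;> rw [hc] at ha
    · exact ⟨2 * a - Z.ζ * Z.δ + y * t, by linear_combination ha⟩
    · exact ⟨2 * a - Z.ζ * Z.δ - y * t - y, by linear_combination ha⟩
  have hyu : IsUnit y := by
    rcases hy' with h | h | h <;> rw [h]
    · exact isUnit_one
    · exact CU.om_unit
    · exact CU.om_unit.pow 2
  have h7 : (4 : Eis) ∣ (1 + 2 * Z.δ) - (c' * (1 + 2 * t)) := by
    rw [h6, ← mul_sub] at h5
    exact (hyu.dvd_mul_left).1 h5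
  have ht2 : ((t.re : ℤ) : ZMod 2) = 0 ∧ ((t.im : ℤ) : ZMod 2) = ∑ p ∈ S.T, tt p := by
    rcases Q2a_mod (∑ p ∈ S.T, tt p) with h | h
    · rw [h, if_pos rfl] at ht
      rw [ht, h]
      decide
    · rw [h, if_neg (by decide)] at ht
      rw [ht, h]
      decide
  have hom : IsDomain Eis := eis_isDomain
  have h20 : (2 : Eis) ≠ 0 := by decide
  have hv : ((v2 F : ℕ) : ZMod 2) = ((i : ℕ) : ZMod 2) := by
    rw [h2]
    push_cast
    have h21 : (2 : ZMod 2) = 0 := by decide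
    rw [h21, zero_mul, zero_add]
  have hcast : ∀ a b : ℤ, (2 : ℤ) ∣ a - b → ((a : ℤ) : ZMod 2) = ((b : ℤ) : ZMod 2) := by
    intro a b hab
    rw [ZMod.intCast_eq_intCast_iff_dvd_sub]
    push_cast
    omega
  have e1 : (-1 : Eis) ≠ 1 := by decide
  have e2 : (2 : Eis) ≠ 1 := by decide
  have e3 : (2 : Eis) ≠ -1 := by decide
  have e4 : (-2 : Eis) ≠ 1 := by decide
  have e5 : (-2 : Eis) ≠ -1 := by decide
  have e6 : (-2 : Eis) ≠ 2 := by decide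
  have e7 : (1 : Eis) ≠ -1 := by decide
  rcases hc with hc | hc
  · rw [hc] at h7
    have h8 : (2 : Eis) ∣ Z.δ - t := by
      obtain ⟨a, ha⟩ := h7
      exact ⟨a, mul_left_cancel₀ h20 (by linear_combination ha)⟩
    rw [Q3L.two_dvd_iff, QuadraticAlgebra.re_sub, QuadraticAlgebra.im_sub] at h8
    refine ⟨0, ?_, ?_, ?_⟩
    · rw [hcast _ _ h8.1]
      exact ht2.1
    · rw [hcast _ _ h8.2]
      exact ht2.2
    · intro g
      rw [mul_zero, add_zero, hv]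
      unfold cx
      rcases h3 with ⟨h, -, rfl⟩ | ⟨-, h, -⟩ | ⟨h, -, rfl⟩ | ⟨-, h, -⟩
      · rw [if_pos h, Nat.cast_zero, zero_mul]
      · exact absurd (hc.symm.trans h) e7
      · rw [h, if_neg e2, if_neg e3, if_pos rfl, Nat.cast_one, one_mul]
      · exact absurd (hc.symm.trans h) e7
  · rw [hc] at h7
    have h8 : (2 : Eis) ∣ Z.δ - (-1 - t) := by
      obtain ⟨a, ha⟩ := h7
      exact ⟨a, mul_left_cancel₀ h20 (by linear_combination ha)⟩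
    rw [Q3L.two_dvd_iff, QuadraticAlgebra.re_sub, QuadraticAlgebra.im_sub, QuadraticAlgebra.re_sub, QuadraticAlgebra.im_sub,
      QuadraticAlgebra.re_neg, QuadraticAlgebra.im_neg, QuadraticAlgebra.re_one, QuadraticAlgebra.im_one] at h8
    have hneg : ∀ z : ZMod 2, -z = z := by decide
    refine ⟨1, ?_, ?_, ?_⟩
    · rw [hcast _ _ h8.1]
      push_cast
      rw [ht2.1]
      decide
    · rw [hcast _ _ h8.2]
      push_cast
      rw [ht2.2, neg_zero, zero_sub, hneg]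
    · intro g
      rw [mul_one, hv]
      unfold cx
      have hadd : ∀ a b : ZMod 2, a + b + a = b := by decide
      rcases h3 with ⟨-, h, -⟩ | ⟨h, -, rfl⟩ | ⟨-, h, -⟩ | ⟨h, -, rfl⟩
      · exact absurd (h.symm.trans hc) e7
      · rw [h, if_neg e1, if_pos rfl, Nat.cast_zero, zero_mul, zero_add]
      · exact absurd (h.symm.trans hc) e7
      · rw [h, if_neg e4, if_neg e5, if_neg e6, Nat.cast_one, one_mul, hadd]

/-- `v₂(D)` is odd iff `c = ± 2` -/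
theorem sq_parity (F : Fac D) (S : Sq D) (h0 : D ≠ 0) : v2 F % 2 = 1 ↔ (S.c = 2 ∨ S.c = -2) := by
  obtain ⟨D₀, h1, h2⟩ := Q2a_D0 F
  obtain ⟨m, c', k, i, -, -, h3, h4⟩ := Q2a_key F S h1 h2
  rw [h3]
  have e1 : (1 : Eis) ≠ 2 := by decide
  have e2 : (1 : Eis) ≠ -2 := by decide
  have e3 : (-1 : Eis) ≠ 2 := by decide
  have e4 : (-1 : Eis) ≠ -2 := by decide
  rcases h4 with ⟨h5, -, rfl⟩ | ⟨h5, -, rfl⟩ | ⟨h5, -, rfl⟩ | ⟨h5, -, rfl⟩ <;> rw [h5]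
  · constructor
    · intro h
      omega
    · rintro (h | h)
      · exact absurd h e1
      · exact absurd h e2
  · constructor
    · intro h
      omega
    · rintro (h | h)
      · exact absurd h e3
      · exact absurd h e4
  · exact ⟨fun _ => Or.inl rfl, fun _ => by omega⟩
  · exact ⟨fun _ => Or.inr rfl, fun _ => by omega⟩

theorem q2_id (F : Fac D) (S : Sq D) (Z : Zd F) (h0 : D ≠ 0) {x z g : Eis} (h : Dec x z g) {e : ZMod 2}
    (he : (e = 0 ∧ ∃ k : ℕ, z = CU.om ^ k) ∨ (e = 1 ∧ ∃ k : ℕ, z = -CU.om ^ k)) :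
    ((q2 (v2 F) Z.δ x : ℤ) : ℂ) = sg (cx S.c g + (∑ p ∈ S.T, tt p) * tt g) * sg ((∑ p ∈ S.T, tt p) * e) := by
  obtain ⟨n, h1, h2, h3⟩ := Q2a_delta F S Z
  obtain ⟨h4, h5⟩ := Q2a_y1 h he
  have h6 : ((s8 x : ℤ) : ℂ) = sg (tt g + Q3L.et g) := by
    unfold s8
    rw [Q2a_norm h he]
    exact Q2a_s8 h.2.2
  unfold q2
  rw [if_neg (Q2a_odd h), Int.cast_mul, Int.cast_pow, h6, Q2a_sT, Q3L.sg_pow, h3 g, QuadraticAlgebra.im_mul]
  push_cast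
  rw [h4, h5, h1, h2, ← Q3L.sg_add, ← Q3L.sg_add]
  have h7 : ∀ v t s n e r : ZMod 2, v * (t + s) + (e * r + t * n + -1 * t * r) = v * (t + s) + t * n + r * t + r * e := by
    decide
  rw [h7]

/-- the quadratic symbol `(D / x)_2` -/
theorem q_id (F : Fac D) (S : Sq D) (Z : Zd F) (h0 : D ≠ 0) {x z g : Eis} (h : Dec x z g) (hx : IsCoprime x (fL F)) (hl : ¬ la ∣ x) :
    ((qL F S x : ℤ) : ℂ) * ((q2 (v2 F) Z.δ x : ℤ) : ℂ) = (sl x : ℂ) * fQ S.c S.T g := by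
  obtain ⟨e, he⟩ : ∃ e : ZMod 2, (e = 0 ∧ ∃ k : ℕ, z = CU.om ^ k) ∨ (e = 1 ∧ ∃ k : ℕ, z = -CU.om ^ k) := by
    obtain ⟨k, h1 | h1⟩ := Q3L.unit_cases h.2.1
    · exact ⟨0, Or.inl ⟨rfl, k, h1⟩⟩
    · exact ⟨1, Or.inr ⟨rfl, k, h1⟩⟩
  rw [q2_id F S Z h0 h he]
  have h1 : ∀ p ∈ S.T, c2 p x = sg (tt p * e) * c2 p g := by
    intro p hp
    obtain ⟨hp1, hp2⟩ := S.adm.1 p hp
    have h2 : ∀ k : ℕ, c2 p (CU.om ^ k) = 1 := by
      intro k
      have h3 : CU.om = CU.om ^ 2 * CU.om ^ 2 := by decide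
      have h5 : c2 p CU.om = 1 := by
        have h6 : ¬ p ∣ CU.om ^ 2 := fun h7 => hp1.not_isUnit (isUnit_of_dvd_unit h7 (CU.om_unit.pow 2))
        rw [h3, Q3L.c2_mul hp1 hp2]
        exact Q3L.c2_sq h6
      induction k with
      | zero => rw [pow_zero]; exact Q3L.c2_one hp1 hp2
      | succ k ih => rw [pow_succ, Q3L.c2_mul hp1 hp2, ih, h5, one_mul]
    rw [h.1, Q3L.c2_mul hp1 hp2]
    congr 1
    rcases he with ⟨rfl, k, rfl⟩ | ⟨rfl, k, rfl⟩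
    · rw [h2, mul_zero, Q3L.sg_zero]
    · rw [Q3L.c2_neg hp1 hp2, h2, mul_one, mul_one]
  have h2 : (∏ p ∈ S.T, c2 p x) = sg ((∑ p ∈ S.T, tt p) * e) * ∏ p ∈ S.T, c2 p g := by
    rw [Finset.sum_mul, Q3L.sg_sum, ← Finset.prod_mul_distrib]
    exact Finset.prod_congr rfl h1
  have h3 : fQ S.c S.T g = sg (cx S.c g + (∑ p ∈ S.T, tt p) * tt g) * ∏ p ∈ S.T, c2 p g := by
    unfold Q3L.fQ
    rw [if_pos h.2.2, Q3L.sg_add, Finset.sum_mul, Q3L.sg_sum, mul_assoc, ← Finset.prod_mul_distrib]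
  have h4 : (((if r3 ∈ S.T then 1 else sl x : ℤ) : ℤ) : ℂ) * ∏ p ∈ S.T.erase r3, c2 p x = (sl x : ℂ) * ∏ p ∈ S.T, c2 p x := by
    by_cases h5 : r3 ∈ S.T
    · rw [if_pos h5, ← Finset.mul_prod_erase S.T (fun p => c2 p x) h5, JGL.q1_c2_r3, ← mul_assoc]
      congr 1
      rcases JGL.q1_sl_pm hl with h6 | h6 <;> rw [h6] <;> norm_num
    · rw [if_neg h5, Finset.erase_eq_of_notMem h5]
  unfold qL
  rw [if_pos hx, Int.cast_mul, Int.cast_prod, Finset.prod_congr rfl fun p _ => ci_c2 p x, h4, h2, h3]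
  have h5 := Q3L.sg_sq ((∑ p ∈ S.T, tt p) * e)
  linear_combination ((sl x : ℂ) * sg (cx S.c g + (∑ p ∈ S.T, tt p) * tt g) * ∏ p ∈ S.T, c2 p g) * h5

end J2D
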