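import Pool.Agent.J2D.K
import Pool.Agent.J2D.Q2

/-!
# [J2D-S1] the Hecke character

PROOF. `rho_mul`: `q_mul`, `k_mul`, `q2_mul`, `CUL.cr_mul`. `rho_neg`: `rho (-1) = -1`: `q (-1) q2 (-1) = -1` (`q_id` at `x = -1 = (-1) · 1`: `fQ c T 1 = 1` (`Q3L.fQ_one`), `sl (-1) = -1`; `q2 = 1` if `n2 = 0` (`q2_triv`)), `k (-1) = 1` (`k (-1)² = 1`, `k (-1)³ = 1`), `cr (-2) (-1) = 1`. `rho_om`: `q ω = 1`, `k ω = zw (1 - j)`, `r2 ω = zw j` (`q2_om`, `crm_om`); `n2 = 0`: `v2 = 4`, `j = 0`, `k ω = zw 1 = w`. `rho_unit`: `CUL.unit_cases`.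
`rho_per`: `q_per`, `k_per`, `q2_per`, `cr (-2)` depends on `x mod 2` (`CUL.cr_congr`), `2 ∣ 2 ^ n2`. `rho_norm`, `rho_conj`.
`psi_prime`: a primary prime `p ≠ -2`: `emb (JL.psv6 (eE D) v) = conj (rho p) emb p`: as in `JGL.psi_prime` (JGL/D7.lean): `psv6 = qs · cs · p`, `CUL.cs_eq`: `cr p (4 D)`, `JL.b5_qs`. `p ∣ D`: both `0` (`p ∈ So`, `dvd_fL`). `p ∤ D`: `p ∉ F.S`, `p` prime to `fL`: `cr_four`: `cr p (4 D) = co F p cr (-2) p ^ (v2 + 2) conj (ka p)`; `conj (k p) = co F p conj (kl F p)` (`kz_prim`), `conj (cr (-2) p ^ j.val) = cr (-2) p ^ (v2 + 2)` (`j = 1 - v2 = -(v2 + 2)` in `ZMod 3`; cube roots of unity);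
`q p q2 p = sl p fQ c T g = fQ c T g` (`q_id`; `sl p = 1`, `JGL.q1_sl_primary`), `fQ c T g = c2 g (Dd c T)` (`Q3L.fQ_prime`, `g` is a Prim associate of `p`) `= 1` iff `D` is a square modulo `p` (`Q3.sy_associated`, `Q3.sy_mul_sq`). If `n2 = 0`: `r2 = 1` with `j = 0`: the same formula because `q2 p = 1`, `cr (-2) p ^ 0 = 1`.
`psi_all`: both sides are multiplicative in `x` (`CUL.x2_span_mul`, `NAB.cm_mul`), at units both are `1` (`rho u = emb u`), at primes: every prime is a unit times `2`, `la` or a primary prime `≠ -2` (`JGL.d7b_two`, `JGL.d7b_la` for the values of `psvG`). Induction: `UniqueFactorizationMonoid.induction_on_prime`.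
-/

set_option autoImplicit false

open NumberField IsDedekindDomain Filter Topology
open scoped Classical ComplexConjugate

namespace J2D

open CM27 JZ
open CU (la eE)
open CUL (Nl ez DS Cont LV IsRep rp cr mn mo zw GalU)
open JGL (Fac sl)
open Q3 (Adm Dd Prim tt r3)
open Q3L (c2 sg cx fQ Dec)
open J2L

variable {D : Eis}

/-! ### auxiliary lemmas -/

/-- an odd element is a cube root of unity modulo `2` -/
theorem S1_odd {x : Eis} (h : ¬ (2 : Eis) ∣ x) : ∃ k t : Eis, k ^ 3 = 1 ∧ x = k + 2 * t := by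
  have h1 : CU.om.re = 0 := rfl
  have h2 : CU.om.im = 1 := rfl
  have h3 : (CU.om ^ 2).re = -1 := by decide
  have h4 : (CU.om ^ 2).im = -1 := by decide
  rw [Q3L.two_dvd_iff] at h
  by_cases c1 : x.re % 2 = 1
  · by_cases c2 : x.im % 2 = 1
    · have h5 : (2 : Eis) ∣ x - CU.om ^ 2 := by
        rw [Q3L.two_dvd_iff, QuadraticAlgebra.re_sub, QuadraticAlgebra.im_sub, h3, h4]
        omega
      obtain ⟨t, ht⟩ := h5
      exact ⟨CU.om ^ 2, t, by decide, by linear_combination ht⟩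
    · have h5 : (2 : Eis) ∣ x - 1 := by
        rw [Q3L.two_dvd_iff, QuadraticAlgebra.re_sub, QuadraticAlgebra.im_sub, QuadraticAlgebra.re_one,
          QuadraticAlgebra.im_one]
        omega
      obtain ⟨t, ht⟩ := h5
      exact ⟨1, t, by decide, by linear_combination ht⟩
  · have h5 : (2 : Eis) ∣ x - CU.om := by
      rw [Q3L.two_dvd_iff, QuadraticAlgebra.re_sub, QuadraticAlgebra.im_sub, h1, h2]
      omega
    obtain ⟨t, ht⟩ := h5
    exact ⟨CU.om, t, by decide, by linear_combination ht⟩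

/-- cube roots of unity which are congruent modulo `2` are equal -/
theorem S1_eq {a b : Eis} (ha : a ^ 3 = 1) (hb : b ^ 3 = 1) (h : (2 : Eis) ∣ a - b) : a = b := by
  have := eis_isDomain
  have hc : ∀ z : Eis, z ^ 3 = 1 → z = 1 ∨ z = CU.om ∨ z = CU.om ^ 2 := by
    intro z hz
    have h1 : (z - 1) * ((z - CU.om) * (z - CU.om ^ 2)) = 0 := by
      have h2 : CU.om ^ 2 + CU.om + 1 = 0 := by decide
      have h3 : CU.om ^ 3 = 1 := by decide
      linear_combination hz - (z ^ 2 - z) * h2 - (1 - z) * h3 + 0 * h2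
    rcases mul_eq_zero.1 h1 with h2 | h2
    · left; linear_combination h2
    rcases mul_eq_zero.1 h2 with h2 | h2
    · right; left; linear_combination h2
    · right; right; linear_combination h2
  rw [Q3L.two_dvd_iff] at h
  rcases hc a ha with rfl | rfl | rfl <;> rcases hc b hb with rfl | rfl | rfl <;>
    first
    | rfl
    | (exfalso; revert h; decide)

theorem n2_zero {v : ℕ} {δ : Eis} (h : n2 v δ = 0) : v = 4 ∧ (2 : Eis) ∣ δ := by
  unfold n2 at h
  split_ifs at h with h1 h2 h3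
  exact ⟨h3, h2⟩

/-- `n2 = 0` iff good reduction at `2` -/
theorem n2_zero_iff (F : Fac D) (Z : Zd F) (h0 : D ≠ 0) : n2 (v2 F) Z.δ = 0 ↔ JG.Good2 D := by
  have := eis_isDomain
  constructor
  · intro h
    obtain ⟨h1, t, ht⟩ := n2_zero h
    obtain ⟨c, hc⟩ := Z.hδ
    have hz := Z.hζ
    refine ⟨Z.ζ ^ 2, c + Z.ζ * t, ?_, ?_⟩
    · intro h2
      have h3 := Q3.prime_two.dvd_of_dvd_pow h2
      have h4 : (2 : Eis) ∣ 1 := by
        rw [← hz]
        exact h3.trans (dvd_pow_self _ (by norm_num))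
      exact Q3.prime_two.not_isUnit (isUnit_of_dvd_one h4)
    · have h2 := Z.hD
      rw [h1] at h2
      refine h2.trans ?_
      rw [ht] at hc
      have h3 : Z.D₀ = (Z.ζ ^ 2) ^ 2 + 4 * (c + Z.ζ * t) := by
        linear_combination hc - Z.ζ * hz
      rw [h3]
      ring
  · rintro ⟨s, c, hs, hD⟩
    have hodd : ¬ (2 : Eis) ∣ s ^ 2 + 4 * c := by
      intro h
      apply hs
      have h1 : (2 : Eis) ∣ s ^ 2 := by
        have h2 : s ^ 2 = (s ^ 2 + 4 * c) - 2 * (2 * c) := by ring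
        rw [h2]
        exact dvd_sub h (dvd_mul_right _ _)
      exact Q3.prime_two.dvd_of_dvd_pow h1
    have h1 := Z.hD
    have h2 : (2 : Eis) ^ v2 F * Z.D₀ = 2 ^ 4 * (s ^ 2 + 4 * c) := by
      rw [← h1]
      exact hD.trans (by ring)
    obtain ⟨h3, h4⟩ := JGL.D1b2_pow Q3.prime_two Z.hD₀ hodd h2
    obtain ⟨k, t, hk, hst⟩ := S1_odd hs
    obtain ⟨m, hm⟩ := Z.hδ
    have hk2 : (k ^ 2) ^ 3 = 1 := by rw [← pow_mul, mul_comm, pow_mul, hk, one_pow]
    have h5 : (2 : Eis) ∣ k ^ 2 - Z.ζ := by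
      refine ⟨2 * m + Z.ζ * Z.δ - (2 * k * t + 2 * t ^ 2) - 2 * c, ?_⟩
      rw [h4, hst] at hm
      linear_combination hm
    have h6 := S1_eq hk2 Z.hζ h5
    have hd : (2 : Eis) ∣ Z.δ := by
      have h7 : (2 : Eis) ∣ Z.ζ * Z.δ := by
        refine ⟨k * t + t ^ 2 + c - m, ?_⟩
        have h20 : (2 : Eis) ≠ 0 := by decide
        apply mul_left_cancel₀ h20
        rw [h4, hst, ← h6] at hm
        rw [← h6]
        linear_combination -hm
      rcases Q3.prime_two.dvd_or_dvd h7 with h8 | h8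
      · exfalso
        have h9 : (2 : Eis) ∣ 1 := by
          rw [← Z.hζ]
          exact h8.trans (dvd_pow_self _ (by norm_num))
        exact Q3.prime_two.not_isUnit (isUnit_of_dvd_one h9)
      · exact h8
    unfold n2
    rw [h3, if_neg (by norm_num), if_pos hd, if_pos rfl]

theorem rho_mul (L : Lv) (v : ℕ) (δ x y : Eis) : rho L v δ (x * y) = rho L v δ x * rho L v δ y := by
  unfold rho
  rw [L.q_mul, L.k_mul]
  by_cases h : n2 v δ = 0
  · rw [if_pos h, if_pos h, if_pos h]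
    push_cast
    ring
  · rw [if_neg h, if_neg h, if_neg h]
    unfold r2
    rw [q2_mul, CUL.cr_mul JL.b3_two JL.b3_twoP, mul_pow]
    push_cast
    ring

theorem S1_q_one (L : Lv) : L.q 1 = 1 := by
  have h := L.q_mul CU.om 1
  rw [mul_one, L.q_om, one_mul] at h
  exact h.symm

theorem S1_k_one (L : Lv) : L.k 1 = 1 := by
  have h := L.k_mul CU.om 1
  rw [mul_one, L.k_om] at h
  have h1 := CUL.zw_ne (1 - L.j)
  exact (mul_left_cancel₀ h1 (by rw [mul_one]; exact h)).symm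

theorem S1_q2_one (v : ℕ) (δ : Eis) : q2 v δ 1 = 1 := by
  have h := q2_mul v δ CU.om 1
  rw [mul_one, q2_om, one_mul] at h
  exact h.symm

theorem rho_one (L : Lv) (v : ℕ) (δ : Eis) : rho L v δ 1 = 1 := by
  unfold rho r2
  rw [S1_q_one, S1_k_one, S1_q2_one, CUL.cr_one JL.b3_two JL.b3_twoP, one_pow]
  simp

theorem rho_per (L : Lv) (v : ℕ) (δ : Eis) {x y : Eis} (h : 2 ^ n2 v δ * L.f ∣ x - y) : rho L v δ x = rho L v δ y := by
  have h1 : L.f ∣ x - y := (dvd_mul_left _ _).trans h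
  have h2 : 2 ^ n2 v δ ∣ x - y := (dvd_mul_right _ _).trans h
  unfold rho
  rw [L.q_per x y h1, L.k_per x y h1]
  by_cases hn : n2 v δ = 0
  · rw [if_pos hn, if_pos hn]
  · rw [if_neg hn, if_neg hn]
    unfold r2
    have h3 : (-2 : Eis) ∣ x - y := (neg_dvd).2 ((dvd_pow_self 2 hn).trans h2)
    rw [q2_per v δ hn h2, CUL.cr_congr JL.b3_two JL.b3_twoP h3]

/-- the values are `± ω ^ j` -/
theorem S1_form (L : Lv) (v : ℕ) (δ : Eis) {x : Eis} (h : IsCoprime x (2 ^ n2 v δ * L.f)) :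
    ∃ (s : ℤ) (j : ZMod 3), (s = 1 ∨ s = -1) ∧ rho L v δ x = (s : ℂ) * zw j := by
  have h1 : IsCoprime x L.f := h.of_isCoprime_of_dvd_right (dvd_mul_left _ _)
  have h2 : IsCoprime x (2 ^ n2 v δ) := h.of_isCoprime_of_dvd_right (dvd_mul_right _ _)
  obtain ⟨i, hi⟩ := L.k_cube x h1
  unfold rho
  by_cases hn : n2 v δ = 0
  · refine ⟨L.q x, i, L.q_pm x h1, ?_⟩
    rw [if_pos hn, mul_one, hi]
  · rw [if_neg hn]
    have hodd : ¬ (2 : Eis) ∣ x := fun h3 => Q3.prime_two.not_isUnit (h2.isUnit_of_dvd' h3 (dvd_pow_self 2 hn))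
    have hodd' : ¬ (-2 : Eis) ∣ x := fun h => hodd ((neg_dvd).1 h)
    refine ⟨L.q x * q2 v δ x, i + (L.j.val : ZMod 3) * CU.sy x (-2), ?_, ?_⟩
    · rcases L.q_pm x h1 with h3 | h3 <;> rcases q2_pm v δ hodd with h4 | h4 <;> rw [h3, h4] <;> decide
    · unfold r2
      rw [hi, JGL.D5_cr_sy hodd', CUL.zw_pow, CUL.zw_add]
      push_cast
      ring

theorem S1_zero (L : Lv) (v : ℕ) (δ : Eis) {x : Eis} (h : ¬ IsCoprime x (2 ^ n2 v δ * L.f)) : rho L v δ x = 0 := by
  unfold rho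
  by_cases h1 : IsCoprime x L.f
  · by_cases hn : n2 v δ = 0
    · exfalso
      apply h
      rw [hn, pow_zero, one_mul]
      exact h1
    · have h2 : (2 : Eis) ∣ x := by
        by_contra h2
        apply h
        exact (Q3L.cop_two h2 _).mul_right h1
      rw [if_neg hn]
      unfold r2
      rw [q2_even v δ h2]
      simp
  · rw [L.q_zero x h1]
    simp

theorem S1_conj_int (s : ℤ) : conj ((s : ℤ) : ℂ) = (s : ℂ) := by
  rw [map_intCast]

theorem rho_norm (L : Lv) (v : ℕ) (δ x : Eis) : ‖rho L v δ x‖ ≤ 1 := by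
  by_cases h : IsCoprime x (2 ^ n2 v δ * L.f)
  · obtain ⟨s, j, hs, hj⟩ := S1_form L v δ h
    rw [hj, norm_mul, CUL.zw_norm, mul_one]
    rcases hs with rfl | rfl <;> norm_num
  · rw [S1_zero L v δ h, norm_zero]
    exact zero_le_one

theorem rho_conj (L : Lv) (v : ℕ) (δ : Eis) {x : Eis} (h : IsCoprime x (2 ^ n2 v δ * L.f)) :
    rho L v δ x * conj (rho L v δ x) = 1 := by
  obtain ⟨s, j, hs, hj⟩ := S1_form L v δ h
  have h1 : zw j * zw (-j) = 1 := by rw [← CUL.zw_add, add_neg_cancel, CUL.zw_zero]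
  rw [hj, map_mul, CUL.zw_conj, S1_conj_int]
  rcases hs with rfl | rfl
  · push_cast
    linear_combination h1
  · push_cast
    linear_combination h1

theorem rho_sigma (L : Lv) (v : ℕ) (δ x : Eis) (σ : ℂ ≃+* ℂ) (hσ : σ w = w) : σ (rho L v δ x) = rho L v δ x ∧
    σ (conj (rho L v δ x)) = conj (rho L v δ x) := by
  have hz : ∀ j : ZMod 3, σ (zw j) = zw j := by
    intro j
    unfold zw
    rw [map_pow, hσ]
  by_cases h : IsCoprime x (2 ^ n2 v δ * L.f)
  · obtain ⟨s, j, hs, hj⟩ := S1_form L v δ h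
    rw [hj, map_mul, map_mul, map_mul, CUL.zw_conj, S1_conj_int, hz, hz, map_intCast]
    exact ⟨rfl, rfl⟩
  · rw [S1_zero L v δ h, map_zero, map_zero, map_zero]
    exact ⟨rfl, rfl⟩

theorem q_neg (F : Fac D) (S : Sq D) (Z : Zd F) (h0 : D ≠ 0) {L : Lv} (hL : IsLv F S L) : L.q (-1) * q2 (v2 F) Z.δ (-1) = -1 := by
  have hdec : Dec (-1) (-1) 1 := ⟨by ring, isUnit_one.neg, Q3.prim_one⟩
  have hla : ¬ la ∣ (-1 : Eis) := fun h => CUL.la_prime.not_isUnit (isUnit_of_dvd_unit h isUnit_one.neg)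
  have h1 := q_id F S Z h0 hdec isCoprime_one_left.neg_left hla
  rw [Q3L.fQ_one S.adm, JGL.q1_sl_neg] at h1
  rw [hL.hq]
  have h2 : ((qL F S (-1) * q2 (v2 F) Z.δ (-1) : ℤ) : ℂ) = ((-1 : ℤ) : ℂ) := by
    push_cast
    push_cast at h1
    linear_combination h1
  exact_mod_cast h2

theorem rho_unit (F : Fac D) (S : Sq D) (Z : Zd F) (h0 : D ≠ 0) {L : Lv} (hL : IsLv F S L) {u : Eis} (hu : IsUnit u) :
    rho L (v2 F) Z.δ u = emb u := by
  have hcr : cr (-2) (-1) = 1 := by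
    rw [crm_neg, CUL.cr_one JL.b3_two JL.b3_twoP]
  have hodd : ¬ (2 : Eis) ∣ -1 := fun h => Q3.prime_two.not_isUnit (isUnit_of_dvd_unit h isUnit_one.neg)
  -- the value at `-1`
  have hk : L.k (-1) = 1 := by
    have h1 : IsCoprime (-1 : Eis) L.f := isCoprime_one_left.neg_left
    obtain ⟨i, hi⟩ := L.k_cube (-1) h1
    have h2 := L.k_mul (-1) (-1)
    have h3 : (-1 : Eis) * -1 = 1 := by ring
    rw [h3, S1_k_one, hi, ← CUL.zw_add] at h2
    have h4 : zw (i + i) ^ 2 = 1 := by rw [← h2, one_pow]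
    rw [CUL.zw_pow] at h4
    rw [hi, ← h4]
    congr 1
    clear hi h2 h4
    revert i
    decide
  have hneg : rho L (v2 F) Z.δ (-1) = -1 := by
    have h1 := q_neg F S Z h0 hL
    unfold rho
    rw [hk]
    by_cases hn : n2 (v2 F) Z.δ = 0
    · rw [q2_triv hn hodd, mul_one] at h1
      rw [if_pos hn, h1]
      norm_num
    · rw [if_neg hn]
      unfold r2
      rw [hcr, one_pow, mul_one, mul_one]
      have h2 : ((L.q (-1) * q2 (v2 F) Z.δ (-1) : ℤ) : ℂ) = ((-1 : ℤ) : ℂ) := by rw [h1]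
      push_cast at h2
      exact h2
  -- the value at `ω`
  have hw : zw 1 = w := by
    unfold zw
    have : (1 : ZMod 3).val = 1 := rfl
    rw [this, pow_one]
  have hom : rho L (v2 F) Z.δ CU.om = w := by
    unfold rho
    rw [L.q_om, L.k_om]
    by_cases hn : n2 (v2 F) Z.δ = 0
    · rw [if_pos hn, hL.hj, (n2_zero hn).1, ← hw]
      have h4 : (1 - (1 - ((4 : ℕ) : ZMod 3))) = 1 := by decide
      rw [h4]
      norm_num
    · rw [if_neg hn]
      unfold r2
      rw [q2_om, crm_om, CUL.zw_pow, ZMod.natCast_zmod_val, mul_one]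
      have h5 : zw (1 - L.j) * zw L.j = zw 1 := by rw [← CUL.zw_add, sub_add_cancel]
      push_cast
      rw [← hw]
      linear_combination h5
  have hom2 : rho L (v2 F) Z.δ (CU.om ^ 2) = w ^ 2 := by
    rw [pow_two, rho_mul, hom, pow_two]
  have hmn : ∀ x, rho L (v2 F) Z.δ (-x) = - rho L (v2 F) Z.δ x := by
    intro x
    have h1 : -x = -1 * x := by ring
    rw [h1, rho_mul, hneg]
    ring
  rcases CUL.unit_cases hu with h | h | h | h | h | h <;> rw [h]
  · rw [rho_one, map_one]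
  · rw [hneg, map_neg, map_one]
  · rw [hom, CUL.emb_om]
  · rw [hmn, hom, map_neg, CUL.emb_om]
  · rw [hom2, map_pow, CUL.emb_om]
  · rw [hmn, hom2, map_neg, map_pow, CUL.emb_om]

end J2D
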