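import Pool.Agent.J2D.S1
import Pool.Agent.J2D.C2

/-!
# [J2D-S2] the Hecke character

PROOF. `rho_mul`: `q_mul`, `k_mul`, `q2_mul`, `CUL.cr_mul`. `rho_neg`: `rho (-1) = -1`: `q (-1) q2 (-1) = -1` (`q_id` at `x = -1 = (-1) · 1`: `fQ c T 1 = 1` (`Q3L.fQ_one`), `sl (-1) = -1`; `q2 = 1` if `n2 = 0` (`q2_triv`)), `k (-1) = 1` (`k (-1)² = 1`, `k (-1)³ = 1`), `cr (-2) (-1) = 1`. `rho_om`: `q ω = 1`, `k ω = zw (1 - j)`, `r2 ω = zw j` (`q2_om`, `crm_om`); `n2 = 0`: `v2 = 4`, `j = 0`, `k ω = zw 1 = w`. `rho_unit`: `CUL.unit_cases`.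
`rho_per`: `q_per`, `k_per`, `q2_per`, `cr (-2)` depends on `x mod 2` (`CUL.cr_congr`), `2 ∣ 2 ^ n2`. `rho_norm`, `rho_conj`.
`psi_prime`: a primary prime `p ≠ -2`: `emb (JL.psv6 (eE D) v) = conj (rho p) emb p`: as in `JGL.psi_prime` (JGL/D7.lean): `psv6 = qs · cs · p`, `CUL.cs_eq`: `cr p (4 D)`, `JL.b5_qs`. `p ∣ D`: both `0` (`p ∈ So`, `dvd_fL`). `p ∤ D`: `p ∉ F.S`, `p` prime to `fL`: `cr_four`: `cr p (4 D) = co F p cr (-2) p ^ (v2 + 2) conj (ka p)`; `conj (k p) = co F p conj (kl F p)` (`kz_prim`), `conj (cr (-2) p ^ j.val) = cr (-2) p ^ (v2 + 2)` (`j = 1 - v2 = -(v2 + 2)` in `ZMod 3`; cube roots of unity);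
`q p q2 p = sl p fQ c T g = fQ c T g` (`q_id`; `sl p = 1`, `JGL.q1_sl_primary`), `fQ c T g = c2 g (Dd c T)` (`Q3L.fQ_prime`, `g` is a Prim associate of `p`) `= 1` iff `D` is a square modulo `p` (`Q3.sy_associated`, `Q3.sy_mul_sq`). If `n2 = 0`: `r2 = 1` with `j = 0`: the same formula because `q2 p = 1`, `cr (-2) p ^ 0 = 1`.
`psi_all`: both sides are multiplicative in `x` (`CUL.x2_span_mul`, `NAB.cm_mul`), at units both are `1` (`rho u = emb u`), at primes: every prime is a unit times `2`, `la` or a primary prime `≠ -2` (`JGL.d7b_two`, `JGL.d7b_la` for the values of `psvG`). Induction: `UniqueFactorizationMonoid.induction_on_prime`.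
-/

set_option autoImplicit false

open NumberField IsDedekindDomain Filter Topology
open scoped Classical ComplexConjugate

namespace J2D

open CM27 JZ
open CU (la eE)
open CUL (Nl ez DS Cont LV IsRep rp cr mn mo zw GalU)
open JGL (Fac sl)
open Q3 (Adm Dd Prim tt r3)
open Q3L (c2 sg cx fQ Dec)
open J2L

variable {D : Eis}

/-- the value of `rho` at `x` -/
theorem s2_rho {F : Fac D} {S : Sq D} {L : Lv} (hL : IsLv F S L) (δ : Eis) {x : Eis} (hx : ¬ (2 : Eis) ∣ x) :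
    rho L (v2 F) δ x = (L.q x : ℂ) * (q2 (v2 F) δ x : ℂ) * (L.k x * cr (-2) x ^ L.j.val) := by
  unfold rho
  by_cases h : n2 (v2 F) δ = 0
  · have h1 := q2_triv h hx
    obtain ⟨h2, -⟩ := n2_zero h
    have h3 : L.j = 0 := by
      rw [hL.hj, h2]
      decide
    rw [if_pos h, h1, h3]
    have h4 : (0 : ZMod 3).val = 0 := rfl
    rw [h4, pow_zero, Int.cast_one]
    ring
  · rw [if_neg h]
    unfold r2
    ring

theorem s2_ndvd {p : Eis} (hp : Prime p) (hP : Primary p) (h2 : p ≠ -2) : ¬ (2 : Eis) ∣ p := by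
  intro h
  have hdom := CM27.eis_isDomain
  have h3 : (-2 : Eis) ∣ p := (neg_dvd).2 h
  exact h2 (CUL.primary_assoc hP JL.b3_twoP (JL.b3_two.associated_of_dvd hp h3).symm)

theorem s2_pow {m : ZMod 3} (n : ℕ) : zw m ^ n = zw ((n : ZMod 3) * m) := CUL.zw_pow _ _

/-- the cubic part -/
theorem s2_cub (F : Fac D) {S : Sq D} {L : Lv} (hL : IsLv F S L) {p : Eis} (hp : Prime p) (hP : Primary p) (h2 : p ≠ -2)
    (h : p ∉ F.S) (hc : IsCoprime p (fL F)) : conj (L.k p * cr (-2) p ^ L.j.val) = cr p (4 * D) := by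
  have hodd := s2_ndvd hp hP h2
  have hm2 : ¬ (-2 : Eis) ∣ p := fun h3 => hodd ((neg_dvd).1 h3)
  obtain ⟨m, hm⟩ : ∃ m : ZMod 3, cr (-2) p = zw m := by
    rcases CUL.cr_cases (-2) p with ⟨-, h3⟩ | ⟨h3, -⟩
    · exact absurd h3 hm2
    · exact ⟨_, h3⟩
  rw [hL.hk, cr_four F hp hP h]
  unfold kL kl
  rw [if_pos hc, kz_prim _ _ _ hP, hm, s2_pow, s2_pow, map_mul, map_mul, Complex.conj_conj, CUL.zw_conj]
  have h4 : -(((L.j.val : ℕ) : ZMod 3) * m) = ((v2 F + 2 : ℕ) : ZMod 3) * m := by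
    rw [ZMod.natCast_zmod_val, hL.hj, Nat.cast_add]
    have h5 : ∀ a b : ZMod 3, -((1 - a) * b) = (a + ((2 : ℕ) : ZMod 3)) * b := by decide
    exact h5 _ _
  rw [h4]
  ring

/-- the quadratic part -/
theorem s2_quad (F : Fac D) (S : Sq D) (Z : Zd F) (h0 : D ≠ 0) {L : Lv} (hL : IsLv F S L) {p : Eis} (hp : Prime p) (hP : Primary p)
    (h2 : p ≠ -2) (hD : ¬ p ∣ D) (hc : IsCoprime p (fL F)) :
    (L.q p : ℂ) * (q2 (v2 F) Z.δ p : ℂ) = ((if ∃ y : Eis, p ∣ y ^ 2 - D then 1 else -1 : ℤ) : ℂ) := by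
  have hdom := CM27.eis_isDomain
  have hodd := s2_ndvd hp hP h2
  obtain ⟨z, g, hz⟩ := Q3L.exists_dec hodd
  have hl : ¬ la ∣ p := fun h3 => CUL.la_prime.not_isUnit ((CUL.cop_la hP).symm.isUnit_of_dvd' dvd_rfl h3)
  rw [hL.hq, q_id F S Z h0 hz hc hl, JGL.q1_sl_primary hP, Int.cast_one, one_mul]
  obtain ⟨e1, e2, e3⟩ := hz
  have ha : Associated p g := by
    rw [e1]
    exact (associated_isUnit_mul_left_iff e2).2 (Associated.refl g)
  have hg : Prime g := ha.prime hp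
  rw [Q3L.fQ_prime S.adm hg e3]
  have hgD : ¬ g ∣ D := fun h3 => hD (ha.dvd.trans h3)
  have hgd : ¬ g ∣ Dd S.c S.T := by
    intro h3
    apply hgD
    rw [S.hD]
    exact h3.mul_left _
  have hgm : ¬ g ∣ S.m := by
    intro h3
    apply hgD
    rw [S.hD]
    exact (dvd_pow h3 two_ne_zero).mul_right _
  rw [Q3L.c2_unit hgd]
  have h5 : Q3.sy (Dd S.c S.T) g = Q3.sy D g := by
    rw [← Q3.sy_mul_sq hg hgm, mul_comm, ← S.hD]
  rw [h5]
  have h6 : Q3.sy D g = 0 ↔ ∃ y : Eis, p ∣ y ^ 2 - D := by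
    rw [Q3.sy_eq_zero_iff]
    constructor
    · rintro ⟨y, hy⟩
      exact ⟨y, ha.dvd.trans hy⟩
    · rintro ⟨y, hy⟩
      exact ⟨y, ha.symm.dvd.trans hy⟩
  unfold Q3L.sg
  by_cases h7 : ∃ y : Eis, p ∣ y ^ 2 - D
  · rw [if_pos h7, if_pos (h6.2 h7), Int.cast_one]
  · rw [if_neg h7, if_neg (fun h8 => h7 (h6.1 h8)), Int.cast_neg, Int.cast_one]

theorem psi_prime (F : Fac D) (S : Sq D) (Z : Zd F) (h0 : D ≠ 0) {L : Lv} (hL : IsLv F S L) {p : Eis} (hp : Prime p) (hP : Primary p)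
    (h2 : p ≠ -2) (v : HeightOneSpectrum (𝓞 CF.KK)) (hv : v.asIdeal = Ideal.span {eE p}) :
    emb (JL.psv6 (eE D) v) = conj (rho L (v2 F) Z.δ p) * emb p := by
  have hdom := CM27.eis_isDomain
  have hpid := CM27.eis_pid
  have hex : ∃ b : Eis, Primary b ∧ Prime b ∧ eE b ∈ v.asIdeal := ⟨p, hP, hp, (CUL.x2_mem hv p).2 dvd_rfl⟩
  have h5 : (4 : 𝓞 CF.KK) * eE D = eE (4 * D) := by
    rw [map_mul, map_ofNat]
  unfold JL.psv6
  rw [dif_pos hex, map_mul, map_mul, h5, CUL.cs_eq hp hP (4 * D) v hv, JL.b5_qs D v hv, map_intCast]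
  obtain ⟨g1, g2, g3⟩ := hex.choose_spec
  rw [CUL.x2_mem hv] at g3
  have h4 : Associated p hex.choose := hp.associated_of_dvd g2 g3
  rw [← CUL.primary_assoc hP g1 h4]
  congr 1
  by_cases hpD : p ∣ D
  · rw [if_pos hpD, Int.cast_zero, zero_mul]
    have hpS : p ∈ F.S := by
      by_contra h
      exact JGL.fac_not F hp hP h hpD
    have hpo : p ∈ So F := Finset.mem_erase.2 ⟨h2, hpS⟩
    have hpf : p ∣ L.f := by
      rw [hL.hf]
      exact (dvd_fL F hp hP).2 hpo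
    have h8 : L.q p = 0 := L.q_zero p (fun h9 => hp.not_isUnit (h9.isUnit_of_dvd' dvd_rfl hpf))
    unfold rho
    rw [h8, Int.cast_zero, zero_mul, zero_mul, map_zero]
  · rw [if_neg hpD]
    have hpS : p ∉ F.S := by
      intro h
      obtain ⟨c, hc, -⟩ := JGL.fac_pow F h h2
      apply hpD
      rw [hc]
      exact (dvd_pow_self p (F.hE p h)).mul_right c
    have hcop : IsCoprime p (fL F) := by
      refine (hp.irreducible.coprime_iff_not_dvd).2 fun h => hpS ?_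
      exact Finset.mem_of_mem_erase ((dvd_fL F hp hP).1 h)
    rw [s2_rho hL Z.δ (s2_ndvd hp hP h2), map_mul, s2_cub F hL hp hP h2 hpS hcop, s2_quad F S Z h0 hL hp hP h2 hpD hcop,
      map_intCast]

end J2D
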