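import Pool.Agent.J2D.S2

/-!
# [J2D-S3] the Hecke character

PROOF. `rho_mul`: `q_mul`, `k_mul`, `q2_mul`, `CUL.cr_mul`. `rho_neg`: `rho (-1) = -1`: `q (-1) q2 (-1) = -1` (`q_id` at `x = -1 = (-1) · 1`: `fQ c T 1 = 1` (`Q3L.fQ_one`), `sl (-1) = -1`; `q2 = 1` if `n2 = 0` (`q2_triv`)), `k (-1) = 1` (`k (-1)² = 1`, `k (-1)³ = 1`), `cr (-2) (-1) = 1`. `rho_om`: `q ω = 1`, `k ω = zw (1 - j)`, `r2 ω = zw j` (`q2_om`, `crm_om`); `n2 = 0`: `v2 = 4`, `j = 0`, `k ω = zw 1 = w`. `rho_unit`: `CUL.unit_cases`.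
`rho_per`: `q_per`, `k_per`, `q2_per`, `cr (-2)` depends on `x mod 2` (`CUL.cr_congr`), `2 ∣ 2 ^ n2`. `rho_norm`, `rho_conj`.
`psi_prime`: a primary prime `p ≠ -2`: `emb (JL.psv6 (eE D) v) = conj (rho p) emb p`: as in `JGL.psi_prime` (JGL/D7.lean): `psv6 = qs · cs · p`, `CUL.cs_eq`: `cr p (4 D)`, `JL.b5_qs`. `p ∣ D`: both `0` (`p ∈ So`, `dvd_fL`). `p ∤ D`: `p ∉ F.S`, `p` prime to `fL`: `cr_four`: `cr p (4 D) = co F p cr (-2) p ^ (v2 + 2) conj (ka p)`; `conj (k p) = co F p conj (kl F p)` (`kz_prim`), `conj (cr (-2) p ^ j.val) = cr (-2) p ^ (v2 + 2)` (`j = 1 - v2 = -(v2 + 2)` in `ZMod 3`; cube roots of unity);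
`q p q2 p = sl p fQ c T g = fQ c T g` (`q_id`; `sl p = 1`, `JGL.q1_sl_primary`), `fQ c T g = c2 g (Dd c T)` (`Q3L.fQ_prime`, `g` is a Prim associate of `p`) `= 1` iff `D` is a square modulo `p` (`Q3.sy_associated`, `Q3.sy_mul_sq`). If `n2 = 0`: `r2 = 1` with `j = 0`: the same formula because `q2 p = 1`, `cr (-2) p ^ 0 = 1`.
`psi_all`: both sides are multiplicative in `x` (`CUL.x2_span_mul`, `NAB.cm_mul`), at units both are `1` (`rho u = emb u`), at primes: every prime is a unit times `2`, `la` or a primary prime `≠ -2` (`JGL.d7b_two`, `JGL.d7b_la` for the values of `psvG`). Induction: `UniqueFactorizationMonoid.induction_on_prime`.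
-/

set_option autoImplicit false

open NumberField IsDedekindDomain Filter Topology
open scoped Classical ComplexConjugate

namespace J2D

open CM27 JZ
open CU (la eE)
open CUL (Nl ez DS Cont LV IsRep rp cr mn mo zw GalU)
open JGL (Fac sl)
open Q3 (Adm Dd Prim tt r3)
open Q3L (c2 sg cx fQ Dec)
open J2L

variable {D : Eis}

/-- the right hand side -/
noncomputable def s3_g (L : Lv) (v : ℕ) (δ x : Eis) : ℂ := conj (rho L v δ x) * emb x

theorem s3_g_mul (L : Lv) (v : ℕ) (δ x y : Eis) : s3_g L v δ (x * y) = s3_g L v δ x * s3_g L v δ y := by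
  unfold s3_g
  rw [rho_mul, map_mul, map_mul]
  ring

theorem s3_g_unit (F : Fac D) (S : Sq D) (Z : Zd F) (h0 : D ≠ 0) {L : Lv} (hL : IsLv F S L) {u : Eis} (hu : IsUnit u) :
    s3_g L (v2 F) Z.δ u = 1 := by
  unfold s3_g
  rw [rho_unit F S Z h0 hL hu, mul_comm, CU.emb_mul_conj, (eis_isUnit_iff u).1 hu]
  norm_num

theorem s3_g_assoc (F : Fac D) (S : Sq D) (Z : Zd F) (h0 : D ≠ 0) {L : Lv} (hL : IsLv F S L) {x y : Eis} (h : Associated x y) :
    s3_g L (v2 F) Z.δ x = s3_g L (v2 F) Z.δ y := by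
  obtain ⟨u, hu⟩ := h
  rw [← hu, s3_g_mul, s3_g_unit F S Z h0 hL u.isUnit, mul_one]

theorem s3_span {a b : Eis} (h : Associated a b) : (Ideal.span {eE a} : Ideal (𝓞 CF.KK)) = Ideal.span {eE b} :=
  Ideal.span_singleton_eq_span_singleton.2 (h.map eE)

theorem s3_ndvd_la : ¬ (2 : Eis) ∣ la := by
  intro h
  have h1 : la.norm % 4 = 0 := by
    obtain ⟨c, hc⟩ := h
    have h2 : la.norm = 4 * c.norm := by
      rw [hc, map_mul]
      congr 1
    omega
  exact absurd h1 (by decide)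

/-- the primes -/
theorem s3_prime (F : Fac D) (S : Sq D) (Z : Zd F) (h0 : D ≠ 0) {L : Lv} (hL : IsLv F S L) {p₂ pl : Eis}
    (h2 : emb p₂ = conj (rho L (v2 F) Z.δ 2) * emb 2) (hl : emb pl = conj (rho L (v2 F) Z.δ la) * emb la) {p : Eis} (hp : Prime p) :
    emb (JG.PsiG D p₂ pl (Ideal.span {eE p})) = s3_g L (v2 F) Z.δ p := by
  have hdom := CM27.eis_isDomain
  by_cases hp2 : p ∣ 2
  · have ha : Associated p 2 := hp.associated_of_dvd Q3.prime_two hp2
    obtain ⟨v, hv⟩ := CUL.x2_exists_v (p := (2 : Eis)) Q3.prime_two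
    rw [s3_span ha, s3_g_assoc F S Z h0 hL ha, ← hv]
    unfold JG.PsiG
    rw [NAB.cm_prime]
    unfold JG.psvG
    rw [if_pos hv]
    exact h2
  by_cases hpl : p ∣ la
  · have ha : Associated p la := hp.associated_of_dvd CUL.la_prime hpl
    obtain ⟨v, hv⟩ := CUL.x2_exists_v (p := la) CUL.la_prime
    have hv2 : ¬ v.asIdeal = Ideal.span {eE 2} := by
      intro h
      have h1 : eE (2 : Eis) ∈ v.asIdeal := by
        rw [h]
        exact Ideal.mem_span_singleton_self _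
      have h3 : la ∣ 2 := (CUL.x2_mem hv 2).1 h1
      exact hp2 (hpl.trans h3)
    rw [s3_span ha, s3_g_assoc F S Z h0 hL ha, ← hv]
    unfold JG.PsiG
    rw [NAB.cm_prime]
    unfold JG.psvG
    rw [if_neg hv2, if_pos hv]
    exact hl
  · have hla : ¬ la ∣ p := fun h => hpl (CUL.la_prime.associated_of_dvd hp h).symm.dvd
    obtain ⟨u, hu, hPr⟩ := CU.exists_primary hla
    have ha : Associated p (u * p) := by
      obtain ⟨w', rfl⟩ := hu
      exact ⟨w', mul_comm _ _⟩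
    have hpr : Prime (u * p) := ha.prime hp
    have hne : u * p ≠ -2 := by
      intro h
      apply hp2
      have h1 : p ∣ -2 := by
        rw [← h]
        exact dvd_mul_left p u
      exact (dvd_neg).1 h1
    obtain ⟨v, hv⟩ := CUL.x2_exists_v hpr
    rw [s3_span ha, s3_g_assoc F S Z h0 hL ha, ← hv]
    unfold JG.PsiG
    rw [NAB.cm_prime]
    unfold JG.psvG
    rw [if_neg (fun h5 => hne (JGL.d7b_two hpr hPr hv h5)), if_neg (JGL.d7b_la hpr hPr hv)]
    exact psi_prime F S Z h0 hL hpr hPr hne v hv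

theorem psi_all (F : Fac D) (S : Sq D) (Z : Zd F) (h0 : D ≠ 0) {L : Lv} (hL : IsLv F S L) {p₂ pl : Eis}
    (h2 : emb p₂ = conj (rho L (v2 F) Z.δ 2) * emb 2) (hl : emb pl = conj (rho L (v2 F) Z.δ la) * emb la) {x : Eis} (hx : x ≠ 0) :
    emb (JG.PsiG D p₂ pl (Ideal.span {eE x})) = conj (rho L (v2 F) Z.δ x) * emb x := by
  have hdom := CM27.eis_isDomain
  have hpid := CM27.eis_pid
  have key : ∀ y : Eis, y ≠ 0 → emb (JG.PsiG D p₂ pl (Ideal.span {eE y})) = s3_g L (v2 F) Z.δ y := by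
    intro y
    refine UniqueFactorizationMonoid.induction_on_prime (P := fun y : Eis => y ≠ 0 →
      emb (JG.PsiG D p₂ pl (Ideal.span {eE y})) = s3_g L (v2 F) Z.δ y) y (fun h => absurd rfl h) ?_ ?_
    · intro u hu h'
      have h1 : (Ideal.span {eE u} : Ideal (𝓞 CF.KK)) = 1 := by
        rw [Ideal.one_eq_top, Ideal.span_singleton_eq_top]
        exact hu.map eE
      rw [h1, s3_g_unit F S Z h0 hL hu]
      unfold JG.PsiG
      rw [NAB.cm_one, map_one]
    · intro a p ha hp ih hpa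
      have h6 : JG.PsiG D p₂ pl (Ideal.span {eE p} * Ideal.span {eE a}) =
          JG.PsiG D p₂ pl (Ideal.span {eE p}) * JG.PsiG D p₂ pl (Ideal.span {eE a}) := by
        unfold JG.PsiG
        rw [NAB.cm_mul]
      rw [CUL.x2_span_mul, h6, map_mul, s3_prime F S Z h0 hL h2 hl hp, ih ha, s3_g_mul]
  exact key x hx

end J2D
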