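import Pool.Agent.J2D.U3
import Pool.Agent.J2D.K2

/-!
# [J2D-U4] the cubic character of `ℚ(ω, ∛D)`

`kpC F x = co F x * c2f F x * conj (kl F x)` for `x` prime to `gC F = gla F * (1 or 2) * ∏_{p ∈ Sr} p`.

PROOF. `kpC_mul`, `kpC_per`: `co_mul`, `co_per`; `c2f`: `cr (-2)` is multiplicative and depends on `x mod 2`; `kl`: if `Un F` then `kl = 1` (`kz_zero`: `-mn Ds = 0`, `-v = 0`, `i = 0` in `ZMod 3`); otherwise `la ∣ gla F`, so `la ∤ x`; `gla = λ ^ 4`: `kz_per9` (`9 ~ λ ^ 4`); `gla = λ³`: `v = 0` in `ZMod 3`: `kz_perL`; `gla = λ²`: `i = 0` too: `kz_per3`.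
`kpC_unit`: `kpC (-1) = 1`, `kpC ω = zw (-(mn Ds + v2)) · zw v2 · conj (zw (-mn Ds)) = 1` (`co_om`, `crm_om`, `kz_om`), `CUL.unit_cases`.
`kpC_prim`: `p m = gC F`. `p` divides `la`, `2` or some `q ∈ Sr` (up to a unit). (a) `p ~ q ∈ Sr`: `m` is `gC / q` up to a unit; CRT: `u ≡ 1 mod m`, `u mod q` not a cube (`exists_ncube`), `kpC u = cr q u ^ E q ≠ 1` (`3 ∤ E q`). (b) `p ~ 2`: `3 ∤ v2`; `u ≡ 1 mod m`, `u ≡ ω mod 2`: `kpC u = zw v2 ≠ 1`. (c) `p ~ la`, not `Un F`: `m = gla / λ · (..)`: `gla = λ ^ 4` (`3 ∤ v`): `u ≡ 1 + λ³ mod 9` (`mw = 0`, `mo = -1`, `mn = 0`, so `kl u = zw v ≠ 1`) and `u ≡ 1` modulo the rest;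
`gla = λ³` (`i = 1, 2`): `u ≡ 4 mod 9` (`mn = 1`, `kl u = zw i ≠ 1`), `λ² ∣ 3 ∣ u - 1`; `gla = λ²` (`i = 0`, `3 ∣ v`, `mn Ds ≠ 0`): `u ≡ ω mod 9`, `λ ∣ ω - 1`, `kl u = zw (-mn Ds) ≠ 1`; in all cases `co F u = 1`, `c2f F u = 1` because `u ≡ 1` modulo the `q` and `2` (if `3 ∤ v2`).
`kpC_non`: `gC F` is not a unit (if it is: `Un F`, `3 ∣ v2`, `Sr F = ∅`, so `D` is a cube, as in `kL_non`), so it has a prime factor, `kpC_prim`.
`kpC_ram`: `D = p ^ n c`, `p` prime, `p ∤ 3`. `p` is a unit times a primary prime `p'` (`p' = -2` or odd), `D = p' ^ n c'`, `c' = c · unit ^ n`. `n = E p'` resp. `v2` (exact powers; `n = 0` if `p' ∉ S`). `p ∣ gC` iff `3 ∤ n`. If `3 ∣ n`: `kpC p = kpC p' = cr p' c'` (`co_recip`, `kz_prim`), `unit ^ n = ± 1`, and `cr p' c' = 1` iff `c'` is a cube modulo `p'` (`CU`/`CUL`: `cr_eq_one_iff` or `CU.sy_eq_zero_iff`; for `p' = -2`: `(O/2)* = {1, ω, ω²}`: `c ≡ y³` iff `c ≡ 1 mod 2`).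
`kpC_ramL`: `D = λ ^ n c`: `n = F.v`, `c = η ω ^ i Ds` (exact power). `λ ∣ gC` iff not `Un F`. `λ³ ∣ c - η'` iff `η' = η`, `i = 0`, `mn Ds = 0`. Then `kpC λ = co F λ c2f F λ = zw (mo Ds + v2) zw (-v2)` if `3 ∤ v2` (`co_la`, `crm_la`), `= zw (mo Ds + v2) = zw (mo Ds)` if `3 ∣ v2`; `= 1` iff `mo Ds = 0` iff (with `mn Ds = 0`) `9 ∣ Ds - 1` iff `λ ^ 4 ∣ c - η`.
-/

set_option autoImplicit false

open NumberField IsDedekindDomain Filter Topology
open scoped Classical ComplexConjugate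

namespace J2D

open CM27 JZ
open CU (la eE)
open CUL (Nl ez DS Cont LV IsRep rp cr mn mo zw GalU)
open JGL (Fac sl)
open Q3 (Adm Dd Prim tt r3)
open Q3L (c2 sg cx fQ Dec)
open J2L

variable {D : Eis}

/-! ### auxiliary lemmas -/

theorem U4_ne (F : Fac D) : D ≠ 0 := by
  have := eis_isDomain
  intro h0
  have h := F.hD.symm.trans h0
  have h1 : F.η ≠ 0 := by
    rcases F.hη with h | h <;> rw [h] <;> decide
  have h2 : CU.om ^ F.i ≠ 0 := pow_ne_zero _ (by decide)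
  have h3 : la ^ F.v ≠ 0 := pow_ne_zero _ (by decide)
  have h4 : F.Ds ≠ 0 := by
    intro h5
    have h6 := (primary_iff F.Ds).1 F.hDs
    rw [h5] at h6
    have h7 : (0 : Eis).re = 0 := rfl
    rw [h7] at h6
    omega
  exact mul_ne_zero (mul_ne_zero (mul_ne_zero h1 h2) h3) h4 h

theorem U4_la (F : Fac D) (h : ¬ Un F) : la ∣ fL F :=
  (la_fL F).2 fun h1 => h (goodL_un F (U4_ne F) h1)

theorem U4_gla (F : Fac D) : gla F ∣ la ^ 4 := by
  unfold gla
  split_ifs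
  · exact one_dvd _
  · exact pow_dvd_pow _ (by norm_num)
  · exact pow_dvd_pow _ (by norm_num)
  · exact dvd_rfl

theorem U4_zmod (n : ℕ) : ((n : ZMod 3) = 0) ↔ 3 ∣ n := ZMod.natCast_eq_zero_iff n 3

/-- the relation to the level -/
theorem kpC_k (F : Fac D) {x : Eis} (hx : IsCoprime x (2 * fL F)) : kpC F x = conj (kL F x) * cr (-2) x ^ (v2 F : ZMod 3).val := by
  have := eis_isDomain
  have := eis_pid
  have hx2 : IsCoprime x 2 := hx.of_isCoprime_of_dvd_right (dvd_mul_right _ _)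
  have hxf : IsCoprime x (fL F) := hx.of_isCoprime_of_dvd_right (dvd_mul_left _ _)
  have hodd : ¬ (2 : Eis) ∣ x := fun h => Q3.prime_two.not_isUnit (hx2.isUnit_of_dvd' h dvd_rfl)
  have hodd' : ¬ (-2 : Eis) ∣ x := fun h => hodd ((neg_dvd).1 h)
  have hcop : IsCoprime x (gC F) := by
    unfold gC
    refine IsCoprime.mul_right (IsCoprime.mul_right ?_ ?_) ?_
    · by_cases hU : Un F
      · unfold gla
        rw [if_pos hU]
        exact isCoprime_one_right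
      · have h1 : IsCoprime x la := hxf.of_isCoprime_of_dvd_right (U4_la F hU)
        exact (h1.pow_right (n := 4)).of_isCoprime_of_dvd_right (U4_gla F)
    · split_ifs
      · exact isCoprime_one_right
      · exact hx2
    · refine IsCoprime.prod_right fun q hq => ?_
      have hq1 := (Finset.mem_filter.1 hq).1
      obtain ⟨h2, h3, -⟩ := So_spec F hq1
      exact hxf.of_isCoprime_of_dvd_right ((dvd_fL F h2 h3).2 hq1)
  unfold kpC kL
  rw [if_pos hcop, if_pos hxf, map_mul, Complex.conj_conj, c2f_odd F hodd]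
  have h5 : cr (-2) x ^ v2 F = cr (-2) x ^ (v2 F : ZMod 3).val := by
    rw [JGL.D5_cr_sy hodd', CUL.zw_pow, CUL.zw_pow, ZMod.natCast_zmod_val]
  rw [h5]
  ring

theorem gC_dvd (F : Fac D) (h0 : D ≠ 0) : gC F ∣ (if (v2 F : ZMod 3) = 0 then fL F else 2 * fL F) := by
  have h1 : gla F ∣ (if JG.GoodL D then 1 else 9 : Eis) := by
    by_cases hU : Un F
    · unfold gla
      rw [if_pos hU]
      exact one_dvd _
    · rw [if_neg fun h => hU (goodL_un F h0 h)]
      exact (U4_gla F).trans ⟨CU.om, by decide⟩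
  have h2 : ∏ p ∈ Sr F, p ∣ ∏ p ∈ So F, p := Finset.prod_dvd_prod_of_subset _ _ _ (Finset.filter_subset _ _)
  unfold gC fL
  by_cases h3 : 3 ∣ v2 F
  · rw [if_pos h3, if_pos ((U4_zmod _).2 h3), mul_one]
    exact mul_dvd_mul h1 h2
  · rw [if_neg h3, if_neg fun h => h3 ((U4_zmod _).1 h)]
    have h4 : gla F * 2 * ∏ p ∈ Sr F, p = 2 * (gla F * ∏ p ∈ Sr F, p) := by ring
    rw [h4]
    exact mul_dvd_mul_left 2 (mul_dvd_mul h1 h2)

/-- the Tamagawa condition -/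
theorem kpC_tam (F : Fac D) (h : JT.Cl2 D) {p : Eis} (hp : Prime p) (hpf : p ∣ fL F) : kpC F p ≠ 1 := by
  have := eis_isDomain
  have := eis_pid
  have h0 := U4_ne F
  by_cases hg : p ∣ gC F
  · unfold kpC
    rw [if_neg]
    · exact zero_ne_one
    · intro hc
      exact hp.not_isUnit (hc.isUnit_of_dvd' dvd_rfl hg)
  unfold fL at hpf
  rcases hp.dvd_or_dvd hpf with h1 | h1
  · -- `p` is associated to `la`
    have hG : ¬ JG.GoodL D := by
      intro hG
      rw [if_pos hG] at h1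
      exact hp.not_isUnit (isUnit_of_dvd_one h1)
    rw [if_neg hG] at h1
    have h9 : (9 : Eis) = la ^ 4 * CU.om := by decide
    rw [h9] at h1
    have h2 : p ∣ la := by
      rcases hp.dvd_or_dvd h1 with h2 | h2
      · exact hp.dvd_of_dvd_pow h2
      · exact absurd (isUnit_of_dvd_unit h2 CU.om_unit) hp.not_isUnit
    obtain ⟨u, hu⟩ := (hp.dvd_prime_iff_associated CUL.la_prime).1 h2
    have h3 : kpC F la = kpC F p := by
      rw [← hu, kpC_mul, kpC_unit F u.isUnit, mul_one]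
    rw [← h3]
    have hgl : ¬ la ∣ gC F := by
      intro h4
      apply hg
      exact (Dvd.intro _ hu).trans h4
    obtain ⟨c, hc, hcη⟩ := JGL.fac_la F
    have hnc : ¬ la ∣ c := by
      intro h4
      have h5 : la ∣ F.η := by
        have h6 : F.η = c - (c - F.η) := by ring
        rw [h6]
        exact dvd_sub h4 hcη
      have h7 : IsUnit F.η := by
        rcases F.hη with h | h <;> rw [h]
        · exact isUnit_one
        · exact isUnit_one.neg
      exact CUL.la_prime.not_isUnit (isUnit_of_dvd_unit h5 h7)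
    obtain ⟨r1, r2⟩ := kpC_ramL F h0 hc hnc
    have h4 : 3 ∣ F.v ∧ ∃ η : Eis, (η = 1 ∨ η = -1) ∧ la ^ 3 ∣ c - η := by
      by_contra h5
      exact hgl (r1.2 h5)
    intro h5
    obtain ⟨η', hη', h6⟩ := (r2 h4.1 h4.2).1 h5
    have hv := F.hv
    obtain ⟨k, hk⟩ := h4.1
    have hk2 : k = 0 ∨ k = 1 := by omega
    rcases hk2 with rfl | rfl
    · have hv0 : F.v = 0 := by omega
      rw [hv0, pow_zero, one_mul] at hc
      rw [← hc] at h6
      exact h.lam η' hη' h6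
    · have hv3 : F.v = 3 := by omega
      rw [hv3] at hc
      obtain ⟨η, hη, t, ht⟩ := h4.2
      apply hG
      refine ⟨η, t, hη, ?_⟩
      have h8 : c = η + la ^ 3 * t := by linear_combination ht
      rw [← h8]
      exact hc
  · -- `p` is associated to an element of `So`
    obtain ⟨q, hq, h2⟩ := (hp.dvd_finsetProd_iff _).1 h1
    obtain ⟨hqp, hqP, hq2, hql, -⟩ := So_spec F hq
    have hqS : q ∈ F.S := Finset.mem_of_mem_erase hq
    have hqm : q ≠ -2 := Finset.ne_of_mem_erase hq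
    obtain ⟨u, hu⟩ := (hp.dvd_prime_iff_associated hqp).1 h2
    have hqr : q ∉ Sr F := by
      intro h3
      apply hg
      refine h2.trans ?_
      unfold gC
      exact (Finset.dvd_prod_of_mem (fun q : Eis => q) h3).mul_left _
    have hE : 3 ∣ F.E q := by
      by_contra h3
      exact hqr (Finset.mem_filter.2 ⟨hq, h3⟩)
    have hE3 : F.E q = 3 := by
      have h3 := F.hE q hqS
      have h4 := F.hE6 q hqS hqm
      obtain ⟨k, hk⟩ := hE
      omega
    obtain ⟨c, hc, hnc⟩ := JGL.fac_pow F hqS hqm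
    have hpq : q ∣ p := by
      obtain ⟨v, hv⟩ := u.isUnit.exists_right_inv
      refine ⟨v, ?_⟩
      have h3 : p * (u : Eis) * v = q * v := by rw [hu]
      rw [mul_assoc, hv, mul_one] at h3
      exact h3
    have hc' : D = p ^ 3 * ((u : Eis) ^ 3 * c) := by
      rw [hE3, ← hu] at hc
      exact hc.trans (by ring)
    have hnc' : ¬ p ∣ (u : Eis) ^ 3 * c := by
      intro h3
      rcases hp.dvd_or_dvd h3 with h4 | h4
      · exact hp.not_isUnit (isUnit_of_dvd_unit (hp.dvd_of_dvd_pow h4) u.isUnit)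
      · exact hnc (hpq.trans h4)
    have hp3 : ¬ p ∣ 3 := by
      intro h3
      have h4 : q ∣ (3 : Eis) := hpq.trans h3
      rw [CU.three_eq] at h4
      rcases hqp.dvd_or_dvd h4 with h5 | h5
      · exact hqp.not_isUnit (isUnit_of_dvd_unit h5 (CU.om_unit.pow 2).neg)
      · exact hql (hqp.dvd_of_dvd_pow h5)
    have hp6 : ¬ p ∣ 6 := by
      intro h3
      have h4 : (6 : Eis) = 2 * 3 := by decide
      rw [h4] at h3
      rcases hp.dvd_or_dvd h3 with h5 | h5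
      · exact hq2 (hpq.trans h5)
      · exact hp3 h5
    intro h3
    obtain ⟨y, hy⟩ := ((kpC_ram F h0 hp hp3 hc' hnc').2 ⟨1, rfl⟩).1 h3
    refine h.odd p _ hp hp6 hnc' hc' y ?_
    have h4 : (u : Eis) ^ 3 * c - y ^ 3 = -(y ^ 3 - (u : Eis) ^ 3 * c) := by ring
    rw [h4]
    exact (dvd_neg).2 hy

theorem U4_zeta {ζ : Eis} (h : ζ ^ 3 = 1) : ∃ j : ZMod 3, emb ζ = zw j ∧ cr (-2) ζ = zw j := by
  have := eis_isDomain
  have h1 : (ζ - 1) * ((ζ - CU.om) * (ζ - CU.om ^ 2)) = 0 := by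
    have h2 : CU.om ^ 2 + CU.om + 1 = 0 := by decide
    have h3 : CU.om ^ 3 = 1 := by decide
    linear_combination h - (ζ ^ 2 - ζ) * h2 - (1 - ζ) * h3 + 0 * h2
  have hw : zw 1 = w := by
    unfold zw
    have : (1 : ZMod 3).val = 1 := rfl
    rw [this, pow_one]
  rcases mul_eq_zero.1 h1 with h2 | h2
  · have h3 : ζ = 1 := by linear_combination h2
    refine ⟨0, ?_, ?_⟩
    · rw [h3, map_one, CUL.zw_zero]
    · rw [h3, CUL.cr_one JL.b3_two JL.b3_twoP, CUL.zw_zero]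
  rcases mul_eq_zero.1 h2 with h2 | h2
  · have h3 : ζ = CU.om := by linear_combination h2
    refine ⟨1, ?_, ?_⟩
    · rw [h3, CUL.emb_om, hw]
    · rw [h3, crm_om]
  · have h3 : ζ = CU.om ^ 2 := by linear_combination h2
    refine ⟨1 + 1, ?_, ?_⟩
    · rw [h3, map_pow, CUL.emb_om, CUL.zw_add, hw, pow_two]
    · rw [h3, CUL.cr_pow JL.b3_two JL.b3_twoP, crm_om, CUL.zw_add, pow_two]

/-- the value at `2` -/
theorem kL_two (F : Fac D) (Z : Zd F) : kL F 2 * emb Z.ζ = 1 := by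
  have := eis_isDomain
  have := eis_pid
  have h1 : IsCoprime (2 : Eis) (fL F) := (Q3.prime_two.irreducible.coprime_iff_not_dvd).2 (fL_odd F)
  have h2 : co F 2 = co F (-2) := (co_neg F 2).symm
  have hla2 : ¬ la ∣ 2 := by
    rw [CUL.la_dvd_iff]
    decide
  have h3 : kl F 2 = JGL.ka (-(F.v : ZMod 3)) F.i (-2) := by
    unfold kl
    rw [← kz_prim (-mn F.Ds) _ _ JL.b3_twoP, kz_neg _ _ _ hla2]
  have hs : ∀ n : ℕ, (-1 : Eis) ^ n = 1 ∨ (-1 : Eis) ^ n = -1 := neg_one_pow_eq_or Eis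
  have h4 : D = (-2) ^ v2 F * ((-1) ^ v2 F * Z.D₀) := by
    have h5 : ((-2 : Eis)) ^ v2 F * ((-1) ^ v2 F * Z.D₀) = 2 ^ v2 F * Z.D₀ := by
      rw [← mul_assoc, ← mul_pow]
      norm_num
    rw [h5]
    exact Z.hD
  have h5 := co_two F h4
  have h6 : cr (-2) ((-1) ^ v2 F * Z.D₀) = cr (-2) Z.D₀ := by
    rcases hs (v2 F) with h | h <;> rw [h]
    · rw [one_mul]
    · rw [neg_one_mul, crm_neg]
  have h7 : cr (-2) Z.D₀ = cr (-2) Z.ζ := by
    refine CUL.cr_congr JL.b3_two JL.b3_twoP ?_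
    obtain ⟨t, ht⟩ := Z.hδ
    exact ⟨-(2 * t + Z.ζ * Z.δ), by linear_combination ht⟩
  obtain ⟨j, hj, hj'⟩ := U4_zeta Z.hζ
  have h8 : kL F 2 = conj (zw j) := by
    unfold kL
    rw [if_pos h1, h2, h3, ← hj', ← h7, ← h6, ← h5, map_mul, Complex.conj_conj]
  rw [h8, hj, CUL.zw_conj, ← CUL.zw_add, neg_add_cancel, CUL.zw_zero]

end J2D
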