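import Pool.Agent.J2D.S1
import Pool.Agent.J2D.U4
import Pool.Agent.JGL.Q5
import Pool.Agent.JGL.D8

/-!
# [J2D-S4] the value at `2`
-/

set_option autoImplicit false

open NumberField IsDedekindDomain Filter Topology
open scoped Classical ComplexConjugate

namespace J2D

open CM27 JZ
open CU (la eE)
open CUL (Nl ez DS Cont LV IsRep rp cr mn mo zw GalU)
open JGL (Fac sl)
open Q3 (Adm Dd Prim tt r3)
open Q3L (c2 sg cx fQ Dec)
open J2L

variable {D : Eis}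

omit D in
theorem s4_et (u : Eis) : Q3L.et (1 + 4 * u) = 0 ↔ (2 : ℤ) ∣ u.im := by
  have e : (1 + 4 * u).im = 4 * u.im := by
    rw [QuadraticAlgebra.im_add, QuadraticAlgebra.im_one, zero_add, Q3L.k1_four, QuadraticAlgebra.im_mul]
    ring
  unfold Q3L.et
  rw [e, Int.mul_ediv_cancel_left _ (by norm_num), ZMod.intCast_zmod_eq_zero_iff_dvd]
  exact Iff.rfl

omit D in
/-- an odd number is a cube root of unity modulo `2` -/
theorem s4_odd {x : Eis} (h : ¬ (2 : Eis) ∣ x) : ∃ (z y : Eis), z ^ 3 = 1 ∧ x = z * (1 + 2 * y) := by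
  rcases JGL.d8b_odd h with ⟨k, hk⟩ | ⟨k, hk⟩ | ⟨k, hk⟩
  · exact ⟨1, k, one_pow 3, by linear_combination hk⟩
  · refine ⟨CU.om, CU.om ^ 2 * k, by decide, ?_⟩
    have e : CU.om ^ 3 = (1 : Eis) := by decide
    linear_combination hk - 2 * k * e
  · refine ⟨CU.om ^ 2, CU.om * k, by decide, ?_⟩
    have e : CU.om ^ 3 = (1 : Eis) := by decide
    linear_combination hk - 2 * k * e

omit D in
theorem s4_root {z : Eis} (h : z ^ 3 = 1) : z = 1 ∨ z = CU.om ∨ z = CU.om ^ 2 := by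
  have hdom := eis_isDomain
  have e : (z - 1) * ((z - CU.om) * (z - CU.om ^ 2)) = 0 := by
    have h1 : CU.om ^ 2 + CU.om + 1 = (0 : Eis) := by decide
    have h2 : CU.om ^ 3 = (1 : Eis) := by decide
    linear_combination h + (-z ^ 2 + z) * h1 + (z - 1) * h2
  rcases mul_eq_zero.1 e with h1 | h1
  · exact Or.inl (sub_eq_zero.1 h1)
  · rcases mul_eq_zero.1 h1 with h2 | h2
    · exact Or.inr (Or.inl (sub_eq_zero.1 h2))
    · exact Or.inr (Or.inr (sub_eq_zero.1 h2))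

omit D in
theorem s4_inj {z y : Eis} (hz : z ^ 3 = 1) (hy : y ^ 3 = 1) (h : (2 : Eis) ∣ z - y) : z = y := by
  rcases s4_root hz with h1 | h1 | h1 <;> rcases s4_root hy with h2 | h2 | h2 <;> rw [h1, h2] at h ⊢ <;>
    (rw [Q3L.two_dvd_iff] at h; exact absurd h (by decide))

omit D in
theorem s4_cast {z : Eis} (hz : z ^ 3 = 1) : z ^ 2 = 1 ∨ z ^ 2 = CU.om ^ 2 ∨ z ^ 2 = CU.om := by
  rcases s4_root hz with h1 | h1 | h1 <;> rw [h1] <;> decide

/-- the structure of `D` in the case of good reduction at `2` -/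
theorem s4_struct (F : Fac D) (S : Sq D) (Z : Zd F) (h0 : D ≠ 0) (hv : v2 F = 4) (hδ : (2 : Eis) ∣ Z.δ) :
    S.c = 1 ∧ ∃ u y : Eis, (∏ p ∈ S.T, p) = 1 + 4 * u ∧ Z.D₀ = (Z.ζ ^ 2 * (1 + 2 * y)) ^ 2 * (1 + 4 * u) := by
  have hdom := eis_isDomain
  obtain ⟨hPr, -⟩ := JL.b2_tt_prod S.T fun p hp => (S.adm.1 p hp).2
  have hD := Z.hD
  rw [hv] at hD
  have hDm : D = Dd S.c S.T * S.m ^ 2 := by
    have h1 := S.hD
    calc D = S.m ^ 2 * Dd S.c S.T := h1
      _ = Dd S.c S.T * S.m ^ 2 := mul_comm _ _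
  rcases JGL.parity hDm h0 (JGL.q4_sqf S.adm) Q3.prime_two hD Z.hD₀ with ⟨h1, k, m', -, -, h2⟩ | ⟨k, m', d, -, h2, -⟩
  swap
  · omega
  have hm : ¬ (2 : Eis) ∣ m' := by
    intro h
    apply Z.hD₀
    rw [h2]
    exact (h.trans (dvd_pow_self m' two_ne_zero)).mul_left _
  obtain ⟨z, y, hz, hy⟩ := s4_odd hm
  have hζ := Z.hζ
  have h4 : (4 : Eis) ∣ Z.D₀ - Z.ζ := by
    obtain ⟨a, ha⟩ := hδ
    obtain ⟨b, hb⟩ := Z.hδ
    exact ⟨b + Z.ζ * a, by linear_combination hb + 2 * Z.ζ * ha⟩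
  have h5 : (4 : Eis) ∣ Dd S.c S.T - Z.ζ * z := by
    obtain ⟨b, hb⟩ := h4
    have e1 : m' ^ 2 = z ^ 2 * (1 + 4 * (y + y ^ 2)) := by
      rw [hy]
      ring
    refine ⟨z * b - Dd S.c S.T * (y + y ^ 2), ?_⟩
    have e2 : Dd S.c S.T * (z ^ 2 * (1 + 4 * (y + y ^ 2))) = Z.ζ + 4 * b := by
      rw [← e1, ← h2]
      linear_combination hb
    linear_combination z * e2 - (Dd S.c S.T * (1 + 4 * (y + y ^ 2))) * hz
  have hzz : (Z.ζ * z) ^ 3 = 1 := by rw [mul_pow, hζ, hz, one_mul]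
  have hcase : Z.ζ * z = 1 ∨ Z.ζ * z = CU.om ^ 2 ∨ Z.ζ * z = CU.om := by
    rcases s4_root hzz with h | h | h
    · exact Or.inl h
    · exact Or.inr (Or.inr h)
    · exact Or.inr (Or.inl h)
  unfold Q3.Dd at h5 h2 h1
  have hc2 : ∀ c' : Eis, S.c = 2 * c' → False := by
    intro c' hc
    apply h1
    rw [hc, mul_assoc]
    exact dvd_mul_right _ _
  have hfin : S.c = 1 ∧ ∃ u : Eis, (∏ p ∈ S.T, p) = 1 + 4 * u := by
    rcases S.adm.2 with hc | hc | hc | hc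
    · refine ⟨hc, ?_⟩
      rcases Q3L.prim_cases hPr with ⟨-, k, hk⟩ | ⟨-, k, hk⟩
      · exact ⟨k, hk⟩
      · exfalso
        refine JGL.q5_no r3 (Z.ζ * z) (Or.inr (Or.inl rfl)) hcase ?_
        have e : r3 - Z.ζ * z = (S.c * (∏ p ∈ S.T, p) - Z.ζ * z) - 4 * k := by
          rw [hc, hk]
          ring
        rw [e]
        exact dvd_sub h5 (Dvd.intro _ rfl)
    · exfalso
      rcases Q3L.prim_cases hPr with ⟨-, k, hk⟩ | ⟨-, k, hk⟩
      · refine JGL.q5_no (-1) (Z.ζ * z) (Or.inl rfl) hcase ?_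
        have e : -1 - Z.ζ * z = (S.c * (∏ p ∈ S.T, p) - Z.ζ * z) + 4 * k := by
          rw [hc, hk]
          ring
        rw [e]
        exact dvd_add h5 (Dvd.intro _ rfl)
      · refine JGL.q5_no (-r3) (Z.ζ * z) (Or.inr (Or.inr rfl)) hcase ?_
        have e : -r3 - Z.ζ * z = (S.c * (∏ p ∈ S.T, p) - Z.ζ * z) + 4 * k := by
          rw [hc, hk]
          ring
        rw [e]
        exact dvd_add h5 (Dvd.intro _ rfl)
    · exact absurd (hc2 1 (by rw [hc]; ring)) not_false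
    · exact absurd (hc2 (-1) (by rw [hc]; ring)) not_false
  obtain ⟨hc, u, hu⟩ := hfin
  refine ⟨hc, u, y, hu, ?_⟩
  have hz1 : Z.ζ * z = 1 := by
    apply s4_inj hzz (one_pow 3)
    have e : Z.ζ * z - 1 = 4 * u - (S.c * (∏ p ∈ S.T, p) - Z.ζ * z) := by
      rw [hc, hu]
      ring
    rw [e]
    have h24 : (2 : Eis) ∣ 4 := ⟨2, by norm_num⟩
    exact dvd_sub (h24.mul_right _) (h24.trans h5)
  have hz2 : z = Z.ζ ^ 2 := by
    linear_combination Z.ζ ^ 2 * hz1 - z * hζ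
  rw [h2, hc, hu, hy, hz2]
  ring

/-- the quadratic character at `2` -/
theorem s4_q (F : Fac D) (S : Sq D) (hc : S.c = 1) {u : Eis} (hu : (∏ p ∈ S.T, p) = 1 + 4 * u) {L : Lv} (hL : IsLv F S L) :
    (L.q 2 = 1 ∨ L.q 2 = -1) ∧ (L.q 2 = -1 ↔ (2 : ℤ) ∣ u.im) := by
  have hdom := eis_isDomain
  have hpid := eis_pid
  have h2 : IsCoprime (2 : Eis) (fL F) := (Q3.prime_two.coprime_iff_not_dvd).2 (fL_odd F)
  have h2' : IsCoprime (2 : Eis) L.f := by
    rw [hL.hf]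
    exact h2
  refine ⟨L.q_pm 2 h2', ?_⟩
  have hAdm : Adm 1 S.T := by
    have h := S.adm
    rw [hc] at h
    exact h
  have e1 : ((L.q 2 : ℤ) : ℂ) = -∏ p ∈ S.T, c2 p 2 := by
    rw [hL.hq]
    unfold qL
    rw [if_pos h2, Int.cast_mul, Int.cast_prod, Finset.prod_congr rfl fun p _ => ci_c2 p 2]
    by_cases hr : r3 ∈ S.T
    · rw [if_pos hr, ← Finset.mul_prod_erase S.T (fun p => c2 p 2) hr, JGL.q1_c2_r3, JGL.q1_sl_two]
      push_cast
      ring
    · rw [if_neg hr, Finset.erase_eq_of_notMem hr, JGL.q1_sl_two]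
      push_cast
      ring
  have e2 : ∏ p ∈ S.T, c2 p 2 = sg (∑ p ∈ S.T, (tt p + Q3L.et p)) := JGL.q3_two hAdm
  obtain ⟨hPr, hPt⟩ := JL.b2_tt_prod S.T fun p hp => (S.adm.1 p hp).2
  have e3 : ∑ p ∈ S.T, tt p = 0 := by
    rw [← hPt]
    rcases Q3L.prim_cases hPr with ⟨h, -⟩ | ⟨-, k, hk⟩
    · exact h
    · exfalso
      refine JGL.q5_no r3 1 (Or.inr (Or.inl rfl)) (Or.inl rfl) ?_
      exact ⟨u - k, by linear_combination hu - hk⟩
  rw [e2, Finset.sum_add_distrib, e3, zero_add, ← JGL.q5_et_prod S.T fun p hp => (S.adm.1 p hp).2, hu] at e1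
  rw [← s4_et]
  constructor
  · intro h
    rw [h] at e1
    apply Q3L.sg_inj
    rw [Q3L.sg_zero]
    push_cast at e1
    linear_combination e1
  · intro h
    rw [h, Q3L.sg_zero] at e1
    exact_mod_cast e1

/-- the value at `2` -/
theorem exists_p2 (F : Fac D) (S : Sq D) (Z : Zd F) (h0 : D ≠ 0) {L : Lv} (hL : IsLv F S L) :
    ∃ p₂ : Eis, JG.Val2 D p₂ ∧ emb p₂ = conj (rho L (v2 F) Z.δ 2) * emb 2 := by
  have hdom := eis_isDomain
  by_cases hG : JG.Good2 D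
  swap
  · refine ⟨0, Or.inl ⟨hG, rfl⟩, ?_⟩
    have h1 : ¬ n2 (v2 F) Z.δ = 0 := fun h => hG ((n2_zero_iff F Z h0).1 h)
    unfold rho
    rw [if_neg h1]
    unfold r2
    rw [q2_even _ _ dvd_rfl, Int.cast_zero, zero_mul, mul_zero, map_zero, map_zero, zero_mul]
  have hn : n2 (v2 F) Z.δ = 0 := (n2_zero_iff F Z h0).2 hG
  obtain ⟨hv, hδ⟩ := n2_zero hn
  obtain ⟨hc, u, y, hu, hD₀⟩ := s4_struct F S Z h0 hv hδ
  obtain ⟨hq, hq'⟩ := s4_q F S hc hu hL
  have hζ := Z.hζ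
  have hD := Z.hD
  rw [hv] at hD
  have hk2 : conj (L.k 2) = emb Z.ζ := by
    have h1 := kL_two F Z
    rw [← hL.hk] at h1
    have h2 : emb Z.ζ * conj (emb Z.ζ) = 1 := by
      have h3 : ‖emb Z.ζ‖ = 1 := by
        have h4 : ‖emb Z.ζ‖ ^ 3 = 1 := by
          rw [← norm_pow, ← map_pow, hζ, map_one, norm_one]
        exact (pow_eq_one_iff_of_nonneg (norm_nonneg _) (by norm_num)).1 h4
      rw [Complex.mul_conj, Complex.normSq_eq_norm_sq, h3]
      norm_num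
    have h3 : L.k 2 = conj (emb Z.ζ) := by
      linear_combination conj (emb Z.ζ) * h1 - L.k 2 * h2
    rw [h3, Complex.conj_conj]
  -- the equation
  set s : Eis := Z.ζ ^ 2 with hs
  have hs2 : s ^ 2 = Z.ζ := by
    rw [hs]
    linear_combination Z.ζ * hζ
  obtain ⟨c, hcc⟩ : ∃ c : Eis, c = Z.ζ * ((y + y ^ 2) + u * (1 + 4 * (y + y ^ 2))) := ⟨_, rfl⟩
  have hD' : D = 16 * (s ^ 2 + 4 * c) := by
    have e1 : (2 : Eis) ^ 4 = 16 := by norm_num
    calc D = 2 ^ 4 * Z.D₀ := hD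
      _ = 16 * ((s * (1 + 2 * y)) ^ 2 * (1 + 4 * u)) := by rw [e1, hD₀]
      _ = 16 * (s ^ 2 + 4 * c) := by
        rw [hcc]
        linear_combination (16 * (4 * ((y + y ^ 2) + u * (1 + 4 * (y + y ^ 2))))) * hs2
  have hs3 : s ^ 3 = 1 := by
    rw [hs]
    linear_combination (Z.ζ ^ 3 + 1) * hζ
  have hsodd : ¬ (2 : Eis) ∣ s := by
    intro h
    have h1 : (2 : Eis) ∣ 1 := by
      rw [← hs3]
      exact h.trans (dvd_pow_self s (by norm_num))
    exact Q3.prime_two.not_isUnit (isUnit_of_dvd_one h1)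
  have hroot : (∃ x : Eis, (2 : Eis) ∣ c - x ^ 2 - s * x) ↔ (2 : ℤ) ∣ u.im := by
    have h1 := JGL.q5_root u
    rw [← h1]
    have h24 : (4 : Eis) = 2 * 2 := by norm_num
    constructor
    · rintro ⟨x, k, hk⟩
      refine ⟨s ^ 2 * x + y, ?_⟩
      refine ⟨s * k - 2 * u * (y + y ^ 2) + s ^ 4 * x ^ 2 + s ^ 2 * x * y - y, ?_⟩
      have e1 : s * Z.ζ = 1 := by rw [← hs2, ← pow_succ', hs3]
      have e2 : s * c = (y + y ^ 2) + u * (1 + 4 * (y + y ^ 2)) := by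
        rw [hcc]
        linear_combination ((y + y ^ 2) + u * (1 + 4 * (y + y ^ 2))) * e1
      linear_combination s * hk - e2 - (s * x ^ 2) * hs3
    · rintro ⟨x, k, hk⟩
      refine ⟨s * (x + y), ?_⟩
      refine ⟨Z.ζ * (k - x ^ 2 - x * y + 2 * u * (y + y ^ 2)), ?_⟩
      rw [hcc]
      linear_combination Z.ζ * hk - ((x + y) ^ 2 + (x + y)) * hs2
  have hone : Z.ζ = 1 ↔ (2 : Eis) ∣ s - 1 := by
    constructor
    · intro h
      rw [hs, h]
      norm_num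
    · intro h
      have h1 := s4_inj hs3 (one_pow 3) h
      rw [← hs2, h1, one_pow]
  refine ⟨2 * (L.q 2 : Eis) * Z.ζ, Or.inr ⟨s, c, -(L.q 2 : Eis), Z.ζ, hsodd, hD', by ring, ?_, ?_, hζ, hone⟩, ?_⟩
  · rcases hq with h | h
    · right
      rw [h, Int.cast_one]
    · left
      rw [h, Int.cast_neg, Int.cast_one, neg_neg]
  · rw [hroot, ← hq']
    rcases hq with h | h
    · rw [h, Int.cast_one]
      constructor
      · intro h1
        exact absurd h1 (by decide)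
      · intro h1
        exact absurd h1 (by norm_num)
    · rw [h, Int.cast_neg, Int.cast_one, neg_neg]
      exact ⟨fun _ => rfl, fun _ => rfl⟩
  · unfold rho
    rw [if_pos hn, mul_one]
    simp only [map_mul, map_intCast, hk2, map_ofNat]
    ring

end J2D
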