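import Pool.Agent.J2D.S1
import Pool.Agent.JGL.Q5
import Pool.Agent.JGL.D9

/-!
# [J2D-S5] the value at `λ`
-/

set_option autoImplicit false

open NumberField IsDedekindDomain Filter Topology
open scoped Classical ComplexConjugate

namespace J2D

open CM27 JZ
open CU (la eE)
open CUL (Nl ez DS Cont LV IsRep rp cr mn mo zw GalU)
open JGL (Fac sl)
open Q3 (Adm Dd Prim tt r3)
open Q3L (c2 sg cx fQ Dec)
open J2L

variable {D : Eis}

omit D in
theorem s5_sl_prod (s : Finset Eis) : sl (∏ p ∈ s, p) = ∏ p ∈ s, sl p := by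
  induction s using Finset.induction_on with
  | empty => rw [Finset.prod_empty, Finset.prod_empty, JGL.q1_sl_one]
  | insert a t ha ih => rw [Finset.prod_insert ha, Finset.prod_insert ha, JGL.q1_sl_mul, ih]

omit D in
theorem s5_sl_c {c : Eis} {T : Finset Eis} (h : Adm c T) : ((sl c : ℤ) : ℂ) * sg (cx c r3) = 1 ∧ sl c * sl c = 1 := by
  have e1 : sl (-2) = 1 := by
    rw [JGL.q1_sl]
    decide
  obtain ⟨x1, x2, x3, x4⟩ := Q3L.cx_r3
  rcases h.2 with hc | hc | hc | hc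
  · rw [hc, JGL.q1_sl_one, x1, Q3L.sg_zero]
    norm_num
  · rw [hc, JGL.q1_sl_neg, x2, Q3L.sg_one]
    norm_num
  · rw [hc, JGL.q1_sl_two, x3, Q3L.sg_one]
    norm_num
  · rw [hc, e1, x4, Q3L.sg_zero]
    norm_num

/-- the sign of the odd part -/
theorem s5_sign (F : Fac D) (S : Sq D) (hr : r3 ∈ S.T) (hv : F.v = 3) (hi : F.i = 0) :
    sl S.c * ∏ p ∈ S.T.erase r3, sl p = sl F.η := by
  have hdom := eis_isDomain
  have hla := CUL.la_prime
  have hP : ∏ p ∈ S.T, p = r3 * ∏ p ∈ S.T.erase r3, p := (Finset.mul_prod_erase S.T (fun q => q) hr).symm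
  have e1 : S.m ^ 2 * (S.c * (CU.om * ∏ p ∈ S.T.erase r3, p)) = F.η * la ^ 2 * F.Ds := by
    have e2 : la * (S.m ^ 2 * (S.c * (CU.om * ∏ p ∈ S.T.erase r3, p))) = la * (F.η * la ^ 2 * F.Ds) := by
      have h1 := F.hD
      rw [hv, hi] at h1
      have h2 := S.hD
      unfold Q3.Dd at h2
      rw [hP] at h2
      calc la * (S.m ^ 2 * (S.c * (CU.om * ∏ p ∈ S.T.erase r3, p)))
          = S.m ^ 2 * (S.c * (CU.om * la * ∏ p ∈ S.T.erase r3, p)) := by ring
        _ = S.m ^ 2 * (S.c * (r3 * ∏ p ∈ S.T.erase r3, p)) := by rw [← JGL.q1_r3_eq]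
        _ = D := h2.symm
        _ = F.η * CU.om ^ 0 * la ^ 3 * F.Ds := h1
        _ = la * (F.η * la ^ 2 * F.Ds) := by ring
    exact mul_left_cancel₀ hla.ne_zero e2
  have hcl : ¬ la ∣ S.c := by
    intro h
    have h1 := (s5_sl_c S.adm).2
    rw [JGL.q1_sl_zero h] at h1
    exact absurd h1 (by norm_num)
  have hPl : ¬ la ∣ ∏ p ∈ S.T.erase r3, p := JGL.q4_la_erase S.adm
  have hml : la ∣ S.m := by
    have h1 : la ∣ S.m ^ 2 * (S.c * (CU.om * ∏ p ∈ S.T.erase r3, p)) := by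
      rw [e1]
      exact ⟨F.η * la * F.Ds, by ring⟩
    rcases hla.dvd_or_dvd h1 with h2 | h2
    · exact hla.dvd_of_dvd_pow h2
    · rcases hla.dvd_or_dvd h2 with h3 | h3
      · exact absurd h3 hcl
      · rcases hla.dvd_or_dvd h3 with h4 | h4
        · exact absurd h4 (JGL.d9_la_unit JL.b4_om)
        · exact absurd h4 hPl
  obtain ⟨m', hm'⟩ := hml
  have e3 : m' ^ 2 * (S.c * (CU.om * ∏ p ∈ S.T.erase r3, p)) = F.η * F.Ds := by
    have h1 : la ^ 2 * (m' ^ 2 * (S.c * (CU.om * ∏ p ∈ S.T.erase r3, p))) = la ^ 2 * (F.η * F.Ds) := by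
      rw [hm'] at e1
      linear_combination e1
    exact mul_left_cancel₀ (pow_ne_zero 2 hla.ne_zero) h1
  have hm : ¬ la ∣ m' := by
    intro h
    have h1 : la ∣ F.η * F.Ds := by
      rw [← e3]
      exact (h.trans (dvd_pow_self m' two_ne_zero)).mul_right _
    rcases hla.dvd_or_dvd h1 with h2 | h2
    · exact JGL.d9_la_unit (JGL.d9_eta_unit F) h2
    · exact CUL.primary_not_la F.hDs h2
  have h5 := congrArg sl e3
  rw [JGL.q1_sl_mul, JGL.d9_sl_sq hm, one_mul, JGL.q1_sl_mul, JGL.q1_sl_mul, JGL.q1_sl_om, one_mul, s5_sl_prod,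
    JGL.q1_sl_mul, JGL.q1_sl_primary F.hDs, mul_one] at h5
  exact h5

/-- the quadratic character at `λ` -/
theorem s5_q (F : Fac D) (S : Sq D) (Z : Zd F) (h0 : D ≠ 0) {L : Lv} (hL : IsLv F S L) (hG : JG.GoodL D) :
    ((L.q la : ℤ) : ℂ) * ((q2 (v2 F) Z.δ la : ℤ) : ℂ) = -((sl F.η : ℤ) : ℂ) := by
  have hdom := eis_isDomain
  have hpid := eis_pid
  obtain ⟨hv, hi, hmn⟩ := (goodL_iff F h0).1 hG
  have hr := r3_of_good F S h0 hG
  have hla : IsCoprime la (fL F) := (CUL.la_prime.coprime_iff_not_dvd).2 (fun h => (la_fL F).1 h hG)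
  have hr3 : IsCoprime r3 (fL F) := by
    rw [JGL.q1_r3_eq]
    exact (isCoprime_mul_unit_left_left CU.om_unit la (fL F)).2 hla
  have e1 : L.q la = L.q r3 := by
    rw [JGL.q1_r3_eq, L.q_mul, L.q_om, one_mul]
  have e2 : q2 (v2 F) Z.δ la = q2 (v2 F) Z.δ r3 := by
    rw [JGL.q1_r3_eq, q2_mul, q2_om, one_mul]
  have e3 : ((L.q r3 : ℤ) : ℂ) = ∏ p ∈ S.T.erase r3, sg (tt p) * ((sl p : ℤ) : ℂ) := by
    rw [hL.hq]
    unfold qL
    rw [if_pos hr3, if_pos hr, one_mul, Int.cast_prod]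
    refine Finset.prod_congr rfl fun p hp => ?_
    have hp' := Finset.mem_erase.1 hp
    obtain ⟨hp1, hp2⟩ := S.adm.1 p hp'.2
    rw [ci_c2, ← Q3L.c2_symm JGL.q1_r3_prime Q3.prim_r3 hp1 hp2 (Ne.symm hp'.1), Q3L.tt_r3, one_mul, JGL.q1_c2_r3]
  have hd : Dec r3 1 r3 := ⟨(one_mul r3).symm, isUnit_one, Q3.prim_r3⟩
  have e4 := q2_id F S Z h0 hd (e := 0) (Or.inl ⟨rfl, 0, (pow_zero _).symm⟩)
  rw [mul_zero, Q3L.sg_zero, mul_one, Q3L.tt_r3, mul_one, Q3L.sg_add] at e4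
  have e5 : ∑ p ∈ S.T, tt p = 1 + ∑ p ∈ S.T.erase r3, tt p := by
    rw [← Finset.add_sum_erase S.T tt hr, Q3L.tt_r3]
  have e6 := s5_sign F S hr hv hi
  have e7 : ((sl F.η : ℤ) : ℂ) = ((sl S.c : ℤ) : ℂ) * ∏ p ∈ S.T.erase r3, ((sl p : ℤ) : ℂ) := by
    rw [← e6]
    push_cast
    rfl
  have e8 := (s5_sl_c S.adm).1
  have e9 : ((sl S.c : ℤ) : ℂ) * ((sl S.c : ℤ) : ℂ) = 1 := by
    have h1 := (s5_sl_c S.adm).2
    exact_mod_cast h1
  have e10 : sg (cx S.c r3) = ((sl S.c : ℤ) : ℂ) := by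
    linear_combination ((sl S.c : ℤ) : ℂ) * e8 - sg (cx S.c r3) * e9
  have e11 := Q3L.sg_sq (∑ p ∈ S.T.erase r3, tt p)
  rw [e1, e2, e3, e4, e5, Q3L.sg_add, Q3L.sg_one, Finset.prod_mul_distrib, ← Q3L.sg_sum, e7, e10]
  linear_combination (-(((sl S.c : ℤ) : ℂ) * ∏ p ∈ S.T.erase r3, ((sl p : ℤ) : ℂ))) * e11

/-- the cubic character at `λ` -/
theorem s5_k (F : Fac D) (S : Sq D) (h0 : D ≠ 0) {L : Lv} (hL : IsLv F S L) (hG : JG.GoodL D) :
    conj (L.k la * cr (-2) la ^ L.j.val) = zw (1 + mo F.Ds) := by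
  have hdom := eis_isDomain
  have hpid := eis_pid
  obtain ⟨hv, hi, hmn⟩ := (goodL_iff F h0).1 hG
  have hla : IsCoprime la (fL F) := (CUL.la_prime.coprime_iff_not_dvd).2 (fun h => (la_fL F).1 h hG)
  have e1 : L.k la = conj (zw (mo F.Ds + (v2 F : ZMod 3))) := by
    rw [hL.hk]
    unfold kL kl
    rw [if_pos hla, co_la, hmn, hv, hi]
    have h1 : (-((3 : ℕ) : ZMod 3)) = 0 := by decide
    have h2 : ((0 : ℕ) : ZMod 3) = 0 := by decide
    rw [h1, h2, neg_zero, kz_zero, mul_one]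
  have e2 : cr (-2) la ^ L.j.val = zw (-L.j) := by
    rw [crm_la]
    have h1 : ∀ j : ZMod 3, zw (-1) ^ j.val = zw (-j) := by
      intro j
      have h2 : ∀ n : ℕ, zw (-1) ^ n = zw (-(n : ZMod 3)) := by
        intro n
        induction n with
        | zero =>
          rw [pow_zero, Nat.cast_zero, neg_zero]
          unfold CUL.zw
          rw [ZMod.val_zero, pow_zero]
        | succ n ih =>
          rw [pow_succ, ih, ← CUL.zw_add]
          congr 1
          push_cast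
          ring
      rw [h2, ZMod.natCast_zmod_val]
    exact h1 L.j
  rw [e1, e2, hL.hj, CUL.zw_conj, ← CUL.zw_add, CUL.zw_conj]
  congr 1
  ring

/-- the value at `λ` -/
theorem exists_pl (F : Fac D) (S : Sq D) (Z : Zd F) (h0 : D ≠ 0) {L : Lv} (hL : IsLv F S L) :
    ∃ pl : Eis, JG.ValL D pl ∧ emb pl = conj (rho L (v2 F) Z.δ la) * emb la := by
  have hdom := CM27.eis_isDomain
  by_cases hG : JG.GoodL D
  swap
  · refine ⟨0, Or.inl ⟨hG, rfl⟩, ?_⟩
    have h1 : ¬ IsCoprime la L.f := by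
      intro h
      rw [hL.hf] at h
      exact CUL.la_prime.not_isUnit (h.isUnit_of_dvd' dvd_rfl ((la_fL F).2 hG))
    unfold rho
    rw [L.q_zero _ h1, Int.cast_zero, zero_mul, zero_mul, map_zero, map_zero, zero_mul]
  have hrho : conj (rho L (v2 F) Z.δ la) = -((sl F.η : ℤ) : ℂ) * zw (1 + mo F.Ds) := by
    have h1 : rho L (v2 F) Z.δ la = ((L.q la : ℤ) : ℂ) * ((q2 (v2 F) Z.δ la : ℤ) : ℂ) * (L.k la * cr (-2) la ^ L.j.val) := by
      unfold rho
      by_cases hn : n2 (v2 F) Z.δ = 0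
      · have h2 : ¬ (2 : Eis) ∣ la := by
          rw [Q3L.k1_dvd 2 (by decide : (2 : Eis) = ⟨2, 0⟩)]
          decide
        have h3 := (n2_zero hn).1
        have h4 : L.j = 0 := by
          rw [hL.hj, h3]
          decide
        rw [if_pos hn, q2_triv hn h2, h4, ZMod.val_zero, pow_zero]
        push_cast
        ring
      · rw [if_neg hn]
        unfold r2
        ring
    rw [h1, s5_q F S Z h0 hL hG, map_mul, s5_k F S h0 hL hG, map_neg, map_intCast]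
  obtain ⟨η', c', hη', hDG⟩ := id hG
  have hη'u : IsUnit η' := by
    rcases hη' with h | h
    · rw [h]; exact isUnit_one
    · rw [h]; exact isUnit_one.neg
  have h3la : (3 : Eis) ∣ la ^ 3 := ⟨⟨-1, -2⟩, by decide⟩
  have hx : ¬ la ∣ F.η * CU.om ^ F.i * F.Ds := by
    intro h
    rcases CUL.la_prime.dvd_or_dvd h with h1 | h1
    · exact JGL.d9_la_unit ((JGL.d9_eta_unit F).mul (JL.b4_om.pow _)) h1
    · exact CUL.primary_not_la F.hDs h1
  have hy : ¬ la ∣ η' + la ^ 3 * c' := by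
    intro h
    apply JGL.d9_la_unit hη'u
    have h1 : η' = (η' + la ^ 3 * c') - la * (la ^ 2 * c') := by ring
    rw [h1]
    exact dvd_sub h (dvd_mul_right _ _)
  have hex : la ^ F.v * (F.η * CU.om ^ F.i * F.Ds) = la ^ 3 * (η' + la ^ 3 * c') := by
    rw [← hDG]
    calc la ^ F.v * (F.η * CU.om ^ F.i * F.Ds) = F.η * CU.om ^ F.i * la ^ F.v * F.Ds := by ring
      _ = D := F.hD.symm
  obtain ⟨hv, hxy⟩ := JGL.d9_exact CUL.la_prime hex hx hy
  have h3 : (3 : Eis) ∣ F.η * CU.om ^ F.i - η' := by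
    obtain ⟨s, hs⟩ := F.hDs
    obtain ⟨r, hr⟩ := h3la
    have e : F.η * CU.om ^ F.i - η' = 3 * (r * c' - F.η * CU.om ^ F.i * s) := by
      linear_combination (-(F.η * CU.om ^ F.i)) * hs + hxy + c' * hr
    rw [e]
    exact dvd_mul_right _ _
  have h3' := (Q3L.k1_dvd 3 (by decide : (3 : Eis) = ⟨3, 0⟩) _).1 h3
  have hun : F.i = 0 ∧ η' = F.η := by
    have hi := F.hi
    have hi' : F.i = 0 ∨ F.i = 1 ∨ F.i = 2 := by omega
    rcases hi' with h1 | h1 | h1 <;> rcases F.hη with h2 | h2 <;> rcases hη' with h4 | h4 <;>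
      rw [h1, h2, h4] at h3' <;> first
        | exact absurd h3' (by decide)
        | exact ⟨h1, by rw [h2, h4]⟩
  obtain ⟨hi0, hηη⟩ := hun
  have hη2 : F.η * F.η = 1 := by
    rcases F.hη with h | h <;> rw [h] <;> norm_num
  have hDs : F.Ds = 1 + F.η * la ^ 3 * c' := by
    rw [hi0, pow_zero, mul_one, hηη] at hxy
    linear_combination F.η * hxy + (1 - F.Ds) * hη2
  have hslη : ((sl F.η : ℤ) : Eis) = F.η := JGL.d9_sl_eta F
  obtain ⟨n, hn, y, hy'⟩ : ∃ n : ℤ, (n = 0 ∨ n = 1 ∨ n = -1) ∧ la ∣ c' - n := by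
    rcases JGL.sl_cases c' with ⟨h1, -⟩ | ⟨h1, -⟩ | ⟨h1, -⟩
    · exact ⟨0, Or.inl rfl, by rw [Int.cast_zero, sub_zero]; exact h1⟩
    · exact ⟨1, Or.inr (Or.inl rfl), by rw [Int.cast_one]; exact h1⟩
    · exact ⟨-1, Or.inr (Or.inr rfl), by rw [Int.cast_neg, Int.cast_one, sub_neg_eq_add]; exact h1⟩
  have hDs' : F.Ds = 1 + F.η * (⟨-3, -6⟩ * (n : Eis) + ⟨-9, -9⟩ * y) := by
    have e1 : la ^ 3 = (⟨-3, -6⟩ : Eis) := by decide
    have e2 : (⟨-3, -6⟩ : Eis) * la = ⟨-9, -9⟩ := by decide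
    rw [hDs, e1]
    linear_combination (F.η * ⟨-3, -6⟩) * hy' + F.η * y * e2
  have hre : ∀ (ε k : ℤ), F.η = (ε : Eis) → n = k → mo F.Ds = ((-(ε * k) : ℤ) : ZMod 3) := by
    intro ε k hε hk
    have e3 : F.Ds.re = 1 + ε * (-3 * k + (-9 * y.re + 9 * y.im)) := by
      rw [hDs', hε, hk]
      simp only [QuadraticAlgebra.re_add, QuadraticAlgebra.re_mul, QuadraticAlgebra.im_mul,
        QuadraticAlgebra.re_intCast, QuadraticAlgebra.im_intCast, QuadraticAlgebra.re_one,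
        QuadraticAlgebra.im_add, Int.cast_id]
      ring
    unfold mo
    have e4 : (F.Ds.re - 1) / 3 = -(ε * k) + 3 * (ε * (-y.re + y.im)) := by
      have e5 : F.Ds.re - 1 = 3 * (-(ε * k) + 3 * (ε * (-y.re + y.im))) := by rw [e3]; ring
      rw [e5, Int.mul_ediv_cancel_left _ (by norm_num)]
    rw [e4]
    push_cast
    have h30 : (3 : ZMod 3) = 0 := by decide
    rw [h30]
    ring
  have hzw : ∀ j : ZMod 3, zw j = emb (CU.om ^ j.val) := by
    intro j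
    rw [map_pow, CUL.emb_om]
    rfl
  have main : ∀ (ε k : ℤ) (j : ZMod 3), F.η = (ε : Eis) → n = k → (1 + ((-(ε * k) : ℤ) : ZMod 3)) = j →
      (-(ε : Eis) * CU.om ^ j.val * la) * star (-(ε : Eis) * CU.om ^ j.val * la) = 3 →
      (-(ε : Eis) * CU.om ^ j.val * la) + star (-(ε : Eis) * CU.om ^ j.val * la) = -3 * (k : Eis) →
      ∃ pl : Eis, JG.ValL D pl ∧ emb pl = conj (rho L (v2 F) Z.δ la) * emb la := by
    intro ε k j hε hk hj h5 h6
    refine ⟨-(ε : Eis) * CU.om ^ j.val * la, Or.inr ⟨η', c', n, hη', hDG, hn, ⟨y, hy'⟩, h5, ?_⟩, ?_⟩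
    · rw [h6, hk]
    · have h7 : ((sl F.η : ℤ) : ℂ) = emb (ε : Eis) := by
        rw [← hε]
        nth_rw 2 [← hslη]
        rw [map_intCast]
      rw [hrho, hre ε k hε hk, hj, h7, hzw, map_mul, map_mul, map_neg]
  rcases F.hη with h | h <;> rcases hn with h' | h' | h'
  · exact main 1 0 1 (by rw [h, Int.cast_one]) h' (by decide) (by decide) (by decide)
  · exact main 1 1 0 (by rw [h, Int.cast_one]) h' (by decide) (by decide) (by decide)
  · exact main 1 (-1) 2 (by rw [h, Int.cast_one]) h' (by decide) (by decide) (by decide)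
  · exact main (-1) 0 1 (by rw [h, Int.cast_neg, Int.cast_one]) h' (by decide) (by decide) (by decide)
  · exact main (-1) 1 2 (by rw [h, Int.cast_neg, Int.cast_one]) h' (by decide) (by decide) (by decide)
  · exact main (-1) (-1) 0 (by rw [h, Int.cast_neg, Int.cast_one]) h' (by decide) (by decide) (by decide)

end J2D
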