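import Pool.Agent.J2D.U1
import Pool.Agent.J2D.C2

/-!
# [J2D-U3] the cubic character of `ℚ(ω, ∛D)`

`kpC F x = co F x * c2f F x * conj (kl F x)` for `x` prime to `gC F = gla F * (1 or 2) * ∏_{p ∈ Sr} p`.

PROOF. `kpC_mul`, `kpC_per`: `co_mul`, `co_per`; `c2f`: `cr (-2)` is multiplicative and depends on `x mod 2`; `kl`: if `Un F` then `kl = 1` (`kz_zero`: `-mn Ds = 0`, `-v = 0`, `i = 0` in `ZMod 3`); otherwise `la ∣ gla F`, so `la ∤ x`; `gla = λ ^ 4`: `kz_per9` (`9 ~ λ ^ 4`); `gla = λ³`: `v = 0` in `ZMod 3`: `kz_perL`; `gla = λ²`: `i = 0` too: `kz_per3`.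
`kpC_unit`: `kpC (-1) = 1`, `kpC ω = zw (-(mn Ds + v2)) · zw v2 · conj (zw (-mn Ds)) = 1` (`co_om`, `crm_om`, `kz_om`), `CUL.unit_cases`.
`kpC_prim`: `p m = gC F`. `p` divides `la`, `2` or some `q ∈ Sr` (up to a unit). (a) `p ~ q ∈ Sr`: `m` is `gC / q` up to a unit; CRT: `u ≡ 1 mod m`, `u mod q` not a cube (`exists_ncube`), `kpC u = cr q u ^ E q ≠ 1` (`3 ∤ E q`). (b) `p ~ 2`: `3 ∤ v2`; `u ≡ 1 mod m`, `u ≡ ω mod 2`: `kpC u = zw v2 ≠ 1`. (c) `p ~ la`, not `Un F`: `m = gla / λ · (..)`: `gla = λ ^ 4` (`3 ∤ v`): `u ≡ 1 + λ³ mod 9` (`mw = 0`, `mo = -1`, `mn = 0`, so `kl u = zw v ≠ 1`) and `u ≡ 1` modulo the rest;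
`gla = λ³` (`i = 1, 2`): `u ≡ 4 mod 9` (`mn = 1`, `kl u = zw i ≠ 1`), `λ² ∣ 3 ∣ u - 1`; `gla = λ²` (`i = 0`, `3 ∣ v`, `mn Ds ≠ 0`): `u ≡ ω mod 9`, `λ ∣ ω - 1`, `kl u = zw (-mn Ds) ≠ 1`; in all cases `co F u = 1`, `c2f F u = 1` because `u ≡ 1` modulo the `q` and `2` (if `3 ∤ v2`).
`kpC_non`: `gC F` is not a unit (if it is: `Un F`, `3 ∣ v2`, `Sr F = ∅`, so `D` is a cube, as in `kL_non`), so it has a prime factor, `kpC_prim`.
`kpC_ram`: `D = p ^ n c`, `p` prime, `p ∤ 3`. `p` is a unit times a primary prime `p'` (`p' = -2` or odd), `D = p' ^ n c'`, `c' = c · unit ^ n`. `n = E p'` resp. `v2` (exact powers; `n = 0` if `p' ∉ S`). `p ∣ gC` iff `3 ∤ n`. If `3 ∣ n`: `kpC p = kpC p' = cr p' c'` (`co_recip`, `kz_prim`), `unit ^ n = ± 1`, and `cr p' c' = 1` iff `c'` is a cube modulo `p'` (`CU`/`CUL`: `cr_eq_one_iff` or `CU.sy_eq_zero_iff`; for `p' = -2`: `(O/2)* = {1, ω, ω²}`: `c ≡ y³` iff `c ≡ 1 mod 2`).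
`kpC_ramL`: `D = λ ^ n c`: `n = F.v`, `c = η ω ^ i Ds` (exact power). `λ ∣ gC` iff not `Un F`. `λ³ ∣ c - η'` iff `η' = η`, `i = 0`, `mn Ds = 0`. Then `kpC λ = co F λ c2f F λ = zw (mo Ds + v2) zw (-v2)` if `3 ∤ v2` (`co_la`, `crm_la`), `= zw (mo Ds + v2) = zw (mo Ds)` if `3 ∣ v2`; `= 1` iff `mo Ds = 0` iff (with `mn Ds = 0`) `9 ∣ Ds - 1` iff `λ ^ 4 ∣ c - η`.
-/

set_option autoImplicit false

open NumberField IsDedekindDomain Filter Topology
open scoped Classical ComplexConjugate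

namespace J2D

open CM27 JZ
open CU (la eE)
open CUL (Nl ez DS Cont LV IsRep rp cr mn mo zw GalU)
open JGL (Fac sl)
open Q3 (Adm Dd Prim tt r3)
open Q3L (c2 sg cx fQ Dec)
open J2L

variable {D : Eis}

theorem U3_la_sq : la ^ 2 = 3 * (-CU.om) := CUL.x1_la_sq

/-- a prime divisor of the conductor -/
theorem U3_dvd_gC (F : Fac D) {p : Eis} (hp : Prime p) (h2 : ¬ p ∣ 2 ∨ 3 ∣ v2 F) (hg : ¬ p ∣ gla F)
    (hS : ∀ q ∈ Sr F, ¬ p ∣ q) : ¬ p ∣ gC F := by
  unfold gC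
  intro h
  rcases hp.dvd_or_dvd h with h | h
  · rcases hp.dvd_or_dvd h with h | h
    · exact hg h
    · by_cases h3 : 3 ∣ v2 F
      · rw [if_pos h3] at h
        exact hp.not_isUnit (isUnit_of_dvd_one h)
      · rw [if_neg h3] at h
        rcases h2 with h2 | h2
        · exact h2 h
        · exact h3 h2
  · obtain ⟨q, hq, hpq⟩ := (hp.dvd_finsetProd_iff _).1 h
    exact hS q hq hpq

theorem U3_gla (F : Fac D) {p : Eis} (hp : Prime p) (h : ¬ p ∣ la) : ¬ p ∣ gla F := by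
  unfold gla
  intro h1
  split_ifs at h1
  · exact hp.not_isUnit (isUnit_of_dvd_one h1)
  · exact h (hp.dvd_of_dvd_pow h1)
  · exact h (hp.dvd_of_dvd_pow h1)
  · exact h (hp.dvd_of_dvd_pow h1)

/-- primary primes: the exact power and the conductor -/
theorem U3_prim (F : Fac D) {p c : Eis} {n : ℕ} (hp : Prime p) (hP : Primary p)
    (hD : D = p ^ n * c) (hc : ¬ p ∣ c) : p ∣ gC F ↔ ¬ 3 ∣ n := by
  have hla : ¬ p ∣ la := CUL.tq_not_dvd_la hp hP
  by_cases h2 : p = -2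
  · subst h2
    obtain ⟨c1, e1, hc1⟩ := JGL.fac_two F
    have hn : n = v2 F := by
      rw [e1] at hD
      exact (JGL.D1b2_pow hp hc1 hc hD).1.symm
    rw [hn]
    constructor
    · intro h h3
      refine U3_dvd_gC F hp (Or.inr h3) (U3_gla F hp hla) ?_ h
      intro q hq
      have hq1 := So_spec F (Finset.mem_filter.1 hq).1
      refine CUL.not_dvd_of_ne hp hq1.1 hP hq1.2.1 ?_
      rintro rfl
      exact (Finset.mem_erase.1 (Finset.mem_filter.1 hq).1).1 rfl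
    · intro h3
      unfold gC
      rw [if_neg h3]
      refine Dvd.dvd.mul_right (Dvd.dvd.mul_left ?_ _) _
      exact ⟨-1, by norm_num⟩
  · have hp2 : ¬ p ∣ 2 := JGL.d7a_ndvd_two hp hP h2
    have hno : p ∉ Sr F → ¬ p ∣ gC F := by
      intro hS
      refine U3_dvd_gC F hp (Or.inl hp2) (U3_gla F hp hla) ?_
      intro q hq
      have hq1 := So_spec F (Finset.mem_filter.1 hq).1
      refine CUL.not_dvd_of_ne hp hq1.1 hP hq1.2.1 ?_
      rintro rfl
      exact hS hq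
    by_cases hS : p ∈ F.S
    · obtain ⟨c1, e1, hc1⟩ := JGL.fac_pow F hS h2
      have hn : n = F.E p := by
        rw [e1] at hD
        exact (JGL.D1b2_pow hp hc1 hc hD).1.symm
      rw [hn]
      constructor
      · intro h h3
        exact hno (fun hh => (Finset.mem_filter.1 hh).2 h3) h
      · intro h3
        unfold gC
        refine Dvd.dvd.mul_left ?_ _
        exact Finset.dvd_prod_of_mem (fun q : Eis => q)
          (Finset.mem_filter.2 ⟨Finset.mem_erase.2 ⟨h2, hS⟩, h3⟩)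
    · have hnD := JGL.fac_not F hp hP hS
      have hn : n = 0 := by
        by_contra hn
        apply hnD
        rw [hD]
        exact (dvd_pow_self p hn).mul_right c
      rw [hn]
      constructor
      · intro h _
        exact hno (fun hh => hS (Finset.mem_erase.1 (Finset.mem_filter.1 hh).1).2) h
      · intro h
        exact absurd (dvd_zero 3) h

theorem U3_cop (F : Fac D) {p : Eis} (hp : Prime p) (h : ¬ p ∣ gC F) : IsCoprime p (gC F) := by
  have := eis_isDomain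
  have := eis_pid
  exact (hp.irreducible.coprime_iff_not_dvd).2 h

theorem U3_cr_one {p c : Eis} (hp : Prime p) (hP : Primary p) (hc : ¬ p ∣ c) :
    cr p c = 1 ↔ ∃ y : Eis, p ∣ y ^ 3 - c := by
  rw [JGL.D5_cr_sy hc, ← CU.sy_zero_iff hp hP hc]
  constructor
  · intro h
    rw [← CUL.zw_zero] at h
    exact CUL.zw_inj h
  · intro h
    rw [h, CUL.zw_zero]

theorem kpC_ram (F : Fac D) (h0 : D ≠ 0) {p c : Eis} {n : ℕ} (hp : Prime p) (h3 : ¬ p ∣ 3) (hD : D = p ^ n * c) (hc : ¬ p ∣ c) :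
    (p ∣ gC F ↔ ¬ 3 ∣ n) ∧ (3 ∣ n → (kpC F p = 1 ↔ ∃ y : Eis, p ∣ y ^ 3 - c)) := by
  have := eis_isDomain
  have hla : ¬ la ∣ p := by
    intro h
    apply h3
    have h4 : p ∣ la := by
      obtain ⟨k, hk⟩ := h
      rcases hp.irreducible.isUnit_or_isUnit hk with h5 | h5
      · exact absurd h5 CUL.la_prime.not_isUnit
      · obtain ⟨l, hl⟩ := h5.exists_right_inv
        exact ⟨l, by rw [hk, mul_assoc, hl, mul_one]⟩
    have h5 : la ∣ 3 := ⟨-CU.om ^ 2 * la, by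
      have h6 := U3_la_sq
      have h7 := P_om3
      linear_combination (CU.om ^ 2) * h6 - 3 * h7⟩
    exact h4.trans h5
  obtain ⟨hP, t, ht, -, e⟩ := pb_spec hla
  set q := pb p with hq
  set m := (mw p).val with hm
  have hu0 : IsUnit ((t : Eis) * CU.om ^ m) := by
    have h1 : IsUnit CU.om := IsUnit.of_pow_eq_one (n := 3) (by decide) (by norm_num)
    have h2 : IsUnit (t : Eis) := by
      rcases ht with rfl | rfl
      · rw [Int.cast_one]
        exact isUnit_one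
      · rw [Int.cast_neg, Int.cast_one]
        exact isUnit_one.neg
    exact h2.mul (h1.pow m)
  obtain ⟨ε, hε, eε⟩ : ∃ ε : Eis, IsUnit ε ∧ p = ε * q := ⟨_, hu0, e⟩
  obtain ⟨ε', hε'⟩ := hε.exists_right_inv
  have hass : Associated q p := ⟨hε.unit, by rw [IsUnit.unit_spec, mul_comm, ← eε]⟩
  have hqp : Prime q := hass.symm.prime hp
  have hdv : ∀ x : Eis, p ∣ x ↔ q ∣ x := fun x => hass.symm.dvd_iff_dvd_left
  have hD' : D = q ^ n * (ε ^ n * c) := by
    rw [hD, eε]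
    ring
  have hc' : ¬ q ∣ ε ^ n * c := by
    rw [← hdv]
    intro h
    rcases hp.dvd_or_dvd h with h | h
    · exact hp.not_isUnit (isUnit_of_dvd_unit h (hε.pow n))
    · exact hc h
  have hg := U3_prim F hqp hP hD' hc'
  rw [hdv (gC F)]
  refine ⟨hg, fun h3n => ?_⟩
  have hng : ¬ q ∣ gC F := fun h => hg.1 h h3n
  have hcop := U3_cop F hqp hng
  have e1 : kpC F p = kpC F q := by
    rw [eε, kpC_mul, kpC_unit F hε, one_mul]
  have e2 : kpC F q = cr q (ε ^ n * c) := by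
    rw [← co_recip F h0 hqp hP hD' hc' h3n]
    unfold kpC kl
    rw [if_pos hcop, kz_prim _ _ _ hP]
  rw [e1, e2, U3_cr_one hqp hP hc']
  obtain ⟨k, rfl⟩ := h3n
  constructor
  · rintro ⟨y, hy⟩
    refine ⟨ε' ^ k * y, ?_⟩
    rw [hdv]
    have e3 : (ε' ^ k * y) ^ 3 - c = (ε' ^ (3 * k)) * (y ^ 3 - ε ^ (3 * k) * c) := by
      have e4 : ε' ^ (3 * k) * ε ^ (3 * k) = 1 := by
        rw [← mul_pow, mul_comm, hε', one_pow]
      have e5 : (ε' ^ k) ^ 3 = ε' ^ (3 * k) := by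
        rw [← pow_mul, mul_comm]
      rw [mul_pow, e5]
      linear_combination c * e4
    rw [e3]
    exact hy.mul_left _
  · rintro ⟨y, hy⟩
    rw [hdv] at hy
    refine ⟨ε ^ k * y, ?_⟩
    have e3 : (ε ^ k * y) ^ 3 - ε ^ (3 * k) * c = ε ^ (3 * k) * (y ^ 3 - c) := by
      have e5 : (ε ^ k) ^ 3 = ε ^ (3 * k) := by
        rw [← pow_mul, mul_comm]
      rw [mul_pow, e5]
      ring
    rw [e3]
    exact hy.mul_left _

/-! ### the prime `λ` -/

theorem U3_la3 (z : Eis) : la ^ 3 ∣ z ↔ (3 : ℤ) ∣ z.re ∧ (3 : ℤ) ∣ z.im ∧ (9 : ℤ) ∣ z.re + z.im := by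
  rw [CUL.x1_la_cube]
  constructor
  · rintro ⟨b, rfl⟩
    simp only [QuadraticAlgebra.re_mul, QuadraticAlgebra.im_mul]
    refine ⟨⟨-b.re + 2 * b.im, by ring⟩, ⟨-b.im - 2 * b.re + 2 * b.im, by ring⟩, ⟨-b.re + b.im, by ring⟩⟩
  · rintro ⟨⟨x, hx⟩, ⟨y, hy⟩, ⟨k, hk⟩⟩
    -- z.re = -3 a + 6 b, z.im = -6 a + 3 b
    refine ⟨⟨x - 2 * k, x - k⟩, ?_⟩
    ext
    · simp only [QuadraticAlgebra.re_mul]
      rw [hx]
      ring
    · simp only [QuadraticAlgebra.im_mul]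
      linear_combination hk - hx

theorem U3_nine (z : Eis) : la ^ 4 ∣ z ↔ (9 : ℤ) ∣ z.re ∧ (9 : ℤ) ∣ z.im := by
  have e : (9 : Eis) = la ^ 4 * CU.om := CUL.nine_eq
  have h1 : la ^ 4 ∣ z ↔ (9 : Eis) ∣ z := by
    constructor
    · rintro ⟨b, rfl⟩
      refine ⟨CU.om ^ 2 * b, ?_⟩
      rw [e]
      linear_combination (-la ^ 4 * b) * P_om3
    · rintro ⟨b, rfl⟩
      refine ⟨CU.om * b, ?_⟩
      rw [e]
      ring
  rw [h1, CUL.tx1_nine]
  constructor
  · rintro ⟨b, rfl⟩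
    simp only [QuadraticAlgebra.re_mul, QuadraticAlgebra.im_mul]
    exact ⟨⟨b.re, by ring⟩, ⟨b.im, by ring⟩⟩
  · rintro ⟨⟨x, hx⟩, ⟨y, hy⟩⟩
    refine ⟨⟨x, y⟩, ?_⟩
    ext
    · simp only [QuadraticAlgebra.re_mul]
      rw [hx]
      ring
    · simp only [QuadraticAlgebra.im_mul]
      rw [hy]
      ring

theorem U3_mn {b : Eis} (h : Primary b) : mn b = 0 ↔ (9 : ℤ) ∣ b.re - 1 + b.im := by
  obtain ⟨h1, h2⟩ := (primary_iff b).1 h
  unfold mn
  rw [ZMod.intCast_zmod_eq_zero_iff_dvd]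
  omega

theorem U3_mo {b : Eis} (h : Primary b) : mo b = 0 ↔ (9 : ℤ) ∣ b.re - 1 := by
  obtain ⟨h1, h2⟩ := (primary_iff b).1 h
  unfold mo
  rw [ZMod.intCast_zmod_eq_zero_iff_dvd]
  omega

theorem U3_c (F : Fac D) {c : Eis} {n : ℕ} (hD : D = la ^ n * c) (hc : ¬ la ∣ c) :
    n = F.v ∧ c = F.η * CU.om ^ F.i * F.Ds := by
  have h1 : ¬ la ∣ F.η * CU.om ^ F.i * F.Ds := by
    intro h
    rcases CUL.la_prime.dvd_or_dvd h with h | h
    · have h2 : IsUnit CU.om := IsUnit.of_pow_eq_one (n := 3) (by decide) (by norm_num)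
      have h3 : IsUnit F.η := by
        rcases F.hη with h | h
        · rw [h]
          exact isUnit_one
        · rw [h]
          exact isUnit_one.neg
      exact CUL.la_prime.not_isUnit (isUnit_of_dvd_unit h (h3.mul (h2.pow _)))
    · exact CUL.primary_not_la F.hDs h
  have h2 : la ^ n * c = la ^ F.v * (F.η * CU.om ^ F.i * F.Ds) := by
    rw [← hD]
    exact F.hD.trans (by ring)
  exact JGL.D1b2_pow CUL.la_prime hc h1 h2

/-- `c ≡ ± 1 mod λ³` -/
theorem U3_un (F : Fac D) {c : Eis} (hc : c = F.η * CU.om ^ F.i * F.Ds) :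
    (∃ η : Eis, (η = 1 ∨ η = -1) ∧ la ^ 3 ∣ c - η) ↔ F.i = 0 ∧ mn F.Ds = 0 := by
  have hP := F.hDs
  obtain ⟨h1, h2⟩ := (primary_iff F.Ds).1 hP
  rw [U3_mn hP]
  -- the coordinates of `ω ^ i Ds`
  have hη : ∀ y : Eis, (F.η = 1 ∧ F.η * y = y) ∨ (F.η = -1 ∧ F.η * y = -y) := by
    intro y
    rcases F.hη with h | h
    · exact Or.inl ⟨h, by rw [h, one_mul]⟩
    · exact Or.inr ⟨h, by rw [h, neg_one_mul]⟩
  have r1 : (1 : Eis).re = 1 := rfl
  have r2 : (1 : Eis).im = 0 := rfl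
  constructor
  · rintro ⟨η, hη', hd⟩
    rw [U3_la3] at hd
    obtain ⟨d1, d2, d3⟩ := hd
    have him : (c - η).im = c.im := by
      rcases hη' with rfl | rfl
      · rw [QuadraticAlgebra.im_sub, r2, sub_zero]
      · rw [QuadraticAlgebra.im_sub, QuadraticAlgebra.im_neg, r2, neg_zero, sub_zero]
    rw [him] at d2 d3
    have hre : (c - η).re = c.re - 1 ∨ (c - η).re = c.re + 1 := by
      rcases hη' with rfl | rfl
      · left
        rw [QuadraticAlgebra.re_sub, r1]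
      · right
        rw [QuadraticAlgebra.re_sub, QuadraticAlgebra.re_neg, r1, sub_neg_eq_add]
    have hi := F.hi
    have hi3 : F.i = 0 ∨ F.i = 1 ∨ F.i = 2 := by omega
    rw [mul_assoc] at hc
    rcases hi3 with hi0 | hi0 | hi0
    · refine ⟨hi0, ?_⟩
      rw [hi0, pow_zero, one_mul] at hc
      rcases hη F.Ds with ⟨-, e⟩ | ⟨-, e⟩
      · rw [e] at hc
        rw [hc] at hre d2 d3
        rcases hre with hre | hre <;> omega
      · rw [e] at hc
        rw [hc] at hre d2 d3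
        rw [QuadraticAlgebra.re_neg] at hre
        rw [QuadraticAlgebra.im_neg] at d2 d3
        rcases hre with hre | hre <;> omega
    · exfalso
      rw [hi0, pow_one] at hc
      have e3 := P_om_im F.Ds
      rcases hη (CU.om * F.Ds) with ⟨-, e⟩ | ⟨-, e⟩
      · rw [e] at hc
        rw [hc, e3] at d2
        omega
      · rw [e] at hc
        rw [hc, QuadraticAlgebra.im_neg, e3] at d2
        omega
    · exfalso
      rw [hi0] at hc
      have e3 := P_om2_im F.Ds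
      rcases hη (CU.om ^ 2 * F.Ds) with ⟨-, e⟩ | ⟨-, e⟩
      · rw [e] at hc
        rw [hc, e3] at d2
        omega
      · rw [e] at hc
        rw [hc, QuadraticAlgebra.im_neg, e3] at d2
        omega
  · rintro ⟨hi0, h3⟩
    refine ⟨F.η, F.hη, ?_⟩
    rw [hi0, pow_zero, mul_one] at hc
    have e : c - F.η = F.η * (F.Ds - 1) := by rw [hc]; ring
    rw [e]
    refine Dvd.dvd.mul_left ?_ _
    rw [U3_la3, QuadraticAlgebra.re_sub, QuadraticAlgebra.im_sub, r1, r2, sub_zero]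
    exact ⟨by omega, by omega, by omega⟩

theorem kpC_ramL (F : Fac D) (h0 : D ≠ 0) {c : Eis} {n : ℕ} (hD : D = la ^ n * c) (hc : ¬ la ∣ c) :
    (la ∣ gC F ↔ ¬ (3 ∣ n ∧ ∃ η : Eis, (η = 1 ∨ η = -1) ∧ la ^ 3 ∣ c - η)) ∧
    (3 ∣ n → (∃ η : Eis, (η = 1 ∨ η = -1) ∧ la ^ 3 ∣ c - η) →
      (kpC F la = 1 ↔ ∃ η : Eis, (η = 1 ∨ η = -1) ∧ la ^ 4 ∣ c - η)) := by
  have := eis_isDomain
  obtain ⟨hn, hc1⟩ := U3_c F hD hc
  subst hn
  rw [U3_un F hc1]
  have hUn : (3 ∣ F.v ∧ F.i = 0 ∧ mn F.Ds = 0) ↔ Un F := Iff.rfl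
  have hl2 : ¬ la ∣ (2 : Eis) := by
    rw [CUL.la_dvd_iff]
    decide
  have hSr : ∀ q ∈ Sr F, ¬ la ∣ q := fun q hq => CUL.primary_not_la (C1_Sr F hq).2
  have hA : la ∣ gC F ↔ ¬ Un F := by
    constructor
    · intro h hU
      refine U3_dvd_gC F CUL.la_prime (Or.inl hl2) ?_ hSr h
      unfold gla
      rw [if_pos hU]
      exact fun hh => CUL.la_prime.not_isUnit (isUnit_of_dvd_one hh)
    · intro hU
      unfold gC gla
      rw [if_neg hU]
      refine Dvd.dvd.mul_right (Dvd.dvd.mul_right ?_ _) _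
      split_ifs
      · exact dvd_pow_self la (by norm_num)
      · exact dvd_pow_self la (by norm_num)
      · exact dvd_pow_self la (by norm_num)
  rw [hUn]
  refine ⟨hA, fun h3 hi => ?_⟩
  have hU : Un F := ⟨h3, hi.1, hi.2⟩
  have hcop := U3_cop F CUL.la_prime (fun h => hA.1 h hU)
  have hv : (F.v : ZMod 3) = 0 := (ZMod.natCast_eq_zero_iff _ _).2 h3
  have e1 : kl F la = 1 := by
    unfold kl
    rw [hi.2, hv, hi.1, Nat.cast_zero, neg_zero, kz_zero]
  have e2 : kpC F la = zw (mo F.Ds) := by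
    unfold kpC
    rw [if_pos hcop, e1, map_one, mul_one, co_la, c2f_odd F (fun h => ?_), crm_la, CUL.zw_pow, ← CUL.zw_add]
    · congr 1
      ring
    · exact C1_prime.not_isUnit (by
        have h5 : Prime (2 : Eis) := Q3.prime_two
        have h6 : Associated (2 : Eis) la := (h5.dvd_prime_iff_associated CUL.la_prime).1 h
        exact absurd (h6.symm.dvd) hl2)
  have hP := F.hDs
  obtain ⟨p1, p2⟩ := (primary_iff F.Ds).1 hP
  have hmn := (U3_mn hP).1 hi.2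
  have e3 : kpC F la = 1 ↔ (9 : ℤ) ∣ F.Ds.re - 1 := by
    rw [e2, ← U3_mo hP]
    constructor
    · intro h
      rw [← CUL.zw_zero] at h
      exact CUL.zw_inj h
    · intro h
      rw [h, CUL.zw_zero]
  rw [e3]
  have hc2 : c = F.η * F.Ds := by rw [hc1, hi.1, pow_zero, mul_one]
  have r1 : (1 : Eis).re = 1 := rfl
  have r2 : (1 : Eis).im = 0 := rfl
  constructor
  · intro h9
    refine ⟨F.η, F.hη, ?_⟩
    have e : c - F.η = F.η * (F.Ds - 1) := by rw [hc2]; ring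
    rw [e]
    refine Dvd.dvd.mul_left ?_ _
    rw [U3_nine, QuadraticAlgebra.re_sub, QuadraticAlgebra.im_sub, r1, r2, sub_zero]
    exact ⟨h9, by omega⟩
  · rintro ⟨η, hη', hd⟩
    rw [U3_nine] at hd
    obtain ⟨d1, d2⟩ := hd
    rcases F.hη with h | h
    · rw [h, one_mul] at hc2
      rcases hη' with rfl | rfl
      · rw [hc2, QuadraticAlgebra.re_sub, r1] at d1
        exact d1
      · rw [hc2, QuadraticAlgebra.re_sub, QuadraticAlgebra.re_neg, r1] at d1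
        omega
    · rw [h, neg_one_mul] at hc2
      rcases hη' with rfl | rfl
      · rw [hc2, QuadraticAlgebra.re_sub, QuadraticAlgebra.re_neg, r1] at d1
        omega
      · rw [hc2, QuadraticAlgebra.re_sub, QuadraticAlgebra.re_neg, QuadraticAlgebra.re_neg, r1] at d1
        omega

end J2D
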