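import Pool.Agent.J2D.K1

/-!
# [J2D-U1] the cubic character of `ℚ(ω, ∛D)`

`kpC F x = co F x * c2f F x * conj (kl F x)` for `x` prime to `gC F = gla F * (1 or 2) * ∏_{p ∈ Sr} p`.

PROOF. `kpC_mul`, `kpC_per`: `co_mul`, `co_per`; `c2f`: `cr (-2)` is multiplicative and depends on `x mod 2`; `kl`: if `Un F` then `kl = 1` (`kz_zero`: `-mn Ds = 0`, `-v = 0`, `i = 0` in `ZMod 3`); otherwise `la ∣ gla F`, so `la ∤ x`; `gla = λ ^ 4`: `kz_per9` (`9 ~ λ ^ 4`); `gla = λ³`: `v = 0` in `ZMod 3`: `kz_perL`; `gla = λ²`: `i = 0` too: `kz_per3`.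
`kpC_unit`: `kpC (-1) = 1`, `kpC ω = zw (-(mn Ds + v2)) · zw v2 · conj (zw (-mn Ds)) = 1` (`co_om`, `crm_om`, `kz_om`), `CUL.unit_cases`.
`kpC_prim`: `p m = gC F`. `p` divides `la`, `2` or some `q ∈ Sr` (up to a unit). (a) `p ~ q ∈ Sr`: `m` is `gC / q` up to a unit; CRT: `u ≡ 1 mod m`, `u mod q` not a cube (`exists_ncube`), `kpC u = cr q u ^ E q ≠ 1` (`3 ∤ E q`). (b) `p ~ 2`: `3 ∤ v2`; `u ≡ 1 mod m`, `u ≡ ω mod 2`: `kpC u = zw v2 ≠ 1`. (c) `p ~ la`, not `Un F`: `m = gla / λ · (..)`: `gla = λ ^ 4` (`3 ∤ v`): `u ≡ 1 + λ³ mod 9` (`mw = 0`, `mo = -1`, `mn = 0`, so `kl u = zw v ≠ 1`) and `u ≡ 1` modulo the rest;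
`gla = λ³` (`i = 1, 2`): `u ≡ 4 mod 9` (`mn = 1`, `kl u = zw i ≠ 1`), `λ² ∣ 3 ∣ u - 1`; `gla = λ²` (`i = 0`, `3 ∣ v`, `mn Ds ≠ 0`): `u ≡ ω mod 9`, `λ ∣ ω - 1`, `kl u = zw (-mn Ds) ≠ 1`; in all cases `co F u = 1`, `c2f F u = 1` because `u ≡ 1` modulo the `q` and `2` (if `3 ∤ v2`).
`kpC_non`: `gC F` is not a unit (if it is: `Un F`, `3 ∣ v2`, `Sr F = ∅`, so `D` is a cube, as in `kL_non`), so it has a prime factor, `kpC_prim`.
`kpC_ram`: `D = p ^ n c`, `p` prime, `p ∤ 3`. `p` is a unit times a primary prime `p'` (`p' = -2` or odd), `D = p' ^ n c'`, `c' = c · unit ^ n`. `n = E p'` resp. `v2` (exact powers; `n = 0` if `p' ∉ S`). `p ∣ gC` iff `3 ∤ n`. If `3 ∣ n`: `kpC p = kpC p' = cr p' c'` (`co_recip`, `kz_prim`), `unit ^ n = ± 1`, and `cr p' c' = 1` iff `c'` is a cube modulo `p'` (`CU`/`CUL`: `cr_eq_one_iff` or `CU.sy_eq_zero_iff`; for `p' = -2`: `(O/2)* = {1, ω, ω²}`: `c ≡ y³` iff `c ≡ 1 mod 2`).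
`kpC_ramL`: `D = λ ^ n c`: `n = F.v`, `c = η ω ^ i Ds` (exact power). `λ ∣ gC` iff not `Un F`. `λ³ ∣ c - η'` iff `η' = η`, `i = 0`, `mn Ds = 0`. Then `kpC λ = co F λ c2f F λ = zw (mo Ds + v2) zw (-v2)` if `3 ∤ v2` (`co_la`, `crm_la`), `= zw (mo Ds + v2) = zw (mo Ds)` if `3 ∣ v2`; `= 1` iff `mo Ds = 0` iff (with `mn Ds = 0`) `9 ∣ Ds - 1` iff `λ ^ 4 ∣ c - η`.
-/

set_option autoImplicit false

open NumberField IsDedekindDomain Filter Topology
open scoped Classical ComplexConjugate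

namespace J2D

open CM27 JZ
open CU (la eE)
open CUL (Nl ez DS Cont LV IsRep rp cr mn mo zw GalU)
open JGL (Fac sl)
open Q3 (Adm Dd Prim tt r3)
open Q3L (c2 sg cx fQ Dec)
open J2L

variable {D : Eis}

theorem U1_la_ne : la ≠ 0 := CUL.la_prime.ne_zero

theorem U1_nine : (9 : Eis) = la ^ 4 * CU.om := by decide

theorem U1_gla_ne (F : Fac D) : gla F ≠ 0 := by
  have := CM27.eis_isDomain
  unfold gla
  split_ifs
  · exact one_ne_zero
  · exact pow_ne_zero _ U1_la_ne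
  · exact pow_ne_zero _ U1_la_ne
  · exact pow_ne_zero _ U1_la_ne

theorem U1_Sr (F : Fac D) {p : Eis} (hp : p ∈ Sr F) : p ∈ So F := (Finset.mem_filter.1 hp).1

theorem U1_dvd_Sr (F : Fac D) {p : Eis} (hp : p ∈ Sr F) : p ∣ gC F :=
  (Finset.dvd_prod_of_mem (fun q : Eis => q) hp).mul_left _

theorem U1_gla_dvd (F : Fac D) : gla F ∣ gC F := by
  unfold gC
  rw [mul_assoc]
  exact Dvd.intro _ rfl

theorem U1_two_dvd (F : Fac D) (h : ¬ 3 ∣ v2 F) : (-2 : Eis) ∣ gC F := by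
  unfold gC
  rw [if_neg h]
  exact ((neg_dvd.2 (dvd_refl (2 : Eis))).mul_left _).mul_right _

theorem gC_ne (F : Fac D) : gC F ≠ 0 := by
  have := CM27.eis_isDomain
  unfold gC
  refine mul_ne_zero (mul_ne_zero (U1_gla_ne F) ?_) ?_
  · split_ifs
    · exact one_ne_zero
    · have h := JL.b3_two.ne_zero
      intro h1
      rw [h1, neg_zero] at h
      exact h rfl
  · exact Finset.prod_ne_zero_iff.2 fun p hp => (So_spec F (U1_Sr F hp)).1.ne_zero

theorem U1_cop_unit {u g : Eis} (hu : IsUnit u) : IsCoprime u g := by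
  obtain ⟨v, hv⟩ := hu.exists_left_inv
  exact ⟨v, 0, by rw [hv]; ring⟩

theorem U1_kl_un (F : Fac D) (h : Un F) (x : Eis) : kl F x = 1 := by
  obtain ⟨h1, h2, h3⟩ := h
  unfold kl
  rw [h2, h3, neg_zero, Nat.cast_zero, (ZMod.natCast_eq_zero_iff F.v 3).2 h1, neg_zero]
  exact kz_zero x

theorem U1_la_dvd (F : Fac D) (h : ¬ Un F) : la ∣ gC F := by
  refine Dvd.dvd.trans ?_ (U1_gla_dvd F)
  unfold gla
  rw [if_neg h]
  split_ifs
  · exact dvd_pow_self _ (by norm_num)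
  · exact dvd_pow_self _ (by norm_num)
  · exact dvd_pow_self _ (by norm_num)

theorem U1_cop {x g p : Eis} (hp : Prime p) (hg : p ∣ g) (h : IsCoprime x g) : ¬ p ∣ x :=
  fun hx => hp.not_isUnit (h.isUnit_of_dvd' hx hg)

theorem U1_kl_mul (F : Fac D) {x y : Eis} (hx : IsCoprime x (gC F)) (hy : IsCoprime y (gC F)) :
    kl F (x * y) = kl F x * kl F y := by
  by_cases h : Un F
  · rw [U1_kl_un F h, U1_kl_un F h, U1_kl_un F h, one_mul]
  · exact kz_mul _ _ _ (U1_cop CUL.la_prime (U1_la_dvd F h) hx) (U1_cop CUL.la_prime (U1_la_dvd F h) hy)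

theorem U1_c2f_mul (F : Fac D) (x y : Eis) : c2f F (x * y) = c2f F x * c2f F y := by
  unfold c2f
  split_ifs
  · rw [one_mul]
  · rw [CUL.cr_mul JL.b3_two JL.b3_twoP, mul_pow]

theorem kpC_mul (F : Fac D) (x y : Eis) : kpC F (x * y) = kpC F x * kpC F y := by
  unfold kpC
  by_cases hx : IsCoprime x (gC F)
  · by_cases hy : IsCoprime y (gC F)
    · rw [if_pos hx, if_pos hy, if_pos (hx.mul_left hy), co_mul, U1_c2f_mul, U1_kl_mul F hx hy, map_mul]
      ring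
    · rw [if_neg hy, if_neg (fun h => hy h.of_mul_left_right), mul_zero]
  · rw [if_neg hx, if_neg (fun h => hx h.of_mul_left_left), zero_mul]

theorem U1_cop_per {x y g : Eis} (h : g ∣ x - y) : IsCoprime x g ↔ IsCoprime y g := by
  obtain ⟨k, hk⟩ := h
  have h1 : x = y + g * k := by rw [← hk]; ring
  rw [h1]
  exact IsCoprime.add_mul_left_left_iff

theorem U1_kl_per (F : Fac D) {x y : Eis} (hx : IsCoprime x (gC F)) (h : gC F ∣ x - y) : kl F x = kl F y := by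
  by_cases hu : Un F
  · rw [U1_kl_un F hu, U1_kl_un F hu]
  · have hl := U1_cop CUL.la_prime (U1_la_dvd F hu) hx
    have hg := (U1_gla_dvd F).trans h
    unfold gla at hg
    rw [if_neg hu] at hg
    unfold kl
    by_cases hv : 3 ∣ F.v
    · rw [if_pos hv] at hg
      rw [(ZMod.natCast_eq_zero_iff F.v 3).2 hv, neg_zero]
      by_cases hi : F.i = 0
      · rw [if_pos hi] at hg
        rw [hi, Nat.cast_zero]
        exact kz_per3 _ hl hg
      · rw [if_neg hi] at hg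
        exact kz_perL _ _ hl hg
    · rw [if_neg hv] at hg
      refine kz_per9 _ _ _ hl ?_
      rw [U1_nine]
      have hom : IsUnit CU.om := IsUnit.of_mul_eq_one (CU.om ^ 2) (by decide)
      exact (hom.mul_right_dvd).2 hg

theorem kpC_per (F : Fac D) {x y : Eis} (h : gC F ∣ x - y) : kpC F x = kpC F y := by
  unfold kpC
  by_cases hx : IsCoprime x (gC F)
  · have hc : c2f F x = c2f F y := by
      unfold c2f
      split_ifs with h3
      · rfl
      · rw [CUL.cr_congr JL.b3_two JL.b3_twoP ((U1_two_dvd F h3).trans h)]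
    rw [if_pos hx, if_pos ((U1_cop_per h).1 hx), co_per F (fun p hp => (U1_dvd_Sr F hp).trans h), hc,
      U1_kl_per F hx h]
  · rw [if_neg hx, if_neg (fun hy => hx ((U1_cop_per h).2 hy))]

theorem kpC_zw (F : Fac D) {x : Eis} (h : IsCoprime x (gC F)) : ∃ j : ZMod 3, kpC F x = zw j := by
  unfold kpC
  rw [if_pos h]
  obtain ⟨j, hj⟩ := co_zw F (x := x) (fun p hp => U1_cop (So_spec F (U1_Sr F hp)).1 (U1_dvd_Sr F hp) h)
  obtain ⟨k, hk⟩ : ∃ k : ZMod 3, c2f F x = zw k := by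
    unfold c2f
    split_ifs with h3
    · exact ⟨0, CUL.zw_zero.symm⟩
    · rcases CUL.cr_cases (-2) x with h1 | h1
      · exact absurd h1.2 (U1_cop JL.b3_two (U1_two_dvd F h3) h)
      · exact ⟨_, by rw [h1.1, CUL.zw_pow]⟩
  obtain ⟨l, hl⟩ : ∃ l : ZMod 3, kl F x = zw l := kz_zw _ _ _ x
  exact ⟨j + k + -l, by rw [hj, hk, hl, CUL.zw_conj, CUL.zw_add, CUL.zw_add]⟩

theorem U1_one (F : Fac D) : kpC F 1 = 1 := by
  unfold kpC
  rw [if_pos isCoprime_one_left, co_one]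
  have h1 : c2f F 1 = 1 := by
    unfold c2f
    split_ifs
    · rfl
    · rw [CUL.cr_one JL.b3_two JL.b3_twoP, one_pow]
  have h2 : kl F 1 = 1 := kz_one _ _ _
  rw [h1, h2, map_one, one_mul, one_mul]

theorem U1_neg_one (F : Fac D) : kpC F (-1) = 1 := by
  have hla : ¬ la ∣ (1 : Eis) := fun h => CUL.la_prime.not_isUnit (isUnit_of_dvd_one h)
  unfold kpC
  rw [if_pos (isCoprime_one_left.neg_left), co_neg, co_one]
  have h1 : c2f F (-1) = 1 := by
    unfold c2f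
    split_ifs
    · rfl
    · rw [crm_neg, CUL.cr_one JL.b3_two JL.b3_twoP, one_pow]
  have h2 : kl F (-1) = 1 := by
    unfold kl
    rw [kz_neg _ _ _ hla, kz_one]
  rw [h1, h2, map_one, one_mul, one_mul]

theorem U1_om (F : Fac D) : kpC F CU.om = 1 := by
  have hom : IsUnit CU.om := IsUnit.of_mul_eq_one (CU.om ^ 2) (by decide)
  unfold kpC
  rw [if_pos (U1_cop_unit hom), co_om]
  have h1 : c2f F CU.om = zw (v2 F : ZMod 3) := by
    unfold c2f
    split_ifs with h3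
    · rw [(ZMod.natCast_eq_zero_iff _ 3).2 h3, CUL.zw_zero]
    · rw [crm_om, CUL.zw_pow, mul_one]
  have h2 : kl F CU.om = zw (-mn F.Ds) := kz_om _ _ _
  rw [h1, h2, CUL.zw_conj, ← CUL.zw_add, ← CUL.zw_add, neg_neg]
  have h3 : -(mn F.Ds + (v2 F : ZMod 3)) + (v2 F : ZMod 3) + mn F.Ds = 0 := by ring
  rw [h3, CUL.zw_zero]

theorem kpC_unit (F : Fac D) {u : Eis} (hu : IsUnit u) : kpC F u = 1 := by
  have h2 : kpC F (CU.om ^ 2) = 1 := by rw [pow_two, kpC_mul, U1_om, one_mul]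
  have hneg : ∀ x : Eis, kpC F x = 1 → kpC F (-x) = 1 := by
    intro x hx
    rw [← neg_one_mul, kpC_mul, U1_neg_one, hx, one_mul]
  rcases CUL.unit_cases hu with h | h | h | h | h | h
  · rw [h]; exact U1_one F
  · rw [h]; exact U1_neg_one F
  · rw [h]; exact U1_om F
  · rw [h]; exact hneg _ (U1_om F)
  · rw [h]; exact h2
  · rw [h]; exact hneg _ h2

end J2D
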