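import Pool.Agent.J2D.U1
import Pool.Agent.J2D.U2

/-!
# [J2D-U6] the cubic character of `ℚ(ω, ∛D)`

`kpC F x = co F x * c2f F x * conj (kl F x)` for `x` prime to `gC F = gla F * (1 or 2) * ∏_{p ∈ Sr} p`.

PROOF. `kpC_mul`, `kpC_per`: `co_mul`, `co_per`; `c2f`: `cr (-2)` is multiplicative and depends on `x mod 2`; `kl`: if `Un F` then `kl = 1` (`kz_zero`: `-mn Ds = 0`, `-v = 0`, `i = 0` in `ZMod 3`); otherwise `la ∣ gla F`, so `la ∤ x`; `gla = λ ^ 4`: `kz_per9` (`9 ~ λ ^ 4`); `gla = λ³`: `v = 0` in `ZMod 3`: `kz_perL`; `gla = λ²`: `i = 0` too: `kz_per3`.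
`kpC_unit`: `kpC (-1) = 1`, `kpC ω = zw (-(mn Ds + v2)) · zw v2 · conj (zw (-mn Ds)) = 1` (`co_om`, `crm_om`, `kz_om`), `CUL.unit_cases`.
`kpC_prim`: `p m = gC F`. `p` divides `la`, `2` or some `q ∈ Sr` (up to a unit). (a) `p ~ q ∈ Sr`: `m` is `gC / q` up to a unit; CRT: `u ≡ 1 mod m`, `u mod q` not a cube (`exists_ncube`), `kpC u = cr q u ^ E q ≠ 1` (`3 ∤ E q`). (b) `p ~ 2`: `3 ∤ v2`; `u ≡ 1 mod m`, `u ≡ ω mod 2`: `kpC u = zw v2 ≠ 1`. (c) `p ~ la`, not `Un F`: `m = gla / λ · (..)`: `gla = λ ^ 4` (`3 ∤ v`): `u ≡ 1 + λ³ mod 9` (`mw = 0`, `mo = -1`, `mn = 0`, so `kl u = zw v ≠ 1`) and `u ≡ 1` modulo the rest;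
`gla = λ³` (`i = 1, 2`): `u ≡ 4 mod 9` (`mn = 1`, `kl u = zw i ≠ 1`), `λ² ∣ 3 ∣ u - 1`; `gla = λ²` (`i = 0`, `3 ∣ v`, `mn Ds ≠ 0`): `u ≡ ω mod 9`, `λ ∣ ω - 1`, `kl u = zw (-mn Ds) ≠ 1`; in all cases `co F u = 1`, `c2f F u = 1` because `u ≡ 1` modulo the `q` and `2` (if `3 ∤ v2`).
`kpC_non`: `gC F` is not a unit (if it is: `Un F`, `3 ∣ v2`, `Sr F = ∅`, so `D` is a cube, as in `kL_non`), so it has a prime factor, `kpC_prim`.
`kpC_ram`: `D = p ^ n c`, `p` prime, `p ∤ 3`. `p` is a unit times a primary prime `p'` (`p' = -2` or odd), `D = p' ^ n c'`, `c' = c · unit ^ n`. `n = E p'` resp. `v2` (exact powers; `n = 0` if `p' ∉ S`). `p ∣ gC` iff `3 ∤ n`. If `3 ∣ n`: `kpC p = kpC p' = cr p' c'` (`co_recip`, `kz_prim`), `unit ^ n = ± 1`, and `cr p' c' = 1` iff `c'` is a cube modulo `p'` (`CU`/`CUL`: `cr_eq_one_iff` or `CU.sy_eq_zero_iff`; for `p' = -2`: `(O/2)* = {1, ω, ω²}`: `c ≡ y³` iff `c ≡ 1 mod 2`).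
`kpC_ramL`: `D = λ ^ n c`: `n = F.v`, `c = η ω ^ i Ds` (exact power). `λ ∣ gC` iff not `Un F`. `λ³ ∣ c - η'` iff `η' = η`, `i = 0`, `mn Ds = 0`. Then `kpC λ = co F λ c2f F λ = zw (mo Ds + v2) zw (-v2)` if `3 ∤ v2` (`co_la`, `crm_la`), `= zw (mo Ds + v2) = zw (mo Ds)` if `3 ∣ v2`; `= 1` iff `mo Ds = 0` iff (with `mn Ds = 0`) `9 ∣ Ds - 1` iff `λ ^ 4 ∣ c - η`.
-/

set_option autoImplicit false

open NumberField IsDedekindDomain Filter Topology
open scoped Classical ComplexConjugate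

namespace J2D

open CM27 JZ
open CU (la eE)
open CUL (Nl ez DS Cont LV IsRep rp cr mn mo zw GalU)
open JGL (Fac sl)
open Q3 (Adm Dd Prim tt r3)
open Q3L (c2 sg cx fQ Dec)
open J2L

variable {D : Eis}

theorem U6_crt {A B : Eis} (h : IsCoprime A B) (a : Eis) : ∃ u : Eis, A ∣ u - a ∧ B ∣ u - 1 := by
  obtain ⟨x, y, hxy⟩ := h
  exact ⟨a * (y * B) + x * A, ⟨x - a * x, by linear_combination a * hxy⟩,
    ⟨a * y - y, by linear_combination hxy⟩⟩

theorem U6_m {p m q B g : Eis} (hp : Prime p) (hq : Prime q) (h : p ∣ q) (hm : p * m = g) (hg : g = q * B) :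
    m ∣ B := by
  have := eis_isDomain
  obtain ⟨ε, hε⟩ := (hp.dvd_prime_iff_associated hq).1 h
  have h1 : m = ε * B := mul_left_cancel₀ hp.ne_zero (by rw [hm, hg, ← hε]; ring)
  rw [h1, Units.mul_left_dvd]

/-- the part at `2` of the conductor -/
noncomputable def U6_two (F : Fac D) : Eis := if 3 ∣ v2 F then 1 else 2

theorem U6_gC (F : Fac D) : gC F = gla F * U6_two F * ∏ p ∈ Sr F, p := rfl

theorem U6_zero {n : ℕ} (h : 3 ∣ n) : (n : ZMod 3) = 0 := (ZMod.natCast_eq_zero_iff n 3).2 h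

theorem U6_nz {n : ℕ} (h : ¬ 3 ∣ n) : (n : ZMod 3) ≠ 0 := fun h1 => h ((ZMod.natCast_eq_zero_iff n 3).1 h1)

theorem U6_la4 : (9 : Eis) ∣ la ^ 4 := ⟨CU.om ^ 2, by decide⟩

theorem U6_nine : la ^ 4 ∣ (9 : Eis) := ⟨CU.om, by decide⟩

theorem U6_kl (F : Fac D) {x y : Eis} (hx : ¬ la ∣ x) (h : gla F ∣ x - y) : kl F x = kl F y := by
  unfold kl
  unfold gla at h
  by_cases hU : Un F
  · obtain ⟨h1, h2, h3⟩ := hU
    rw [U6_zero h1, h2, h3, neg_zero, Nat.cast_zero, kz_zero, kz_zero]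
  · rw [if_neg hU] at h
    by_cases hv : 3 ∣ F.v
    · rw [if_pos hv] at h
      rw [U6_zero hv, neg_zero]
      by_cases hi : F.i = 0
      · rw [if_pos hi] at h
        rw [hi, Nat.cast_zero]
        exact kz_per3 _ hx h
      · rw [if_neg hi] at h
        exact kz_perL _ _ hx h
    · rw [if_neg hv] at h
      exact kz_per9 _ _ _ hx (U6_la4.trans h)

theorem U6_Sr (F : Fac D) {p : Eis} (hp : p ∈ Sr F) : Prime p ∧ Primary p ∧ ¬ p ∣ 2 ∧ ¬ p ∣ la ∧ ¬ 3 ∣ F.E p := by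
  obtain ⟨h1, h2⟩ := Finset.mem_filter.1 hp
  obtain ⟨h3, h4, h5, h6, -⟩ := So_spec F h1
  exact ⟨h3, h4, h5, h6, h2⟩

theorem U6_co (F : Fac D) {u : Eis} (h : ∏ p ∈ Sr F, p ∣ u - 1) : co F u = 1 := by
  rw [co_per F (y := 1) fun p hp => (Finset.dvd_prod_of_mem (fun q : Eis => q) hp).trans h, co_one]

theorem U6_c2 (F : Fac D) {u : Eis} (h : U6_two F ∣ u - 1) : c2f F u = 1 := by
  unfold c2f
  unfold U6_two at h
  split_ifs at h ⊢ with h1
  · rfl
  · rw [CUL.cr_congr JL.b3_two JL.b3_twoP (b := 1) (by rw [neg_dvd]; exact h),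
      CUL.cr_one JL.b3_two JL.b3_twoP, one_pow]

theorem U6_la1 : ¬ la ∣ (1 : Eis) := fun h => CU.la_prime.not_isUnit (isUnit_of_dvd_one h)

theorem U6_kl1 (F : Fac D) {u : Eis} (h : gla F ∣ u - 1) : kl F u = 1 := by
  have h1 : kl F 1 = kl F u := U6_kl F U6_la1 (by rw [← neg_sub, dvd_neg]; exact h)
  rw [← h1]
  exact kz_one _ _ _

theorem U6_gla_pow (F : Fac D) : ∃ k : ℕ, gla F = la ^ k := by
  unfold gla
  split_ifs
  · exact ⟨0, (pow_zero _).symm⟩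
  · exact ⟨2, rfl⟩
  · exact ⟨3, rfl⟩
  · exact ⟨4, rfl⟩

theorem U6_cop {p x : Eis} (hp : Prime p) (h : ¬ p ∣ x) : IsCoprime p x := by
  have := eis_isDomain
  have := eis_pid
  exact (hp.irreducible.coprime_iff_not_dvd).2 h

theorem U6_cop2 (F : Fac D) {p : Eis} (hp : p ∈ Sr F) : IsCoprime p (U6_two F) := by
  obtain ⟨h1, h2, h3, -⟩ := U6_Sr F hp
  unfold U6_two
  split_ifs
  · exact isCoprime_one_right
  · exact U6_cop h1 h3

theorem U6_copla (F : Fac D) {p : Eis} (hp : p ∈ Sr F) : IsCoprime p (gla F) := by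
  obtain ⟨h1, h2, h3, h4, -⟩ := U6_Sr F hp
  obtain ⟨k, hk⟩ := U6_gla_pow F
  rw [hk]
  exact (U6_cop h1 h4).pow_right

theorem U6_cop2la (F : Fac D) : IsCoprime (U6_two F) (gla F) := by
  obtain ⟨k, hk⟩ := U6_gla_pow F
  rw [hk]
  apply IsCoprime.pow_right
  unfold U6_two
  split_ifs
  · exact isCoprime_one_left
  · have h := CUL.cop_la JL.b3_twoP
    have e : (2 : Eis) = - (-2) := by ring
    rw [e]
    exact h.neg_left

theorem U6_copu {f u : Eis} (h : f ∣ u - 1) : IsCoprime u f :=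
  (JGL.D5_cop_congr h).2 isCoprime_one_left

theorem U6_val (F : Fac D) {u : Eis} (h : IsCoprime u (gC F)) : kpC F u = co F u * c2f F u * conj (kl F u) :=
  if_pos h

theorem U6_pw {n : ℕ} (h : ¬ 3 ∣ n) : zw 1 ^ n ≠ 1 := by
  rw [CUL.zw_pow, mul_one, ← CUL.zw_zero]
  exact fun h1 => U6_nz h (CUL.zw_inj h1)

theorem U6_a (F : Fac D) {p m q : Eis} (hp : Prime p) (hm : p * m = gC F) (hq : q ∈ Sr F) (h : p ∣ q) :
    ∃ u, IsCoprime u (gC F) ∧ m ∣ u - 1 ∧ kpC F u ≠ 1 := by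
  have := eis_isDomain
  obtain ⟨h1, h2, h3, h4, h5⟩ := U6_Sr F hq
  have e1 : ∏ r ∈ Sr F, r = q * ∏ r ∈ (Sr F).erase q, r := (Finset.mul_prod_erase (Sr F) (fun r : Eis => r) hq).symm
  have e2 : gC F = q * (gla F * U6_two F * ∏ r ∈ (Sr F).erase q, r) := by
    rw [U6_gC, e1]
    ring
  have h6 : m ∣ gla F * U6_two F * ∏ r ∈ (Sr F).erase q, r := U6_m hp h1 h hm e2
  have h7 : IsCoprime q (∏ r ∈ (Sr F).erase q, r) := by
    refine IsCoprime.prod_right fun r hr => ?_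
    obtain ⟨h8, h9⟩ := Finset.mem_erase.1 hr
    obtain ⟨h10, h11, -⟩ := U6_Sr F h9
    refine U6_cop h1 fun h12 => h8 ?_
    exact (CUL.primary_assoc h2 h11 ((h1.dvd_prime_iff_associated h10).1 h12)).symm
  have h8 : IsCoprime q (gla F * U6_two F * ∏ r ∈ (Sr F).erase q, r) :=
    ((U6_copla F hq).mul_right (U6_cop2 F hq)).mul_right h7
  obtain ⟨u₀, h9, h10⟩ := exists_ncube h1 h2
  obtain ⟨u, h11, h12⟩ := U6_crt h8 u₀
  have h13 : IsCoprime u (gC F) := by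
    rw [e2]
    refine IsCoprime.mul_right ?_ (U6_copu h12)
    exact (U6_cop h1 fun h14 => h9 ((dvd_sub_right h14).1 h11)).symm
  refine ⟨u, h13, h6.trans h12, ?_⟩
  rw [U6_val F h13, U6_c2 F (((dvd_mul_left _ _).trans (dvd_mul_right _ _)).trans h12),
    U6_kl1 F (((dvd_mul_right _ _).trans (dvd_mul_right _ _)).trans h12), map_one, mul_one, mul_one]
  unfold co
  rw [← Finset.mul_prod_erase (Sr F) (fun r : Eis => cr r u ^ F.E r) hq, Finset.prod_eq_one, mul_one,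
    CUL.cr_congr h1 h2 h11, h10]
  · exact U6_pw h5
  · intro r hr
    obtain ⟨-, h14⟩ := Finset.mem_erase.1 hr
    obtain ⟨h15, h16, -⟩ := U6_Sr F h14
    rw [CUL.cr_congr h15 h16 (b := 1)
      (((Finset.dvd_prod_of_mem (fun r : Eis => r) hr).trans (dvd_mul_left _ _)).trans h12),
      CUL.cr_one h15 h16, one_pow]

theorem U6_b (F : Fac D) {p m : Eis} (hp : Prime p) (hm : p * m = gC F) (h : p ∣ U6_two F) :
    ∃ u, IsCoprime u (gC F) ∧ m ∣ u - 1 ∧ kpC F u ≠ 1 := by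
  have := eis_isDomain
  by_cases hv : 3 ∣ v2 F
  · unfold U6_two at h
    rw [if_pos hv] at h
    exact absurd (isUnit_of_dvd_one h) hp.not_isUnit
  have e0 : U6_two F = 2 := if_neg hv
  have e2 : gC F = 2 * (gla F * ∏ r ∈ Sr F, r) := by
    rw [U6_gC, e0]
    ring
  rw [e0] at h
  have h2 : Prime (2 : Eis) := Q3.prime_two
  have h6 : m ∣ gla F * ∏ r ∈ Sr F, r := U6_m hp h2 h hm e2
  have h7 : IsCoprime (2 : Eis) (∏ r ∈ Sr F, r) := by
    refine IsCoprime.prod_right fun r hr => ?_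
    have h8 := (U6_cop2 F hr).symm
    rwa [e0] at h8
  have h8 : IsCoprime (2 : Eis) (gla F * ∏ r ∈ Sr F, r) := by
    refine IsCoprime.mul_right ?_ h7
    have h9 := U6_cop2la F
    rwa [e0] at h9
  obtain ⟨u, h11, h12⟩ := U6_crt h8 CU.om
  have hom : IsUnit CU.om := IsUnit.of_pow_eq_one (n := 3) (by decide) (by norm_num)
  have h9 : ¬ (2 : Eis) ∣ CU.om := fun h => h2.not_isUnit (isUnit_of_dvd_unit h hom)
  have h10 : ¬ (2 : Eis) ∣ u := fun h14 => h9 ((dvd_sub_right h14).1 h11)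
  have h13 : IsCoprime u (gC F) := by
    rw [e2]
    exact IsCoprime.mul_right (U6_cop h2 h10).symm (U6_copu h12)
  refine ⟨u, h13, h6.trans h12, ?_⟩
  rw [U6_val F h13, U6_co F ((dvd_mul_left _ _).trans h12),
    U6_kl1 F ((dvd_mul_right _ _).trans h12), map_one, mul_one, one_mul, c2f_odd F h10,
    CUL.cr_congr JL.b3_two JL.b3_twoP (b := CU.om) (by rw [neg_dvd]; exact h11), crm_om]
  exact U6_pw hv

theorem U6_c (F : Fac D) {p m u₀ : Eis} {k : ℕ} (hp : Prime p) (hm : p * m = gC F) (h : p ∣ gla F)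
    (hg : gla F = la ^ (k + 1)) (hu : la ^ k ∣ u₀ - 1) (hl : ¬ la ∣ u₀) (hk : kl F u₀ ≠ 1) :
    ∃ u, IsCoprime u (gC F) ∧ m ∣ u - 1 ∧ kpC F u ≠ 1 := by
  have := eis_isDomain
  have h1 : p ∣ la := hp.dvd_of_dvd_pow (hg ▸ h)
  have e2 : gC F = la * (la ^ k * (U6_two F * ∏ r ∈ Sr F, r)) := by
    rw [U6_gC, hg, pow_succ]
    ring
  have h6 : m ∣ la ^ k * (U6_two F * ∏ r ∈ Sr F, r) := U6_m hp CU.la_prime h1 hm e2
  have h7 : IsCoprime (gla F) (U6_two F * ∏ r ∈ Sr F, r) := by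
    refine IsCoprime.mul_right (U6_cop2la F).symm ?_
    exact IsCoprime.prod_right fun r hr => (U6_copla F hr).symm
  obtain ⟨u, h11, h12⟩ := U6_crt h7 u₀
  have h8 : la ∣ gla F := by
    rw [hg, pow_succ]
    exact dvd_mul_left _ _
  have h10 : ¬ la ∣ u := fun h14 => hl ((dvd_sub_right h14).1 (h8.trans h11))
  have h13 : IsCoprime u (gC F) := by
    rw [U6_gC, mul_assoc]
    refine IsCoprime.mul_right ?_ (U6_copu h12)
    rw [hg]
    exact (U6_cop CU.la_prime h10).symm.pow_right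
  have h14 : la ^ k ∣ u - 1 := by
    have h15 : la ^ k ∣ gla F := by
      rw [hg, pow_succ]
      exact dvd_mul_right _ _
    have e : u - 1 = (u - u₀) + (u₀ - 1) := by ring
    rw [e]
    exact dvd_add (h15.trans h11) hu
  have h16 : IsCoprime (la ^ k) (U6_two F * ∏ r ∈ Sr F, r) := by
    refine h7.of_isCoprime_of_dvd_left ?_
    rw [hg, pow_succ]
    exact dvd_mul_right _ _
  refine ⟨u, h13, h6.trans (h16.mul_dvd h14 h12), ?_⟩
  rw [U6_val F h13, U6_co F ((dvd_mul_left _ _).trans h12), U6_c2 F ((dvd_mul_right _ _).trans h12),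
    mul_one, one_mul, U6_kl F h10 h11]
  intro h17
  apply hk
  have h18 := congrArg (starRingEnd ℂ) h17
  rwa [Complex.conj_conj, map_one] at h18

theorem kpC_prim (F : Fac D) {p m : Eis} (hp : Prime p) (hm : p * m = gC F) : ∃ u, IsCoprime u (gC F) ∧ m ∣ u - 1 ∧ kpC F u ≠ 1 := by
  have := eis_isDomain
  have h1 : p ∣ gla F * U6_two F * ∏ r ∈ Sr F, r := ⟨m, by rw [← U6_gC, hm]⟩
  rcases hp.dvd_or_dvd h1 with h2 | h2
  swap
  · obtain ⟨q, hq, h3⟩ := (hp.dvd_finsetProd_iff (fun r : Eis => r)).1 h2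
    exact U6_a F hp hm hq h3
  rcases hp.dvd_or_dvd h2 with h3 | h3
  swap
  · exact U6_b F hp hm h3
  by_cases hU : Un F
  · have h4 : gla F = 1 := if_pos hU
    rw [h4] at h3
    exact absurd (isUnit_of_dvd_one h3) hp.not_isUnit
  by_cases hv : 3 ∣ F.v
  · by_cases hi : F.i = 0
    · have hg : gla F = la ^ (1 + 1) := by
        unfold gla
        rw [if_neg hU, if_pos hv, if_pos hi]
      have hom : IsUnit CU.om := IsUnit.of_pow_eq_one (n := 3) (by decide) (by norm_num)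
      refine U6_c F (u₀ := CU.om) hp hm h3 hg ⟨-1, by decide⟩
        (fun h => CU.la_prime.not_isUnit (isUnit_of_dvd_unit h hom)) ?_
      unfold kl
      rw [kz_om, ← CUL.zw_zero]
      intro h5
      have h6 := CUL.zw_inj h5
      exact hU ⟨hv, hi, neg_eq_zero.1 h6⟩
    · have hg : gla F = la ^ (2 + 1) := by
        unfold gla
        rw [if_neg hU, if_pos hv, if_neg hi]
      have h4 : Primary (4 : Eis) := ⟨1, by norm_num⟩
      refine U6_c F (u₀ := 4) hp hm h3 hg ⟨-CU.om ^ 2, by decide⟩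
        (fun h => ((CUL.cop_la h4).isUnit_of_dvd' h dvd_rfl |> CU.la_prime.not_isUnit)) ?_
      unfold kl
      rw [kz_prim _ _ _ h4]
      unfold JGL.ka
      have h5 : mn 4 = 1 := by decide
      rw [h5, U6_zero hv, neg_zero, zero_mul, zero_add, mul_one, ← CUL.zw_zero]
      intro h6
      refine U6_nz (n := F.i) (fun h7 => hi ?_) (CUL.zw_inj h6)
      have h8 := F.hi
      omega
  · have hg : gla F = la ^ (3 + 1) := by
      unfold gla
      rw [if_neg hU, if_neg hv]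
    have h4 : Primary (1 + la ^ 3 : Eis) := ⟨⟨-1, -2⟩, by decide⟩
    refine U6_c F (u₀ := 1 + la ^ 3) hp hm h3 hg ⟨1, by ring⟩
      (fun h => ((CUL.cop_la h4).isUnit_of_dvd' h dvd_rfl |> CU.la_prime.not_isUnit)) ?_
    unfold kl
    rw [kz_prim _ _ _ h4]
    unfold JGL.ka
    have h5 : mn (1 + la ^ 3) = 0 := by decide
    have h6 : mo (1 + la ^ 3) = -1 := by decide
    rw [h5, h6, mul_zero, add_zero, mul_neg, mul_one, neg_neg, ← CUL.zw_zero]
    exact fun h7 => U6_nz hv (CUL.zw_inj h7)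

theorem U6_cube (S : Finset Eis) (E : Eis → ℕ) (h : ∀ p ∈ S, 3 ∣ E p) : ∃ y : Eis, y ^ 3 = ∏ p ∈ S, p ^ E p := by
  refine ⟨∏ p ∈ S, p ^ (E p / 3), ?_⟩
  rw [← Finset.prod_pow]
  refine Finset.prod_congr rfl fun p hp => ?_
  rw [← pow_mul, Nat.div_mul_cancel (h p hp)]

theorem kpC_non (F : Fac D) (h0 : D ≠ 0) (hc : ¬ ∃ x : Eis, x ^ 3 = D) : ∃ x, IsCoprime x (gC F) ∧ kpC F x ≠ 1 := by
  have := eis_isDomain
  have := eis_pid
  have hne := gC_ne F
  by_cases hu : IsUnit (gC F)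
  · exfalso
    apply hc
    rw [U6_gC] at hu
    have hu1 : IsUnit (gla F * U6_two F) := isUnit_of_mul_isUnit_left hu
    have hu2 : IsUnit (∏ r ∈ Sr F, r) := isUnit_of_mul_isUnit_right hu
    have hu3 : IsUnit (gla F) := isUnit_of_mul_isUnit_left hu1
    have hu4 : IsUnit (U6_two F) := isUnit_of_mul_isUnit_right hu1
    have h1 : 3 ∣ v2 F := by
      by_contra h
      unfold U6_two at hu4
      rw [if_neg h] at hu4
      exact Q3.prime_two.not_isUnit hu4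
    have h2 : Un F := by
      by_contra h
      unfold gla at hu3
      rw [if_neg h] at hu3
      have hl : ¬ IsUnit la := CU.la_prime.not_isUnit
      split_ifs at hu3
      · exact hl (isUnit_of_dvd_unit (dvd_pow_self la two_ne_zero) hu3)
      · exact hl (isUnit_of_dvd_unit (dvd_pow_self la three_ne_zero) hu3)
      · exact hl (isUnit_of_dvd_unit (dvd_pow_self la four_ne_zero) hu3)
    have h3 : ∀ p ∈ So F, 3 ∣ F.E p := by
      intro p hp
      by_contra h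
      have h4 : p ∈ Sr F := Finset.mem_filter.2 ⟨hp, h⟩
      exact (U6_Sr F h4).1.not_isUnit
        (isUnit_of_dvd_unit (Finset.dvd_prod_of_mem (fun q : Eis => q) h4) hu2)
    obtain ⟨h4, h5, -⟩ := h2
    obtain ⟨y, hy⟩ := U6_cube (So F) F.E h3
    have e1 : (-2 : Eis) ^ F.E (-2) * ∏ p ∈ So F, p ^ F.E p = ∏ p ∈ F.S, p ^ F.E p :=
      Finset.mul_prod_erase F.S (fun p : Eis => p ^ F.E p) F.h2
    have e2 : (-2 : Eis) ^ F.E (-2) = 4 * (-2) ^ v2 F := by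
      have e3 : F.E (-2) = 2 + v2 F := by
        have := F.hE2.1
        unfold v2
        omega
      rw [e3, pow_add]
      norm_num
    have e4 : F.Ds = (-2) ^ v2 F * y ^ 3 := by
      have h6 : (4 : Eis) ≠ 0 := by decide
      apply mul_left_cancel₀ h6
      rw [F.h4, ← e1, e2, hy]
      ring
    obtain ⟨a, ha⟩ := h1
    obtain ⟨b, hb⟩ := h4
    have e5 : F.η ^ 3 = F.η := by
      rcases F.hη with h | h
      · rw [h]
        norm_num
      · rw [h]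
        norm_num
    refine ⟨F.η * la ^ b * ((-2) ^ a * y), ?_⟩
    conv_rhs => rw [F.hD, h5, e4, ha, hb, ← e5]
    ring
  · obtain ⟨p, hp, m, hm⟩ := WfDvdMonoid.exists_irreducible_factor hu hne
    obtain ⟨u, h1, -, h2⟩ := kpC_prim F hp.prime hm.symm
    exact ⟨u, h1, h2⟩

end J2D
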