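import Pool.Agent.J2D.U
import Pool.Agent.J2D.S4
import Pool.Agent.J2D.S5
import Pool.Agent.J2D.H1
import Pool.Agent.J2D.H2

/-!
# [J2D] the data of `D` for the prime `2`
-/

set_option autoImplicit false

open NumberField IsDedekindDomain Filter Topology
open scoped Classical ComplexConjugate

namespace J2D

open CM27 JZ
open CU (la eE)
open CUL (Nl ez DS Cont LV IsRep rp cr mn mo zw GalU)
open JGL (Fac sl)
open J2L

variable {D : Eis}

theorem main2 (h : JT.Cl2 D) : ∃ d : Dt D, (∃ p₂ pl : Eis, JG.Val2 D p₂ ∧ JG.ValL D pl ∧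
    ∃ Φ : ℂ → ℂ, Differentiable ℂ Φ ∧ (∀ s : ℂ, 3 / 2 < s.re →
      Φ s = LSeries (fun n => NAB.IL CF.KK (fun I => conj (emb (JG.PsiG D p₂ pl I))) n) s) ∧
      (∃ u : ℂ, ‖u‖ = 1 ∧ Φ 1 = u * OmC / (6 * 2 ^ n2 d.v d.δ * emb d.L.f) * V d.L d.v d.δ) ∧
      ∀ s t : ℂ, s ^ 2 = emb D → t ^ 3 = emb (4 * D) → Φ 1 * s / (OmC * t) ∈ CF.KK) ∧
    ∀ s t : ℂ, s ^ 2 = emb D → t ^ 3 = emb (4 * D) → V d.L d.v d.δ * s / t ∈ CF.KK := by
  have hdom := eis_isDomain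
  have h0 : D ≠ 0 := fun h' => h.free 2 Q3.prime_two (by rw [h']; exact dvd_zero _)
  obtain ⟨F⟩ := JGL.exists_Fac h0 h.free
  obtain ⟨S⟩ := exists_sq h0
  obtain ⟨Z⟩ := zd_exists F
  obtain ⟨L, hL⟩ := exists_lv F S h0 h.ncube
  have hj : L.j = 1 - (v2 F : ZMod 3) := hL.hj
  have hj' : 1 - L.j = (v2 F : ZMod 3) := by rw [hj, sub_sub_cancel]
  let d : Dt D :=
    { L := L
      C := cubC F h0 h.ncube
      v := v2 F
      D₀ := Z.D₀
      ζ := Z.ζ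
      δ := Z.δ
      hv := by
        have h1 := F.hE2
        unfold v2
        omega
      hD := Z.hD
      hD₀ := Z.hD₀
      hζ := Z.hζ
      hδ := Z.hδ
      hj := hj
      hq := q_neg F S Z h0 hL
      k2 := by
        rw [hL.hk]
        exact kL_two F Z
      kpk := fun x hx => by
        rw [hL.hf] at hx
        show kpC F x = _
        rw [hL.hk, hj']
        exact kpC_k F hx
      gdvd := by
        show gC F ∣ _
        have h1 := gC_dvd F h0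
        have h2 : L.j = 1 ↔ (v2 F : ZMod 3) = 0 := by
          rw [hj]
          constructor
          · intro h3
            rw [← sub_sub_cancel 1 (v2 F : ZMod 3), h3, sub_self]
          · intro h3
            rw [h3, sub_zero]
        by_cases h3 : L.j = 1
        · rw [if_pos h3, hL.hf]
          rw [if_pos (h2.1 h3)] at h1
          exact h1
        · rw [if_neg h3, hL.hf]
          rw [if_neg (fun h4 => h3 (h2.2 h4))] at h1
          exact h1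
      tam := fun p hp hpf => by
        rw [hL.hf] at hpf
        exact kpC_tam F h hp hpf
      gal := gal_cD F h0 }
  obtain ⟨p₂, h2, h2'⟩ := exists_p2 F S Z h0 hL
  obtain ⟨pl, hl, hl'⟩ := exists_pl F S Z h0 hL
  obtain ⟨Φ, f1, f2, f3⟩ := entire F S Z h0 hL h2' hl'
  obtain ⟨u, hu, huK, hV⟩ := V_V1 L (v2 F) Z.δ
  have hΦ : Φ 1 = u * OmC / (6 * 2 ^ n2 (v2 F) Z.δ * emb L.f) * V L (v2 F) Z.δ := by
    rw [f3, hV, map_mul, map_pow, map_ofNat]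
    ring
  refine ⟨d, ⟨p₂, pl, h2, hl, Φ, f1, f2, ⟨u, hu, hΦ⟩, fun s t hs ht => ?_⟩,
    fun s t hs ht => b_mem F S Z h0 hL hs ht⟩
  have hK := b_mem F S Z h0 hL hs ht
  have hO : OmC ≠ 0 := OmC_ne
  have e : Φ 1 * s / (OmC * t) = u / emb (6 * 2 ^ n2 (v2 F) Z.δ * L.f) * (V L (v2 F) Z.δ * s / t) := by
    rw [hΦ]
    simp only [map_mul, map_pow, map_ofNat]
    rw [mul_div_mul_comm]
    have e1 : u * OmC / (6 * 2 ^ n2 (v2 F) Z.δ * emb L.f) * V L (v2 F) Z.δ / OmC =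
        u / (6 * 2 ^ n2 (v2 F) Z.δ * emb L.f) * V L (v2 F) Z.δ := by
      field_simp
    rw [e1]
    ring
  rw [e]
  exact mul_mem (div_mem huK (CF.d2_emb_mem _)) hK

theorem main (h : JT.Cl2 D) : ∃ d : Dt D, (∃ p₂ pl : Eis, JG.Val2 D p₂ ∧ JG.ValL D pl ∧
    ∃ Φ : ℂ → ℂ, Differentiable ℂ Φ ∧ (∀ s : ℂ, 3 / 2 < s.re →
      Φ s = LSeries (fun n => NAB.IL CF.KK (fun I => conj (emb (JG.PsiG D p₂ pl I))) n) s) ∧
      ∃ u : ℂ, ‖u‖ = 1 ∧ Φ 1 = u * OmC / (6 * 2 ^ n2 d.v d.δ * emb d.L.f) * V d.L d.v d.δ) ∧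
    ∀ s t : ℂ, s ^ 2 = emb D → t ^ 3 = emb (4 * D) → V d.L d.v d.δ * s / t ∈ CF.KK := by
  obtain ⟨d, ⟨p₂, pl, h2, hl, Φ, f1, f2, hu, -⟩, hV⟩ := main2 h
  exact ⟨d, ⟨p₂, pl, h2, hl, Φ, f1, f2, hu⟩, hV⟩

end J2D
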